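import Mathlib

/-! Walks on expanders rarely stay in small sets. -/

set_option linter.unusedSectionVars false

namespace Pool.Agent.Lib.MP_4d0379_lc

open Finset

/-- `nb` is the neighbour map of a `d`-regular digraph on `range N` with spectral bound `lam` -/
structure IsExp (N d : ℕ) (nb : ℕ → ℕ → ℕ) (lam : ℝ) : Prop where
  lt : ∀ v < N, ∀ i < d, nb v i < N
  reg : ∀ f : ℕ → ℝ, ∑ v ∈ range N, ∑ i ∈ range d, f (nb v i) = d * ∑ v ∈ range N, f v
  spec : ∀ f : ℕ → ℝ, ∑ v ∈ range N, f v = 0 →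
    ∑ v ∈ range N, (∑ i ∈ range d, f (nb v i)) ^ 2 ≤ (lam * d) ^ 2 * ∑ v ∈ range N, f v ^ 2

theorem sum_range_mul_divmod {M : Type} [AddCommMonoid M] (d n : ℕ) (F : ℕ → ℕ → M) :
    ∑ w ∈ range (d * n), F (w % d) (w / d) = ∑ i ∈ range d, ∑ w ∈ range n, F i w := by
  rcases Nat.eq_zero_or_pos d with rfl | hd
  · simp
  rw [← sum_product' (f := F)]
  refine sum_nbij' (fun w => (w % d, w / d)) (fun q => d * q.2 + q.1) ?_ ?_ ?_ ?_ ?_
  · intro w hw
    simp only [mem_range, mem_product] at hw ⊢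
    exact ⟨Nat.mod_lt _ hd, Nat.div_lt_of_lt_mul hw⟩
  · intro q hq
    simp only [mem_range, mem_product] at hq ⊢
    nlinarith [hq.1, hq.2]
  · intro w _
    exact Nat.div_add_mod w d
  · intro q hq
    simp only [mem_range, mem_product] at hq
    refine Prod.ext ?_ ?_
    · simp [Nat.mod_eq_of_lt hq.1]
    · simp only
      rw [Nat.mul_add_div hd, Nat.div_eq_of_lt hq.1, add_zero]
  · intro w _
    rfl

/-- one step of a walk whose remaining steps are the base `d` digits of the second entry -/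
def wstep (nb : ℕ → ℕ → ℕ) (d : ℕ) (s : ℕ × ℕ) : ℕ × ℕ := (nb s.1 (s.2 % d), s.2 / d)

/-- position after `t` steps -/
def pos (nb : ℕ → ℕ → ℕ) (d t v w : ℕ) : ℕ := ((wstep nb d)^[t] (v, w)).1

theorem pos_zero (nb : ℕ → ℕ → ℕ) (d v w : ℕ) : pos nb d 0 v w = v := rfl

theorem pos_succ (nb : ℕ → ℕ → ℕ) (d t v w : ℕ) :
    pos nb d (t + 1) v w = pos nb d t (nb v (w % d)) (w / d) := rfl

theorem pos_lt {N d : ℕ} {nb : ℕ → ℕ → ℕ} (hd : 0 < d) (h : ∀ v < N, ∀ i < d, nb v i < N)
    (t : ℕ) : ∀ v < N, ∀ w, pos nb d t v w < N := by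
  induction t with
  | zero => intro v hv w; exact hv
  | succ t ih => intro v hv w; exact ih _ (h v hv _ (Nat.mod_lt _ hd)) _

variable {N d : ℕ} {nb : ℕ → ℕ → ℕ} {lam : ℝ}

theorem sum_pos_succ (f : ℕ → ℝ) (t v : ℕ) :
    ∑ w ∈ range (d ^ (t + 1)), f (pos nb d (t + 1) v w)
      = ∑ i ∈ range d, ∑ w ∈ range (d ^ t), f (pos nb d t (nb v i) w) := by
  rw [pow_succ', ← sum_range_mul_divmod d (d ^ t) fun i w => f (pos nb d t (nb v i) w)]
  rfl

theorem IsExp.pow (h : IsExp N d nb lam) (hd : 0 < d) (t : ℕ) :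
    IsExp N (d ^ t) (pos nb d t) (lam ^ t) := by
  have reg : ∀ t, ∀ f : ℕ → ℝ, ∑ v ∈ range N, ∑ i ∈ range (d ^ t), f (pos nb d t v i)
      = (d ^ t : ℕ) * ∑ v ∈ range N, f v := by
    intro t f
    induction t with
    | zero => simp [pos_zero]
    | succ t ih =>
      simp only [sum_pos_succ]
      rw [h.reg fun u => ∑ w ∈ range (d ^ t), f (pos nb d t u w), ih]
      push_cast
      ring
  refine ⟨fun v hv i _ => pos_lt hd h.lt t v hv i, reg t, fun f hf => ?_⟩
  induction t with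
  | zero => simp [pos_zero]
  | succ t ih =>
    simp only [sum_pos_succ]
    refine (h.spec (fun u => ∑ w ∈ range (d ^ t), f (pos nb d t u w))
      (by rw [reg, hf, mul_zero])).trans ?_
    refine (mul_le_mul_of_nonneg_left ih (sq_nonneg _)).trans (le_of_eq ?_)
    push_cast
    ring

theorem IsExp.mono (h : IsExp N d nb lam) {lam' : ℝ} (h0 : 0 ≤ lam) (h1 : lam ≤ lam') :
    IsExp N d nb lam' :=
  ⟨h.lt, h.reg, fun f hf => (h.spec f hf).trans (mul_le_mul_of_nonneg_right
    (pow_le_pow_left₀ (by positivity) (mul_le_mul_of_nonneg_right h1 (by positivity)) 2)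
    (sum_nonneg fun _ _ => sq_nonneg _))⟩

theorem IsExp.step (h : IsExp N d nb lam) (hN : 0 < N) {S S' : Finset ℕ} (hS : (#S : ℝ) ≤ lam * N)
    (hS' : (#S' : ℝ) ≤ lam * N) (g : ℕ → ℝ) (hg : ∀ v, v ∉ S → g v = 0) :
    ∑ v ∈ range N, (if v ∈ S' then ∑ i ∈ range d, g (nb v i) else 0) ^ 2
      ≤ (2 * lam * d) ^ 2 * ∑ v ∈ range N, g v ^ 2 := by
  have hN' : (0 : ℝ) < N := by exact_mod_cast hN
  have hlam : 0 ≤ lam := by
    have : 0 ≤ lam * N := le_trans (by positivity) hS
    exact nonneg_of_mul_nonneg_left this hN'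
  set c : ℝ := (∑ v ∈ range N, g v) / N with hc
  set G : ℝ := ∑ v ∈ range N, g v ^ 2 with hG
  have hG0 : 0 ≤ G := sum_nonneg fun _ _ => sq_nonneg _
  have hsum : ∑ v ∈ range N, g v = N * c := by rw [hc]; field_simp
  have h1 := h.spec (fun v => g v - c) (by
    rw [sum_sub_distrib, hsum]; simp)
  have h2 : ∑ v ∈ range N, (g v - c) ^ 2 ≤ G := by
    have : ∑ v ∈ range N, (g v - c) ^ 2 = G - N * c ^ 2 := by
      simp only [sub_sq, sum_add_distrib, sum_sub_distrib, ← sum_mul, ← mul_sum, hsum, sum_const,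
        card_range, nsmul_eq_mul, ← hG]
      ring
    rw [this]
    nlinarith [sq_nonneg c]
  have h3 : N * c ^ 2 ≤ lam * G := by
    have h4 : ∑ v ∈ range N, g v = ∑ v ∈ range N ∩ S, g v := by
      refine (sum_subset inter_subset_left fun v hv hv' => hg v fun hs => hv' ?_).symm
      exact mem_inter.2 ⟨hv, hs⟩
    have h5 := sq_sum_le_card_mul_sum_sq (s := range N ∩ S) (f := g)
    have h6 : ∑ v ∈ range N ∩ S, g v ^ 2 ≤ G :=
      sum_le_sum_of_subset_of_nonneg inter_subset_left fun _ _ _ => sq_nonneg _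
    have h7 : (#(range N ∩ S) : ℝ) ≤ lam * N :=
      le_trans (Nat.cast_le.2 (card_le_card inter_subset_right)) hS
    rw [← h4, hsum] at h5
    have h8 : (N * c) ^ 2 ≤ lam * N * G :=
      h5.trans (mul_le_mul h7 h6 (sum_nonneg fun _ _ => sq_nonneg _) (by positivity))
    have : N * (N * c ^ 2) ≤ N * (lam * G) := by nlinarith
    exact le_of_mul_le_mul_left this hN'
  calc _ ≤ ∑ v ∈ range N, ((if v ∈ S' then 2 * (d * c) ^ 2 else 0)
        + 2 * (∑ i ∈ range d, (g (nb v i) - c)) ^ 2) := by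
        refine sum_le_sum fun v _ => ?_
        split_ifs
        · rw [sum_sub_distrib, sum_const, card_range, nsmul_eq_mul]
          nlinarith [sq_nonneg (∑ i ∈ range d, g (nb v i) - 2 * (d * c))]
        · nlinarith [sq_nonneg (∑ i ∈ range d, (g (nb v i) - c))]
    _ ≤ lam * N * (2 * (d * c) ^ 2) + 2 * ((lam * d) ^ 2 * G) := by
        rw [sum_add_distrib, ← mul_sum]
        refine add_le_add ?_ (mul_le_mul_of_nonneg_left
          (h1.trans (mul_le_mul_of_nonneg_left h2 (sq_nonneg _))) (by norm_num))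
        rw [← sum_filter, sum_const, nsmul_eq_mul]
        refine mul_le_mul_of_nonneg_right (le_trans (Nat.cast_le.2 (card_le_card ?_)) hS')
          (by positivity)
        intro v hv
        exact (mem_filter.1 hv).2
    _ ≤ _ := by
        have := mul_le_mul_of_nonneg_left h3 (by positivity : 0 ≤ 2 * lam * (d : ℝ) ^ 2)
        nlinarith

/-- number of walks from `v` of length `t` staying in the given sets -/
def wcount (nb : ℕ → ℕ → ℕ) (d t : ℕ) (S : ℕ → Finset ℕ) (v : ℕ) : ℕ :=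
  #{w ∈ range (d ^ t) | ∀ τ ≤ t, pos nb d τ v w ∈ S τ}

theorem wcount_succ (t : ℕ) (S : ℕ → Finset ℕ) (v : ℕ) :
    (wcount nb d (t + 1) S v : ℝ)
      = if v ∈ S 0 then ∑ i ∈ range d, (wcount nb d t (fun τ => S (τ + 1)) (nb v i) : ℝ) else 0 := by
  simp only [wcount, card_filter]
  push_cast
  rw [pow_succ', ← sum_range_mul_divmod d (d ^ t)
    fun i w => if ∀ τ ≤ t, pos nb d τ (nb v i) w ∈ S (τ + 1) then (1 : ℝ) else 0]
  split_ifs with hv
  · refine sum_congr rfl fun w _ => if_congr ?_ rfl rfl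
    constructor
    · intro h τ hτ
      exact h (τ + 1) (by omega)
    · intro h τ hτ
      cases τ with
      | zero => exact hv
      | succ τ => exact h τ (by omega)
  · refine sum_eq_zero fun w _ => if_neg fun h => hv (h 0 (by omega))

theorem IsExp.wcount_sq (h : IsExp N d nb lam) (hN : 0 < N) (t : ℕ) : ∀ S : ℕ → Finset ℕ,
    (∀ τ ≤ t, (#(S τ) : ℝ) ≤ lam * N) →
    ∑ v ∈ range N, (wcount nb d t S v : ℝ) ^ 2 ≤ ((2 * lam * d) ^ t) ^ 2 * N := by
  induction t with
  | zero =>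
    intro S _
    calc _ ≤ ∑ v ∈ range N, (1 : ℝ) := by
          refine sum_le_sum fun v _ => pow_le_one₀ (by positivity) ?_
          exact_mod_cast (card_filter_le _ _).trans (by simp)
      _ = _ := by simp
  | succ t ih =>
    intro S hS
    simp only [wcount_succ]
    refine (h.step hN (hS 1 (by omega)) (hS 0 (by omega))
      (fun v => (wcount nb d t (fun τ => S (τ + 1)) v : ℝ)) fun v hv => ?_).trans ?_
    · simp only [wcount, Nat.cast_eq_zero, card_eq_zero, filter_eq_empty_iff]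
      exact fun w _ hw => hv (hw 0 (by omega))
    · refine (mul_le_mul_of_nonneg_left (ih _ fun τ hτ => hS _ (by omega)) (sq_nonneg _)).trans
        (le_of_eq ?_)
      ring

/-- the hitting property -/
theorem IsExp.hitting (h : IsExp N d nb lam) (hN : 0 < N) (t : ℕ) (S : ℕ → Finset ℕ)
    (hS : ∀ τ ≤ t, (#(S τ) : ℝ) ≤ lam * N) :
    (#{w ∈ range (N * d ^ t) | ∀ τ ≤ t, pos nb d τ (w % N) (w / N) ∈ S τ} : ℝ)
      ≤ (2 * lam) ^ t * (N * d ^ t : ℕ) := by
  have hN' : (0 : ℝ) < N := by exact_mod_cast hN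
  have hlam : 0 ≤ lam := by
    have : 0 ≤ lam * N := le_trans (by positivity) (hS 0 (by omega))
    exact nonneg_of_mul_nonneg_left this hN'
  have h1 : (#{w ∈ range (N * d ^ t) | ∀ τ ≤ t, pos nb d τ (w % N) (w / N) ∈ S τ} : ℝ)
      = ∑ v ∈ range N, (wcount nb d t S v : ℝ) := by
    simp only [wcount, card_filter]
    push_cast
    exact sum_range_mul_divmod N (d ^ t)
      fun v w => if ∀ τ ≤ t, pos nb d τ v w ∈ S τ then (1 : ℝ) else 0
  rw [h1]
  refine (pow_le_pow_iff_left₀ (sum_nonneg fun _ _ => by positivity) (by positivity)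
    two_ne_zero).1 ?_
  refine sq_sum_le_card_mul_sum_sq.trans ?_
  rw [card_range]
  refine (mul_le_mul_of_nonneg_left (h.wcount_sq hN t S hS) hN'.le).trans (le_of_eq ?_)
  push_cast
  ring

end Pool.Agent.Lib.MP_4d0379_lc
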