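import Pool.Agent.Lib.MP_4d0379_lc.Rep
import Pool.Agent.Lib.MP_4d0379_lc.Walk
import Pool.Agent.Lib.Complexity.CookLevin

/-! The clause versus variable game of a formula. -/

set_option linter.unusedSectionVars false

namespace Pool.Agent.Lib.MP_4d0379_lc

open Finset Pool.Agent.Lib.Complexity
open scoped BigOperators

/-- the literal at a position -/
def lit (q : ℕ) (φ : CNF) (o : ℕ) : ℕ × Bool :=
  (φ.getD (o / q) []).getD (o % q) ((φ.getD (o / q) []).headD (0, true))

/-- the positions of a variable -/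
def occs (q : ℕ) (φ : CNF) (x : ℕ) : List ℕ :=
  (List.range (φ.length * q)).filter fun o => decide ((lit q φ o).1 = x)

def onb (q : ℕ) (φ : CNF) (x i : ℕ) : ℕ := (occs q φ x).getD (i % (occs q φ x).length) 0

/-- the value of a variable read off the truth values of the literals of a clause -/
def proj {q : ℕ} (s : Fin q × Bool) (b : Fin q → Bool) : Bool :=
  if b s.1 = true ∨ ∀ p, b p = false then s.2 else !s.2

def slot {q : ℕ} (hq : 0 < q) (φ : CNF) (o : ℕ) : Fin q × Bool :=
  (⟨o % q, Nat.mod_lt _ hq⟩, (lit q φ o).2)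

variable {q : ℕ} {φ : CNF}

theorem lit_mem (h : ∀ c ∈ φ, c ≠ []) {o : ℕ} (ho : o / q < φ.length) :
    lit q φ o ∈ φ[o / q] := by
  unfold lit
  rw [List.getD_eq_getElem _ _ ho]
  have h1 := h _ (List.getElem_mem ho)
  generalize φ[o / q] = c at h1
  by_cases h2 : o % q < c.length
  · rw [List.getD_eq_getElem _ _ h2]; exact List.getElem_mem h2
  · rw [List.getD_eq_default _ _ (not_lt.1 h2)]
    cases c with
    | nil => exact absurd rfl h1
    | cons a l => simp

theorem mem_occs {x o : ℕ} : o ∈ occs q φ x ↔ o < φ.length * q ∧ (lit q φ o).1 = x := by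
  simp [occs]

theorem occs_pos {ω : ℕ} (h : ω < φ.length * q) : 0 < (occs q φ (lit q φ ω).1).length :=
  List.length_pos_of_mem (mem_occs.2 ⟨h, rfl⟩)

theorem onb_mem {x : ℕ} (h : 0 < (occs q φ x).length) (i : ℕ) : onb q φ x i ∈ occs q φ x := by
  unfold onb
  rw [List.getD_eq_getElem _ _ (Nat.mod_lt _ h)]
  exact List.getElem_mem _

theorem base_complete (hq : 0 < q) (h : ∀ c ∈ φ, c.length ≤ q) {s : ℕ → Bool} (hs : φ.Sat s)
    {ω : ℕ} (hω : ω < φ.length * q) (i : ℕ) :
    proj (slot hq φ (onb q φ (lit q φ ω).1 i)) (fun p =>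
      decide (s (lit q φ (q * (onb q φ (lit q φ ω).1 i / q) + p)).1
        = (lit q φ (q * (onb q φ (lit q φ ω).1 i / q) + p)).2)) = s (lit q φ ω).1 := by
  obtain ⟨h1, h2⟩ := mem_occs.1 (onb_mem (occs_pos hω) i)
  generalize onb q φ (lit q φ ω).1 i = o at h1 h2
  have h3 : o / q < φ.length := (Nat.div_lt_iff_lt_mul hq).2 h1
  obtain ⟨l, hl, h4⟩ := hs _ (List.getElem_mem h3)
  obtain ⟨p, hp, rfl⟩ := List.getElem_of_mem hl
  have hpq : p < q := hp.trans_le (h _ (List.getElem_mem h3))
  have h5 : lit q φ (q * (o / q) + p) = φ[o / q][p] := by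
    unfold lit
    rw [Nat.mul_add_div hq, Nat.div_eq_of_lt hpq, add_zero, Nat.mul_add_mod, Nat.mod_eq_of_lt hpq,
      List.getD_eq_getElem _ _ h3, List.getD_eq_getElem _ _ hp]
  unfold proj slot
  simp only [Nat.div_add_mod, h2, decide_eq_true_eq, decide_eq_false_iff_not]
  have h6 : ¬ ∀ p' : Fin q, ¬ s (lit q φ (q * (o / q) + p')).1 = (lit q φ (q * (o / q) + p')).2 :=
    fun h7 => h7 ⟨p, hpq⟩ (by simp only [h5]; exact h4)
  simp only [h6, or_false]
  cases s (lit q φ ω).1 <;> cases (lit q φ o).2 <;> simp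

theorem sum_getD_mod (l : List ℕ) (hl : 0 < l.length) {D : ℕ} (hD : l.length ≤ D) (F : ℕ → ℝ)
    (hF : ∀ o, 0 ≤ F o) :
    (l.map F).sum / (2 * l.length) ≤ 𝔼 i : Fin D, F (l.getD (i % l.length) 0) := by
  have hl' : (0 : ℝ) < l.length := by exact_mod_cast hl
  have hD' : (0 : ℝ) < D := by exact_mod_cast hl.trans_le hD
  rw [Fintype.expect_eq_sum_div_card, Fintype.card_fin,
    Fin.sum_univ_eq_sum_range fun i => F (l.getD (i % l.length) 0),
    div_le_div_iff₀ (by positivity) hD']
  have h1 : ∑ j ∈ range l.length, F (l.getD j 0) = (l.map F).sum := by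
    rw [← Fin.sum_univ_eq_sum_range fun j => F (l.getD j 0), ← Fin.sum_univ_fun_getElem]
    exact sum_congr rfl fun j _ => by rw [List.getD_eq_getElem _ _ j.2]
  have h2 : (D / l.length : ℕ) * (l.map F).sum ≤ ∑ i ∈ range D, F (l.getD (i % l.length) 0) := by
    calc _ = ∑ i ∈ range (l.length * (D / l.length)), F (l.getD (i % l.length) 0) := by
          rw [sum_range_mul_divmod l.length (D / l.length) fun j _ => F (l.getD j 0), ← h1, mul_sum]
          simp
      _ ≤ _ := sum_le_sum_of_subset_of_nonneg (range_mono (Nat.mul_div_le _ _)) fun _ _ _ => hF _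
  have h3 : (D : ℝ) ≤ (D / l.length : ℕ) * (2 * l.length) := by
    have h4 := Nat.div_add_mod D l.length
    have h5 := Nat.mod_lt D hl
    have h6 : 1 ≤ D / l.length := (Nat.one_le_div_iff hl).2 hD
    have : D ≤ D / l.length * (2 * l.length) := by nlinarith
    exact_mod_cast this
  have h4 : 0 ≤ (l.map F).sum := by rw [← h1]; exact sum_nonneg fun _ _ => hF _
  nlinarith [mul_le_mul_of_nonneg_left h3 h4, mul_le_mul_of_nonneg_right h2 hl'.le]

theorem sum_occs (x : ℕ) (F : ℕ → ℝ) : ((occs q φ x).map F).sum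
    = ∑ o ∈ range (φ.length * q), if (lit q φ o).1 = x then F o else 0 := by
  rw [← sum_filter, occs, ← List.sum_toFinset _ (List.nodup_range.filter _)]
  congr 1
  ext o
  simp

theorem countP_eq_sum {γ : Type} (l : List γ) (P : γ → Bool) :
    (l.countP P : ℝ) = ∑ i : Fin l.length, if P l[i.1] = true then 1 else 0 := by
  rw [Fin.sum_univ_fun_getElem l fun c => if P c = true then (1 : ℝ) else 0]
  induction l with
  | nil => simp
  | cons a l ih =>
    rw [List.countP_cons, List.map_cons, List.sum_cons, ← ih]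
    split_ifs <;> simp [add_comm]

theorem sum_proj_le (hq : 0 < q) (b : Fin q → Bool) (g : Fin q → Bool) :
    ∑ t, (if proj (t, g t) b = !g t then (1 : ℝ) else 0) ≤ q - 1 := by
  obtain ⟨t0, h0⟩ : ∃ t0, b t0 = true ∨ ∀ p, b p = false := by
    by_cases h : ∀ p, b p = false
    · exact ⟨⟨0, hq⟩, Or.inr h⟩
    · push Not at h
      obtain ⟨t, ht⟩ := h
      exact ⟨t, Or.inl (by simpa using ht)⟩
  rw [← sum_erase_add _ _ (mem_univ t0), if_neg (by simp [proj, h0]), add_zero]
  calc _ ≤ ∑ t ∈ univ.erase t0, (1 : ℝ) := sum_le_sum fun t _ => by split_ifs <;> norm_num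
    _ = _ := by simp [Nat.cast_sub hq]

theorem base_sound (hq : 0 < q) (hne : φ ≠ []) (h : ∀ c ∈ φ, c ≠ []) {ε : ℝ}
    (hs : ∀ s : ℕ → Bool, ε * φ.length ≤ φ.countP fun c => c.all fun l => s l.1 != l.2) :
    Sound (fun (ω i : Fin (φ.length * q)) => onb q φ (lit q φ ω).1 i / q)
      (fun ω i => proj (slot hq φ (onb q φ (lit q φ ω).1 i))) (1 - ε / (2 * q)) := by
  intro p r hp hr
  have hm : 0 < φ.length := List.length_pos_iff.2 hne
  have hM : 0 < φ.length * q := Nat.mul_pos hm hq
  have : Nonempty (Fin (φ.length * q)) := ⟨⟨0, hM⟩⟩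
  let w : ℕ → Bool → ℝ := fun o t => ∑ b, if proj (slot hq φ o) b = t then p (o / q) b else 0
  let W : ℕ → Bool → ℝ := fun x t => 𝔼 i : Fin (φ.length * q), w (onb q φ x i) t
  let s : ℕ → Bool := fun x => decide (W x false ≤ W x true)
  have hw0 : ∀ o t, 0 ≤ w o t := fun o t =>
    sum_nonneg fun b _ => by split_ifs; exacts [hp.1 _ _, le_rfl]
  have hw1 : ∀ o t, w o t ≤ 1 := fun o t =>
    (sum_le_sum fun b _ => by split_ifs; exacts [le_rfl, hp.1 _ _]).trans (hp.2 (o / q))
  have hW : ∀ x t, W x t ≤ W x (s x) := fun x t => by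
    by_cases h1 : W x false ≤ W x true <;> cases t <;> simp only [s, h1, decide_true, decide_false,
      le_refl]
    exact (not_le.1 h1).le
  let loss : ℕ → ℝ := fun o => 1 - w o (s (lit q φ o).1)
  have hl0 : ∀ o, 0 ≤ loss o := fun o => sub_nonneg.2 (hw1 _ _)
  have h1 : ∀ ω : Fin (φ.length * q), 𝔼 i : Fin (φ.length * q),
      ∑ b, p (onb q φ (lit q φ ω).1 i / q) b * r ω (proj (slot hq φ (onb q φ (lit q φ ω).1 i)) b)
      ≤ 1 - ((occs q φ (lit q φ ω).1).map loss).sum / (2 * (occs q φ (lit q φ ω).1).length) := by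
    intro ω
    have h2 := sum_gop_mul (v := fun (ω i : Fin (φ.length * q)) => onb q φ (lit q φ ω).1 i / q)
      (π := fun ω i => proj (slot hq φ (onb q φ (lit q φ ω).1 i))) p ω (r ω)
    rw [← h2]
    have h3 := sum_getD_mod _ (occs_pos ω.2) (D := φ.length * q)
      ((List.length_filter_le _ _).trans (by simp)) loss hl0
    have h4 : 𝔼 i : Fin (φ.length * q), loss (onb q φ (lit q φ ω).1 i)
        = 1 - W (lit q φ ω).1 (s (lit q φ ω).1) := by
      simp only [loss, expect_sub_distrib, Fintype.expect_const, W,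
        fun i => (mem_occs.1 (onb_mem (occs_pos ω.2) i)).2]
    have h5 : ∑ t, W (lit q φ ω).1 t * r ω t ≤ W (lit q φ ω).1 (s (lit q φ ω).1) := by
      refine (sum_le_sum fun t _ => mul_le_mul_of_nonneg_right (hW _ t) (hr.1 _ _)).trans ?_
      rw [← mul_sum]
      exact mul_le_of_le_one_right (expect_nonneg fun _ _ => hw0 _ _) (hr.2 _)
    exact h5.trans (by linarith [h3.trans h4.le])
  refine (expect_le_expect fun ω _ => h1 ω).trans ?_
  rw [expect_sub_distrib, Fintype.expect_const, sub_le_sub_iff_left,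
    Fintype.expect_eq_sum_div_card, Fintype.card_fin, Fin.sum_univ_eq_sum_range fun ω =>
      ((occs q φ (lit q φ ω).1).map loss).sum / (2 * (occs q φ (lit q φ ω).1).length)]
  have h2 : ∑ ω ∈ range (φ.length * q), ((occs q φ (lit q φ ω).1).map loss).sum
      / (2 * (occs q φ (lit q φ ω).1).length) = (∑ o ∈ range (φ.length * q), loss o) / 2 := by
    simp only [sum_occs, sum_div]
    rw [sum_comm]
    refine sum_congr rfl fun o ho => ?_
    have h3 := sum_occs (q := q) (φ := φ) (lit q φ o).1 fun _ => 1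
    have h4 : (0 : ℝ) < (occs q φ (lit q φ o).1).length := by
      exact_mod_cast occs_pos (mem_range.1 ho)
    simp only [List.map_const', List.sum_replicate, nsmul_eq_mul, mul_one] at h3
    calc _ = ∑ ω ∈ range (φ.length * q), (if (lit q φ ω).1 = (lit q φ o).1 then (1 : ℝ) else 0)
          * (loss o / (2 * (occs q φ (lit q φ o).1).length)) := by
          refine sum_congr rfl fun ω _ => ?_
          by_cases h5 : (lit q φ ω).1 = (lit q φ o).1
          · simp [h5]
          · simp [h5, Ne.symm h5]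
      _ = _ := by rw [← sum_mul, ← h3]; field_simp
  have h3 : (φ.countP fun c => c.all fun l => s l.1 != l.2 : ℝ)
      ≤ ∑ o ∈ range (φ.length * q), loss o := by
    have e := sum_range_mul_divmod q φ.length fun t c => loss (q * c + t)
    simp only [Nat.div_add_mod] at e
    rw [mul_comm, e, sum_comm, ← Fin.sum_univ_eq_sum_range fun c => ∑ t ∈ range q, loss (q * c + t),
      countP_eq_sum]
    refine sum_le_sum fun c _ => ?_
    split_ifs with hc
    swap
    · exact sum_nonneg fun _ _ => hl0 _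
    have h4 : ∀ t : Fin q, loss (q * c + t) = 1 - ∑ b, p c b *
        if proj (t, (lit q φ (q * c + t)).2) b = !(lit q φ (q * c + t)).2 then 1 else 0 := by
      intro t
      have e1 : (q * c + t) / q = c := by
        rw [Nat.mul_add_div hq, Nat.div_eq_of_lt t.2, add_zero]
      have e2 : (q * c + t) % q = t := by rw [Nat.mul_add_mod, Nat.mod_eq_of_lt t.2]
      have h5 := lit_mem (q := q) h (o := q * c + t) (by rw [e1]; exact c.2)
      simp only [e1] at h5
      have h6 : s (lit q φ (q * c + t)).1 = !(lit q φ (q * c + t)).2 := by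
        simpa [Bool.eq_not] using List.all_eq_true.1 hc _ h5
      simp only [loss, w, slot, e1, e2, h6, mul_ite, mul_one, mul_zero]
    rw [← Fin.sum_univ_eq_sum_range fun t => loss (q * c + t)]
    simp only [h4, sum_sub_distrib, sum_const, card_univ, Fintype.card_fin, nsmul_eq_mul, mul_one]
    rw [sum_comm]
    simp only [← mul_sum]
    have h5 := (sum_le_sum fun b (_ : b ∈ univ) => mul_le_mul_of_nonneg_left
      (sum_proj_le hq b fun t => (lit q φ (q * c + t)).2) (hp.1 c b))
    rw [← sum_mul] at h5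
    have h6 : (1 : ℝ) ≤ q := by exact_mod_cast hq
    have h7 := mul_le_of_le_one_left (sub_nonneg.2 h6) (hp.2 c)
    linarith
  have h4 := (hs s).trans h3
  have hq' : (0 : ℝ) < q := by exact_mod_cast hq
  have hm' : (0 : ℝ) < φ.length := by exact_mod_cast hm
  rw [h2, div_le_div_iff₀ (by positivity) (by positivity)]
  push_cast
  nlinarith

end Pool.Agent.Lib.MP_4d0379_lc
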