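import Pool.Agent.Lib.MP_4d0379_lc.SumProd

/-! A condenser with a constant number of output rows. -/

set_option linter.unusedSectionVars false

namespace Pool.Agent.Lib.MP_4d0379_lc

open Finset

/-- the largest prime below `M` -/
def pp (M : ℕ) : ℕ := Nat.findGreatest Nat.Prime M

theorem pp_spec {M : ℕ} (hM : 2 ≤ M) : (pp M).Prime ∧ pp M ≤ M ∧ M ≤ 2 * pp M := by
  obtain ⟨p, hp, h1, h2⟩ := Nat.exists_prime_lt_and_le_two_mul (M / 2) (by omega)
  have h3 : p ≤ M := by omega
  have h4 := Nat.le_findGreatest h3 hp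
  exact ⟨Nat.findGreatest_spec h3 hp, Nat.findGreatest_le _, by unfold pp; omega⟩

/-- the four maps `a`, `b`, `c`, `a b + c` on base `p` digits -/
def cstep (p y u : ℕ) : ℕ :=
  if y = 0 then u % p else if y = 1 then u / p % p else if y = 2 then u / p / p % p
  else (u % p * (u / p % p) + u / p / p % p) % p

theorem cstep_lt {p : ℕ} (hp : 0 < p) (y u : ℕ) : cstep p y u < p := by
  unfold cstep
  split_ifs <;> exact Nat.mod_lt _ hp

def csz (M : ℕ) : ℕ → ℕ
  | 0 => M
  | l + 1 => pp (csz M l) ^ 3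

def cmap (M : ℕ) : ℕ → ℕ → ℕ → ℕ
  | 0, _, u => u
  | l + 1, y, u => cmap M l (y / 4) (cstep (pp (csz M l)) (y % 4) u)

theorem le_csz {M : ℕ} (hM : 2 ≤ M) (l : ℕ) : M ≤ csz M l := by
  induction l with
  | zero => exact le_rfl
  | succ l ih =>
    obtain ⟨h1, -, h3⟩ := pp_spec (hM.trans ih)
    have h4 := h1.two_le
    simp only [csz]
    nlinarith [Nat.mul_le_mul h4 h4]

theorem cmap_lt {M : ℕ} (hM : 2 ≤ M) (l y u : ℕ) (hu : u < csz M l) : cmap M l y u < M := by
  induction l generalizing y u with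
  | zero => exact hu
  | succ l ih =>
    obtain ⟨h1, h2, -⟩ := pp_spec (hM.trans (le_csz hM l))
    exact ih _ _ ((cstep_lt h1.pos _ _).trans_le h2)

theorem cstep_cond {p : ℕ} (hp : p.Prime) {α δ : ℝ} (hα : 0 < α) (h2 : 2 ≤ (p : ℝ) ^ (3 * α))
    (h1 : 9300 * α ≤ δ) (h3 : δ + 9301 * α < 1) (X : Finset ℕ) (hX : X ⊆ range (p ^ 3))
    (h : ((p : ℝ) ^ 3) ^ δ ≤ #X) : ∃ y < 4, (p : ℝ) ^ (δ + α) ≤ #(X.image (cstep p y)) := by
  have := Fact.mk hp
  by_contra hc
  push Not at hc
  have hp1 : (1 : ℝ) < p := by exact_mod_cast hp.one_lt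
  have hp0 : (0 : ℝ) < p := by linarith
  let S : ℕ → Finset (ZMod p) := fun y => (X.image (cstep p y)).image Nat.cast
  have hS : ∀ y < 4, (#(S y) : ℝ) ≤ (p : ℝ) ^ (δ + α) := fun y hy =>
    le_trans (Nat.cast_le.2 card_image_le) (hc y hy).le
  have hmem : ∀ u ∈ X, ∀ y, ((cstep p y u : ℕ) : ZMod p) ∈ S y := fun u hu y =>
    mem_image_of_mem _ (mem_image_of_mem _ hu)
  have hcard : #X ≤ #{q ∈ (S 0 ×ˢ S 1) ×ˢ S 2 | q.1.1 * q.1.2 + q.2 ∈ S 3} := by
    refine card_le_card_of_injOn
      (fun u => (((cstep p 0 u : ℕ), (cstep p 1 u : ℕ)), (cstep p 2 u : ℕ))) ?_ ?_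
    · intro u hu
      simp only [coe_filter, mem_product, Set.mem_ofPred_eq]
      refine ⟨⟨⟨hmem u hu 0, hmem u hu 1⟩, hmem u hu 2⟩, ?_⟩
      convert hmem u hu 3 using 1
      simp [cstep]
    · intro u hu u' hu' e
      simp only [Prod.mk.injEq] at e
      have inj : ∀ y, ((cstep p y u : ℕ) : ZMod p) = (cstep p y u' : ℕ) →
          cstep p y u = cstep p y u' := fun y h => by
        have := congrArg ZMod.val h
        rwa [ZMod.val_cast_of_lt (cstep_lt hp.pos _ _), ZMod.val_cast_of_lt (cstep_lt hp.pos _ _)]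
          at this
      have e0 := inj 0 e.1.1
      have e1 := inj 1 e.1.2
      have e2 := inj 2 e.2
      simp only [cstep] at e0 e1 e2
      norm_num at e0 e1 e2
      have lt : ∀ v ∈ X, v / p / p < p := fun v hv => by
        rw [Nat.div_div_eq_div_mul, Nat.div_lt_iff_lt_mul (Nat.mul_pos hp.pos hp.pos)]
        have := mem_range.1 (hX hv)
        nlinarith
      rw [Nat.mod_eq_of_lt (lt u hu), Nat.mod_eq_of_lt (lt u' hu')] at e2
      have e3 : u / p = u' / p := by
        rw [← Nat.div_add_mod (u / p) p, e1, e2, Nat.div_add_mod]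
      rw [← Nat.div_add_mod u p, e0, e3, Nat.div_add_mod]
  have hL : ((p : ℝ) ^ (3 * α)) ^ 3100 = (p : ℝ) ^ (9300 * α) := by
    rw [← Real.rpow_natCast, ← Real.rpow_mul hp0.le]
    congr 1
    push_cast
    ring
  have := sumprod (S 0) (S 1) (S 2) (S 3) (Real.rpow_pos_of_pos hp0 (δ + α)) h2
    (hS 0 (by norm_num)) (hS 1 (by norm_num)) (hS 2 (by norm_num)) (hS 3 (by norm_num)) (by
      calc ((p : ℝ) ^ (δ + α)) ^ 3 = (p : ℝ) ^ (3 * α) * ((p : ℝ) ^ 3) ^ δ := by
            rw [← Real.rpow_natCast, ← Real.rpow_natCast (p : ℝ) 3, ← Real.rpow_mul hp0.le,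
              ← Real.rpow_mul hp0.le, ← Real.rpow_add hp0]
            congr 1
            push_cast
            ring
        _ ≤ _ := mul_le_mul_of_nonneg_left (h.trans (Nat.cast_le.2 hcard)) (by positivity))
  rw [hL] at this
  rcases this with h4 | h4
  · rw [Real.rpow_le_rpow_left_iff hp1] at h4
    linarith
  · rw [← Real.rpow_add hp0] at h4
    conv_lhs at h4 => rw [← Real.rpow_one (p : ℝ)]
    rw [Real.rpow_le_rpow_left_iff hp1] at h4
    linarith

theorem cmap_cond {M : ℕ} (hM : 2 ≤ M) {α γ : ℝ} (hα : 0 < α) (hγ : 9301 * α < γ)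
    (h2 : 2 ≤ ((M : ℝ) / 2) ^ (α / 2)) (l : ℕ) : ∀ {δ : ℝ} (_ : 9300 * α ≤ δ) (_ : δ ≤ 1 - γ)
    (X : Finset ℕ) (_ : X ⊆ range (csz M l)) (_ : (csz M l : ℝ) ^ δ ≤ #X),
    ∃ y < 4 ^ l, (M : ℝ) ^ (min (δ + l * (α / 2)) (1 - γ)) ≤ #(X.image (cmap M l y)) := by
  have hM1 : (1 : ℝ) ≤ M := by exact_mod_cast (by omega : 1 ≤ M)
  induction l with
  | zero =>
    intro δ h1 h3 X hX h
    refine ⟨0, by norm_num, ?_⟩
    have : cmap M 0 0 = id := rfl
    rw [this, image_id]
    simpa [min_eq_left h3, csz] using h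
  | succ l ih =>
    intro δ h1 h3 X hX h
    have hle := le_csz hM l
    obtain ⟨hp, h4, h5⟩ := pp_spec (hM.trans hle)
    set p := pp (csz M l) with hpdef
    have hp1 : (1 : ℝ) ≤ p := by exact_mod_cast hp.one_lt.le
    have h6 : 2 ≤ (p : ℝ) ^ (α / 2) := by
      refine h2.trans (Real.rpow_le_rpow (by positivity) ?_ (by positivity))
      have : (M : ℝ) ≤ 2 * p := by exact_mod_cast hle.trans h5
      linarith
    obtain ⟨y0, hy0, h7⟩ := cstep_cond hp hα
      (h6.trans (Real.rpow_le_rpow_of_exponent_le hp1 (by linarith))) h1 (by linarith) X hX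
      (by simpa [csz] using h)
    obtain ⟨y, hy, h8⟩ := ih (δ := min (δ + α / 2) (1 - γ)) (le_min (by linarith) (by linarith))
      (min_le_right _ _) (X.image (cstep p y0)) (by
        intro u hu
        obtain ⟨v, -, rfl⟩ := mem_image.1 hu
        exact mem_range.2 ((cstep_lt hp.pos _ _).trans_le h4)) (by
        refine le_trans ?_ h7
        have h9 : 0 ≤ min (δ + α / 2) (1 - γ) := le_min (by linarith) (by linarith)
        calc (csz M l : ℝ) ^ min (δ + α / 2) (1 - γ)
            ≤ (2 * p : ℝ) ^ min (δ + α / 2) (1 - γ) :=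
              Real.rpow_le_rpow (by positivity) (by exact_mod_cast h5) h9
          _ = 2 ^ min (δ + α / 2) (1 - γ) * (p : ℝ) ^ min (δ + α / 2) (1 - γ) :=
              Real.mul_rpow (by norm_num) (by positivity)
          _ ≤ (p : ℝ) ^ (α / 2) * (p : ℝ) ^ (δ + α / 2) := by
              refine mul_le_mul (le_trans ?_ h6)
                (Real.rpow_le_rpow_of_exponent_le hp1 (min_le_left _ _)) (by positivity)
                (by positivity)
              conv_rhs => rw [← Real.rpow_one 2]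
              exact Real.rpow_le_rpow_of_exponent_le (by norm_num)
                ((min_le_right _ _).trans (by linarith))
          _ = _ := by
              rw [← Real.rpow_add (by positivity)]
              congr 1
              ring)
    refine ⟨4 * y + y0, by rw [pow_succ]; omega, ?_⟩
    have e : X.image (cmap M (l + 1) (4 * y + y0)) = (X.image (cstep p y0)).image (cmap M l y) := by
      rw [image_image]
      congr 1
      funext u
      simp only [cmap, Function.comp]
      rw [show (4 * y + y0) / 4 = y by omega, show (4 * y + y0) % 4 = y0 by omega]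
    rw [e]
    refine le_trans (Real.rpow_le_rpow_of_exponent_le hM1 ?_) h8
    refine le_min ?_ (min_le_right _ _)
    have hl : 0 ≤ (l : ℝ) * (α / 2) := by positivity
    rcases le_total (δ + α / 2) (1 - γ) with h9 | h9
    · rw [min_eq_left h9]
      refine (min_le_left _ _).trans (le_of_eq ?_)
      push_cast
      ring
    · rw [min_eq_right h9]
      exact (min_le_right _ _).trans (by linarith)

/-- the condenser -/
theorem condenser (m e : ℕ) : ∃ l M0 : ℕ, 2 ≤ M0 ∧ ∀ M, M0 ≤ M → ∀ X : Finset ℕ,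
    X ⊆ range (csz M l) → csz M l ≤ #X ^ m →
      ∃ y < 4 ^ l, M ^ e < #(X.image (cmap M l y)) ^ (e + 1) := by
  set α : ℝ := 1 / (20000 * (m + 1) * (e + 1)) with hα
  have hα0 : 0 < α := by positivity
  obtain ⟨M1, hM1⟩ : ∃ M1 : ℕ, ∀ M : ℕ, M1 ≤ M → 2 ≤ ((M : ℝ) / 2) ^ (α / 2) := by
    refine ⟨⌈2 * (2 : ℝ) ^ (2 / α)⌉₊, fun M hM => ?_⟩
    have h1 : (2 : ℝ) ^ (2 / α) ≤ M / 2 := by
      have := (Nat.le_ceil _).trans (Nat.cast_le.2 hM)
      linarith
    refine le_trans (le_of_eq ?_) (Real.rpow_le_rpow (by positivity) h1 (by positivity))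
    rw [← Real.rpow_mul (by norm_num)]
    have : 2 / α * (α / 2) = 1 := by field_simp
    rw [this, Real.rpow_one]
  obtain ⟨l, hl⟩ : ∃ l : ℕ, (l : ℝ) * (α / 2) = 1 :=
    ⟨40000 * (m + 1) * (e + 1), by rw [hα]; push_cast; field_simp; norm_num⟩
  refine ⟨l, max M1 2, le_max_right _ _, fun M hM X hX h => ?_⟩
  have hM2 : 2 ≤ M := (le_max_right _ _).trans hM
  have hm : (0 : ℝ) ≤ m := by positivity
  have he : (0 : ℝ) ≤ e := by positivity
  obtain ⟨y, hy, h1⟩ := cmap_cond hM2 hα0 (γ := 1 / (2 * (e + 1))) (by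
      rw [hα, mul_one_div, div_lt_div_iff₀ (by positivity) (by positivity)]
      nlinarith [mul_nonneg hm he])
    (hM1 M ((le_max_left _ _).trans hM)) l (δ := 1 / (2 * (m + 1))) (by
      rw [hα, mul_one_div, div_le_div_iff₀ (by positivity) (by positivity)]
      nlinarith [mul_nonneg hm he]) (by
      have h2 : 1 / (2 * ((m : ℝ) + 1)) ≤ 1 / 2 :=
        one_div_le_one_div_of_le (by norm_num) (by linarith)
      have h3 : 1 / (2 * ((e : ℝ) + 1)) ≤ 1 / 2 :=
        one_div_le_one_div_of_le (by norm_num) (by linarith)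
      linarith) X hX (by
      have hX1 : (1 : ℝ) ≤ #X := by
        rcases Nat.eq_zero_or_pos #X with h0 | h0
        · rcases Nat.eq_zero_or_pos m with rfl | hm0
          · have := hM2.trans (le_csz hM2 l)
            simp only [pow_zero] at h
            omega
          · rw [h0, zero_pow hm0.ne'] at h
            have := hM2.trans (le_csz hM2 l)
            omega
        · exact_mod_cast h0
      calc _ ≤ ((#X : ℝ) ^ m) ^ (1 / (2 * ((m : ℝ) + 1))) :=
            Real.rpow_le_rpow (by positivity) (by exact_mod_cast h) (by positivity)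
        _ ≤ (#X : ℝ) ^ (1 : ℝ) := by
            rw [← Real.rpow_natCast, ← Real.rpow_mul (by positivity)]
            refine Real.rpow_le_rpow_of_exponent_le hX1 ?_
            rw [mul_one_div, div_le_one (by positivity)]
            linarith
        _ = _ := Real.rpow_one _)
  refine ⟨y, hy, ?_⟩
  rw [min_eq_right (by
    rw [hl]
    have : 0 < 1 / (2 * ((m : ℝ) + 1)) := by positivity
    have : 0 < 1 / (2 * ((e : ℝ) + 1)) := by positivity
    linarith)] at h1
  have hM1' : (1 : ℝ) < M := by exact_mod_cast (by omega : 1 < M)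
  have h2 : (M : ℝ) ^ e < ((M : ℝ) ^ (1 - 1 / (2 * ((e : ℝ) + 1)))) ^ (e + 1) := by
    rw [← Real.rpow_natCast, ← Real.rpow_natCast, ← Real.rpow_mul (by positivity),
      Real.rpow_lt_rpow_left_iff hM1']
    push_cast
    have : (1 - 1 / (2 * ((e : ℝ) + 1))) * (e + 1) = e + 1 / 2 := by field_simp; ring
    linarith
  exact_mod_cast h2.trans_le (pow_le_pow_left₀ (by positivity) h1 _)

end Pool.Agent.Lib.MP_4d0379_lc
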