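import Mathlib

/-! Continuous graphs and colourings of ball covers (definitions as for problem ffa969). -/

namespace Pool.Agent.Lib.MP_4d0379_lc

open scoped ENNReal

variable {V : Type} [DecidableEq V]

/-- Barycentric coordinates of the point of the unit edge `uv` at distance `a` from `u`. -/
def edgePt (u v : V) (a : ℝ) : V → ℝ := Pi.single u (1 - a) + Pi.single v a

/-- The points of the continuous graph of `G` (in barycentric coordinates): the vertices and the
interior points of the edges. -/
def Pt (G : SimpleGraph V) : Type :=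
  {p : V → ℝ // (∃ v, p = Pi.single v 1) ∨
    ∃ u v a, G.Adj u v ∧ 0 < a ∧ a < 1 ∧ p = edgePt u v a}

/-- `Route G p q ℓ`: there is a path of length `ℓ` from `p` to `q` in the continuous graph, made
of finitely many segments each running inside one closed edge. -/
inductive Route (G : SimpleGraph V) : Pt G → Pt G → ℝ → Prop
  | refl (p : Pt G) : Route G p p 0
  | step {p q r : Pt G} {ℓ : ℝ} (u v : V) (a b : ℝ) : Route G p q ℓ → G.Adj u v →
      a ∈ Set.Icc (0 : ℝ) 1 → b ∈ Set.Icc (0 : ℝ) 1 → q.1 = edgePt u v a → r.1 = edgePt u v b →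
      Route G p r (ℓ + |a - b|)

/-- The shortest-path distance in the continuous graph (`∞` between different components). -/
noncomputable def gdist (G : SimpleGraph V) (p q : Pt G) : ℝ≥0∞ :=
  ⨅ (ℓ : ℝ) (_ : Route G p q ℓ), ENNReal.ofReal ℓ

/-- The closed ball of radius `1/2` around `p` in the continuous graph. -/
def gball (G : SimpleGraph V) (p : Pt G) : Set (Pt G) :=
  {q | gdist G p q ≤ ENNReal.ofReal (1 / 2)}

/-- The continuous graph of `G` is `(1/2, c)`-colourable: some set of balls of radius `1/2` covers
it and has a colouring with `c` colours in which distinct intersecting balls differ. -/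
def HalfColourable (G : SimpleGraph V) (c : ℕ) : Prop :=
  ∃ (𝓑 : Set (Set (Pt G))) (f : 𝓑 → Fin c),
    (∀ B ∈ 𝓑, ∃ p, B = gball G p) ∧ ⋃₀ 𝓑 = Set.univ ∧
    ∀ B B' : 𝓑, B ≠ B' → (B.1 ∩ B'.1).Nonempty → f B ≠ f B'

end Pool.Agent.Lib.MP_4d0379_lc
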