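import Pool.Agent.Lib.MP_4d0379_lc.Cond
import Pool.Agent.Lib.MP_4d0379_lc.Walk
import Pool.Agent.Lib.Complexity.CookLevin

/-! An explicit disperser of linear degree. -/

set_option linter.unusedSectionVars false

namespace Pool.Agent.Lib.MP_4d0379_lc

open Finset Pool.Agent.Lib.Complexity

/-- an explicit family of constant degree expanders -/
def ExpFam (d : ℕ) (lam : ℝ) : Prop :=
  ∃ (N0 : ℕ → ℕ) (nb : ℕ → ℕ → ℕ → ℕ), PT N0 ∧ PT (fun x : ℕ × ℕ × ℕ => nb x.1 x.2.1 x.2.2) ∧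
    ∀ N, N < N0 N ∧ IsExp (N0 N) d (nb N) lam

theorem IsExp.congr {N d : ℕ} {nb nb' : ℕ → ℕ → ℕ} {lam : ℝ} (h : IsExp N d nb lam)
    (e : ∀ v < N, ∀ i, nb' v i = nb v i) : IsExp N d nb' lam := by
  refine ⟨fun v hv i hi => by rw [e v hv]; exact h.lt v hv i hi, fun f => ?_, fun f hf => ?_⟩
  · rw [← h.reg f]
    exact sum_congr rfl fun v hv => by simp only [e v (mem_range.1 hv)]
  · refine le_trans (le_of_eq ?_) (h.spec f hf)
    exact sum_congr rfl fun v hv => by simp only [e v (mem_range.1 hv)]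

theorem pt_pos {α : Type} [Enc α] {N0 : α → ℕ} {nb : α → ℕ → ℕ → ℕ} {d : ℕ} {t v w : α → ℕ}
    (hN0 : PT N0) (hnb : PT fun x : α × ℕ × ℕ => nb x.1 x.2.1 x.2.2) (ht : PT t) (hv : PT v)
    (hw : PT w) (hlt : ∀ a, ∀ v < N0 a, ∀ i < d, nb a v i < N0 a) (hd : 0 < d)
    (hv0 : ∀ a, v a < N0 a) : PT fun a => pos (nb a) d (t a) (v a) (w a) := by
  refine (PT.iterate (step := fun a => wstep (nb a) d) ht (hv.prodMk hw)
    (by unfold wstep; fun_prop) (B := fun a => N0 a + w a + 1)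
    ((hN0.pb_nat.add hw.pb_nat).add (PB.const 1)) fun a i _ => ?_).fst
  have : ∀ i (s : ℕ × ℕ), ((wstep (nb a) d)^[i] s).2 ≤ s.2 := by
    intro i
    induction i with
    | zero => intro s; exact le_rfl
    | succ i ih => intro s; exact (ih _).trans (Nat.div_le_self _ _)
  have h1 := this i (v a, w a)
  have h2 := pos_lt hd (hlt a) i (v a) (hv0 a) (w a)
  rw [sz_prod, sz_nat, sz_nat]
  unfold pos at h2
  simp only at h1
  omega

theorem ExpFam.pow {d : ℕ} {lam : ℝ} (h : ExpFam d lam) (hd : 0 < d) (c : ℕ) :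
    ExpFam (d ^ c) (lam ^ c) := by
  obtain ⟨N0, nb, h1, h2, h3⟩ := h
  refine ⟨N0, fun N v i => pos (nb N) d c (v % N0 N) i, h1, ?_, fun N => ⟨(h3 N).1,
    ((h3 N).2.pow hd c).congr fun v hv i => by simp only [Nat.mod_eq_of_lt hv]⟩⟩
  exact pt_pos (N0 := fun x : ℕ × ℕ × ℕ => N0 x.1) (nb := fun x => nb x.1) (by fun_prop)
    (by fun_prop) (by fun_prop) (by fun_prop) (by fun_prop) (fun a => (h3 a.1).2.lt) hd
    fun a => Nat.mod_lt _ (by have := (h3 a.1).1; omega)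

theorem ExpFam.mono {d : ℕ} {lam lam' : ℝ} (h : ExpFam d lam) (h0 : 0 ≤ lam) (h1 : lam ≤ lam') :
    ExpFam d lam' :=
  let ⟨N0, nb, h2, h3, h4⟩ := h
  ⟨N0, nb, h2, h3, fun N => ⟨(h4 N).1, (h4 N).2.mono h0 h1⟩⟩

theorem ExpFam.boost {d : ℕ} {lam : ℝ} (h : ExpFam d lam) (hd : 2 ≤ d) (h0 : 0 ≤ lam)
    (h1 : lam < 1) : ∃ d', 2 ≤ d' ∧ ExpFam d' (1 / 4) := by
  obtain ⟨c, hc⟩ := exists_pow_lt_of_lt_one (by norm_num : (0 : ℝ) < 1 / 4) h1
  refine ⟨d ^ (c + 1), hd.trans (Nat.le_self_pow (by omega) _),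
    (h.pow (by omega) (c + 1)).mono (by positivity) ?_⟩
  rw [pow_succ]
  nlinarith [pow_nonneg h0 c]

theorem pp_eq (M : ℕ) : pp M = ((List.range (M + 1)).filter fun p =>
    decide (2 ≤ p ∧ ∀ q ∈ List.range p, q < 2 ∨ p % q ≠ 0)).getLast?.getD 0 := by
  have e : ∀ p, (2 ≤ p ∧ ∀ q ∈ List.range p, q < 2 ∨ p % q ≠ 0) ↔ p.Prime := by
    intro p
    rw [Nat.prime_def_lt']
    refine and_congr_right fun _ => forall_congr' fun q => ?_
    rw [List.mem_range, Nat.dvd_iff_mod_eq_zero]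
    omega
  simp only [e]
  unfold pp
  induction M with
  | zero => simp [Nat.not_prime_zero]
  | succ M ih =>
    rw [Nat.findGreatest_succ, List.range_succ, List.filter_append]
    split_ifs with h
    · simp [h]
    · simpa [h] using ih

@[fun_prop] theorem pt_pp {α : Type} [Enc α] {f : α → ℕ} (hf : PT f) : PT fun a => pp (f a) := by
  simp only [pp_eq]
  fun_prop

@[fun_prop] theorem pt_csz {α : Type} [Enc α] {f : α → ℕ} (hf : PT f) (l : ℕ) :
    PT fun a => csz (f a) l := by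
  induction l with
  | zero => exact hf
  | succ l ih => simp only [csz]; fun_prop

@[fun_prop] theorem pt_cstep {α : Type} [Enc α] {p y u : α → ℕ} (hp : PT p) (hy : PT y)
    (hu : PT u) : PT fun a => cstep (p a) (y a) (u a) := by
  unfold cstep
  fun_prop

@[fun_prop] theorem pt_cmap {α : Type} [Enc α] {f : α → ℕ} (hf : PT f) (l : ℕ) :
    ∀ {y u : α → ℕ}, PT y → PT u → PT fun a => cmap (f a) l (y a) (u a) := by
  induction l with
  | zero => intro y u _ hu; exact hu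
  | succ l ih =>
    intro y u hy hu
    simp only [cmap]
    exact ih (by fun_prop) (by fun_prop)

@[fun_prop] theorem pt_size {α : Type} [Enc α] {f : α → ℕ} (hf : PT f) :
    PT fun a => (f a).size :=
  (PT.length (PTB.of_unary hf)).of_eq fun _ => Nat.size_eq_bits_len _

theorem two_pow_size_le (n : ℕ) : 2 ^ n.size ≤ 2 * n + 1 := by
  rcases h : n.size with _ | k
  · simp
  · have : 2 ^ k ≤ n := Nat.lt_size.1 (by omega)
    rw [pow_succ]; omega

theorem pt_pow_size {α : Type} [Enc α] {f : α → ℕ} (hf : PT f) (D : ℕ) :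
    PT fun a => D ^ (f a).size := by
  refine PTB.to_unary (PTB.pow (PTB.const D) (pt_size hf))
    (((((PB.const 2).mul hf.pb_nat).add (PB.const 1)).pow D).mono fun a => ?_)
  calc D ^ (f a).size ≤ (2 ^ D) ^ (f a).size := Nat.pow_le_pow_left Nat.lt_two_pow_self.le _
    _ = (2 ^ (f a).size) ^ D := by rw [← pow_mul, ← pow_mul, mul_comm]
    _ ≤ _ := Nat.pow_le_pow_left (two_pow_size_le _) _

theorem card_mod_mem {N N1 : ℕ} (h : N ≤ N1) (A : Finset ℕ) :
    N * #{v ∈ range N1 | v % N ∈ A} ≤ 2 * N1 * #A := by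
  have h1 : #{v ∈ range N1 | v % N ∈ A} ≤ #(A ×ˢ range (N1 / N + 1)) := by
    refine card_le_card_of_injOn (fun v => (v % N, v / N)) ?_ ?_
    · intro v hv
      simp only [coe_filter, mem_range, Set.mem_ofPred_eq] at hv
      simp only [coe_product, coe_range, Set.mem_prod, mem_coe, Set.mem_Iio]
      exact ⟨hv.2, Nat.lt_succ_of_le (Nat.div_le_div_right hv.1.le)⟩
    · intro v _ v' _ e
      simp only [Prod.mk.injEq] at e
      rw [← Nat.div_add_mod v N, e.1, e.2, Nat.div_add_mod]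
  rw [card_product, card_range] at h1
  have h2 := Nat.mul_div_le N1 N
  calc _ ≤ N * (#A * (N1 / N + 1)) := Nat.mul_le_mul_left _ h1
    _ = (N * (N1 / N) + N) * #A := by ring
    _ ≤ _ := Nat.mul_le_mul_right _ (by omega)

/-- the disperser -/
theorem disperser {d : ℕ} (hd : 2 ≤ d) (hE : ExpFam d (1 / 4)) (m : ℕ) :
    ∃ C : ℕ, ∀ j, 1 ≤ j → ∀ n0 : ℕ, ∃ (n D : ℕ → ℕ) (Γ : ℕ → ℕ → ℕ → ℕ), PT n ∧ PT D ∧
      PT (fun x : ℕ × ℕ × ℕ => Γ x.1 x.2.1 x.2.2) ∧ ∀ N, 0 < N →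
        n0 ≤ n N ∧ 2 ^ (D N * j) ≤ n N ^ C ∧ (∀ u c, Γ N u c < N) ∧
        ∀ X : Finset ℕ, X ⊆ range (n N) →
          (∀ c < D N, 4 * 2 ^ j * #(X.image fun u => Γ N u c) ≤ N) → #X ^ m < n N := by
  obtain ⟨l, M0, hM0, hc⟩ := condenser m d
  refine ⟨2 * 4 ^ l, fun j hj n0 => ?_⟩
  obtain ⟨N0, nb, p1, p2, h3⟩ := (hE.pow (by omega) j).mono (by positivity)
    (lam' := 1 / (2 * 2 ^ j)) (by
      obtain ⟨i, rfl⟩ := Nat.exists_eq_add_of_le hj
      rw [one_div_pow]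
      refine one_div_le_one_div_of_le (by positivity) ?_
      have : (2 : ℝ) ^ i ≤ 4 ^ i := pow_le_pow_left₀ (by norm_num) (by norm_num) i
      rw [pow_add, pow_add]
      linarith)
  let N1 : ℕ → ℕ := fun N => N0 (N + M0 + n0)
  let M : ℕ → ℕ := fun N => N1 N * (d ^ j) ^ (N1 N).size
  have pN1 : PT N1 := by fun_prop
  have pM : PT M := pN1.mul (pt_pow_size pN1 _)
  have hN1 : ∀ N, N + M0 + n0 < N1 N := fun N => (h3 _).1
  have hdj : 0 < d ^ j := by positivity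
  refine ⟨fun N => csz (M N) l, fun N => 4 ^ l * ((N1 N).size + 1), fun N u c =>
    pos (nb (N + M0 + n0)) (d ^ j) (c / 4 ^ l) (cmap (M N) l (c % 4 ^ l) u % N1 N)
      (cmap (M N) l (c % 4 ^ l) u / N1 N) % N, by fun_prop, by fun_prop, ?_, fun N hN => ?_⟩
  · refine PT.mod ?_ (by fun_prop)
    exact pt_pos (N0 := fun x : ℕ × ℕ × ℕ => N1 x.1) (nb := fun x => nb (x.1 + M0 + n0))
      (by fun_prop) (by fun_prop) (by fun_prop) (by fun_prop) (by fun_prop)
      (fun a => (h3 _).2.lt) hdj fun a => Nat.mod_lt _ (by have := hN1 a.1; omega)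
  have h4 := hN1 N
  set t := (N1 N).size with ht
  have ht1 : 1 ≤ t := Nat.size_pos.2 (by omega)
  have h5 : N1 N ≤ M N := Nat.le_mul_of_pos_right _ (by positivity)
  have h6 : M N ≤ csz (M N) l := le_csz (by omega) l
  have h7 : 2 ^ (j * t) ≤ M N := by
    calc 2 ^ (j * t) ≤ d ^ (j * t) := Nat.pow_le_pow_left hd _
      _ = (d ^ j) ^ t := pow_mul _ _ _
      _ ≤ M N := Nat.le_mul_of_pos_left _ (by omega)
  refine ⟨by simp only; omega, ?_, fun u c => Nat.mod_lt _ hN, fun X hX h => ?_⟩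
  · calc 2 ^ (4 ^ l * (t + 1) * j) ≤ 2 ^ (j * t * (2 * 4 ^ l)) := by
          refine Nat.pow_le_pow_right (by norm_num) ?_
          have : 4 ^ l * j * (t + 1) ≤ 4 ^ l * j * (2 * t) := Nat.mul_le_mul_left _ (by omega)
          nlinarith
      _ ≤ _ := by rw [pow_mul]; exact Nat.pow_le_pow_left (h7.trans h6) _
  by_contra hcon
  obtain ⟨y, hy, h8⟩ := hc (M N) (by omega) X hX (not_lt.1 hcon)
  set Y := X.image (cmap (M N) l y) with hY
  have hN' : (0 : ℝ) < N := by exact_mod_cast hN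
  have h9 := (h3 (N + M0 + n0)).2.hitting (by omega : 0 < N1 N) t
    (fun τ => {v ∈ range (N1 N) | v % N ∈ X.image fun u =>
      pos (nb (N + M0 + n0)) (d ^ j) τ (cmap (M N) l y u % N1 N) (cmap (M N) l y u / N1 N) % N})
    (by
      intro τ hτ
      have h10 := h (4 ^ l * τ + y) (by simp only; nlinarith)
      simp only [Nat.mul_add_div (by positivity : 0 < 4 ^ l), Nat.div_eq_of_lt hy, add_zero,
        Nat.mul_add_mod, Nat.mod_eq_of_lt hy] at h10
      have h11 := card_mod_mem (by omega : N ≤ N1 N) (X.image fun u =>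
        pos (nb (N + M0 + n0)) (d ^ j) τ (cmap (M N) l y u % N1 N) (cmap (M N) l y u / N1 N) % N)
      rw [one_div, inv_mul_eq_div, le_div_iff₀ (by positivity)]
      have h12 := (Nat.mul_le_mul_left (2 * 2 ^ j) h11).trans
        (le_trans (le_of_eq (by ring)) (Nat.mul_le_mul_left (N1 N) h10))
      rw [← mul_assoc, mul_comm _ N, mul_assoc, mul_comm (N1 N)] at h12
      have h13 := Nat.le_of_mul_le_mul_left h12 hN
      rw [mul_comm]
      exact_mod_cast h13)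
  have h10 : (#Y : ℝ) ≤ (2 * (1 / (2 * 2 ^ j))) ^ t * (M N : ℕ) := by
    refine le_trans (Nat.cast_le.2 (card_le_card fun w hw => ?_)) h9
    obtain ⟨u, hu, rfl⟩ := mem_image.1 hw
    refine mem_filter.2 ⟨mem_range.2 (cmap_lt (by omega) l y u (mem_range.1 (hX hu))),
      fun τ _ => mem_filter.2 ⟨mem_range.2 ?_, mem_image.2 ⟨u, hu, rfl⟩⟩⟩
    exact pos_lt hdj (h3 _).2.lt τ _ (Nat.mod_lt _ (by omega : 0 < N1 N)) _
  have h11 : #Y * 2 ^ (j * t) ≤ M N := by
    have e : (2 * (1 / (2 * 2 ^ j)) : ℝ) ^ t = 1 / 2 ^ (j * t) := by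
      rw [pow_mul, ← one_div_pow]
      congr 1
      field_simp
    rw [e, one_div, inv_mul_eq_div, le_div_iff₀ (by positivity)] at h10
    exact_mod_cast h10
  have h12 : M N ≤ (2 ^ (j * t)) ^ (d + 1) := by
    calc M N ≤ 2 ^ t * ((2 ^ d) ^ j) ^ t := Nat.mul_le_mul (Nat.lt_size_self _).le
          (Nat.pow_le_pow_left (Nat.pow_le_pow_left Nat.lt_two_pow_self.le _) _)
      _ ≤ _ := by
        rw [← pow_mul, ← pow_mul, ← pow_mul, ← pow_add]
        exact Nat.pow_le_pow_right (by norm_num) (by nlinarith)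
  have h13 : #Y ^ (d + 1) * M N ≤ M N ^ d * M N := by
    calc _ ≤ #Y ^ (d + 1) * (2 ^ (j * t)) ^ (d + 1) := Nat.mul_le_mul_left _ h12
      _ = (#Y * 2 ^ (j * t)) ^ (d + 1) := (mul_pow _ _ _).symm
      _ ≤ M N ^ (d + 1) := Nat.pow_le_pow_left h11 _
      _ = _ := pow_succ _ _
  have := Nat.le_of_mul_le_mul_right h13 (by omega)
  omega

end Pool.Agent.Lib.MP_4d0379_lc
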