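import Mathlib

/-! Dependent random choice: a dense bipartite sum structure gives a set with small difference
set. -/

set_option linter.unusedSectionVars false

namespace Pool.Agent.Lib.MP_4d0379_lc

open Finset
open scoped Pointwise

section Drc

variable {F : Type} [AddCommGroup F] [DecidableEq F] {ι : Type} [DecidableEq ι]

/-- number of common neighbours -/
def cod (C D : Finset F) (w w' : F) : ℕ := #{c ∈ C | w + c ∈ D ∧ w' + c ∈ D}

theorem cod_comm (C D : Finset F) (w w' : F) : cod C D w w' = cod C D w' w := by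
  unfold cod
  simp only [and_comm]

theorem card_image_ge (U : Finset ι) (φ : ι → F) {K : ℝ}
    (hfib : ∀ w, (#{u ∈ U | φ u = w} : ℝ) ≤ K) {U' : Finset ι} (h : U' ⊆ U) :
    (#U' : ℝ) ≤ K * #(U'.image φ) := by
  rw [card_eq_sum_card_image φ U']
  push_cast
  calc ∑ w ∈ U'.image φ, (#{u ∈ U' | φ u = w} : ℝ) ≤ ∑ w ∈ U'.image φ, K := by
        refine sum_le_sum fun w _ => le_trans ?_ (hfib w)
        exact_mod_cast card_le_card (filter_subset_filter _ h)
    _ = K * #(U'.image φ) := by simp [mul_comm]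

/-- many representations give a small difference set -/
theorem card_sub_le_of_reps (C D W W' : Finset F) {K τ s : ℝ} (hD : (#D : ℝ) ≤ K) (hτ : 0 ≤ τ)
    (h : ∀ w ∈ W, ∀ w' ∈ W, s ≤ #{x ∈ W' | τ ≤ cod C D w x ∧ τ ≤ cod C D w' x}) :
    #(W - W) * (s * τ ^ 2) ≤ K ^ 4 := by
  classical
  set Q := (D ×ˢ D) ×ˢ (D ×ˢ D) with hQ
  let g : (F × F) × (F × F) → F := fun q => q.1.1 - q.1.2 + (q.2.1 - q.2.2)
  have h1 : ∀ z ∈ W - W, s * τ ^ 2 ≤ #{q ∈ Q | g q = z} := by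
    intro z hz
    obtain ⟨w, hw, w', hw', rfl⟩ := mem_sub.1 hz
    set X := {x ∈ W' | τ ≤ cod C D w x ∧ τ ≤ cod C D w' x} with hX
    let R : Finset (Σ _ : F, F × F) := X.sigma fun x =>
      {c ∈ C | w + c ∈ D ∧ x + c ∈ D} ×ˢ {c ∈ C | w' + c ∈ D ∧ x + c ∈ D}
    have hR : s * τ ^ 2 ≤ #R := by
      rw [card_sigma]
      push_cast
      calc s * τ ^ 2 ≤ #X * τ ^ 2 := mul_le_mul_of_nonneg_right (h w hw w' hw') (by positivity)
        _ = ∑ x ∈ X, τ * τ := by simp [sq]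
        _ ≤ _ := by
          refine sum_le_sum fun x hx => ?_
          rw [card_product]
          push_cast
          obtain ⟨-, h2, h3⟩ := mem_filter.1 hx
          exact mul_le_mul h2 h3 hτ (by positivity)
    refine hR.trans ?_
    have : #R ≤ #{q ∈ Q | g q = w - w'} := by
      refine card_le_card_of_injOn
        (fun r => ((w + r.2.1, r.1 + r.2.1), (r.1 + r.2.2, w' + r.2.2))) ?_ ?_
      · rintro ⟨x, c, c'⟩ hr
        simp only [R, coe_sigma, Set.mem_sigma_iff, mem_coe, mem_product, mem_filter] at hr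
        simp only [hQ, coe_filter, mem_product, Set.mem_ofPred_eq, g]
        refine ⟨⟨⟨hr.2.1.2.1, hr.2.1.2.2⟩, hr.2.2.2.2, hr.2.2.2.1⟩, by abel⟩
      · rintro ⟨x, c, c'⟩ _ ⟨y, d, d'⟩ _ e
        simp only [Prod.mk.injEq, add_right_inj] at e
        obtain ⟨⟨rfl, e2⟩, -, rfl⟩ := e
        obtain rfl : x = y := by simpa using e2
        rfl
    exact_mod_cast this
  have h2 : ∑ z ∈ W - W, (#{q ∈ Q | g q = z} : ℝ) ≤ #Q := by
    have := card_eq_sum_card_fiberwise (f := g) (s := {q ∈ Q | g q ∈ W - W}) (t := W - W)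
      (fun q hq => (mem_filter.1 hq).2)
    have h3 : ∑ z ∈ W - W, #{q ∈ Q | g q = z} ≤ #Q := by
      calc _ = #{q ∈ Q | g q ∈ W - W} := by
            rw [this]
            refine sum_congr rfl fun z hz => ?_
            congr 1
            ext q
            simp only [mem_filter]
            constructor
            · rintro ⟨a, b⟩; exact ⟨⟨a, b ▸ hz⟩, b⟩
            · rintro ⟨⟨a, _⟩, b⟩; exact ⟨a, b⟩
        _ ≤ _ := card_filter_le _ _
    exact_mod_cast h3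
  have h4 : (#Q : ℝ) ≤ K ^ 4 := by
    simp only [hQ, card_product]
    push_cast
    calc (#D : ℝ) * #D * (#D * #D) = (#D : ℝ) ^ 4 := by ring
      _ ≤ K ^ 4 := pow_le_pow_left₀ (by positivity) hD 4
  calc (#(W - W) : ℝ) * (s * τ ^ 2) = ∑ z ∈ W - W, s * τ ^ 2 := by simp
    _ ≤ _ := sum_le_sum h1
    _ ≤ _ := h2.trans h4

theorem drc (U : Finset ι) (φ : ι → F) (C D : Finset F) {K L : ℝ} (hK : 0 < K) (hL : 0 < L)
    (hU : (#U : ℝ) ≤ K ^ 2) (hC : (#C : ℝ) ≤ K) (hD : (#D : ℝ) ≤ K)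
    (hfib : ∀ w, (#{u ∈ U | φ u = w} : ℝ) ≤ K)
    (he : K ^ 3 ≤ L * ∑ c ∈ C, (#{u ∈ U | φ u + c ∈ D} : ℝ)) :
    ∃ U' ⊆ U, K ^ 2 ≤ 3 * L * #U' ∧
      (#(U'.image φ - U'.image φ) : ℝ) ≤ 1024 * L ^ 5 * K := by
  classical
  set τ : ℝ := K / (16 * L ^ 2) with hτ
  have hτ0 : 0 < τ := by positivity
  let N : F → Finset ι := fun c => {u ∈ U | φ u + c ∈ D}
  let bad : ι × ι → Prop := fun q => (cod C D (φ q.1) (φ q.2) : ℝ) < τ
  let b : F → ℕ := fun c => #{q ∈ N c ×ˢ N c | bad q}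
  have hb : ∑ c ∈ C, (b c : ℝ) ≤ K ^ 4 * τ := by
    have : ∑ c ∈ C, b c = ∑ q ∈ {q ∈ U ×ˢ U | bad q}, cod C D (φ q.1) (φ q.2) := by
      simp only [cod, card_filter]
      rw [sum_comm]
      refine sum_congr rfl fun c _ => ?_
      rw [← card_filter]
      simp only [b]
      congr 1
      ext q
      simp only [N, mem_product, mem_filter]
      tauto
    rw [← Nat.cast_sum, this]
    push_cast
    calc _ ≤ ∑ q ∈ {q ∈ U ×ˢ U | bad q}, τ := sum_le_sum fun q hq => (mem_filter.1 hq).2.le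
      _ = #{q ∈ U ×ˢ U | bad q} * τ := by simp
      _ ≤ K ^ 4 * τ := by
        refine mul_le_mul_of_nonneg_right ?_ hτ0.le
        calc (#{q ∈ U ×ˢ U | bad q} : ℝ) ≤ #(U ×ˢ U) := by exact_mod_cast card_filter_le _ _
          _ = (#U : ℝ) ^ 2 := by rw [card_product]; push_cast; ring
          _ ≤ (K ^ 2) ^ 2 := pow_le_pow_left₀ (by positivity) hU 2
          _ = K ^ 4 := by ring
  have hCne : C.Nonempty := by
    rcases C.eq_empty_or_nonempty with rfl | h
    · simp at he; nlinarith [pow_pos hK 3]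
    · exact h
  have hsq : K ^ 5 / L ^ 2 ≤ ∑ c ∈ C, (#(N c) : ℝ) ^ 2 := by
    have h1 := sq_sum_le_card_mul_sum_sq (s := C) (f := fun c => (#(N c) : ℝ))
    have h2 : K ^ 3 / L ≤ ∑ c ∈ C, (#(N c) : ℝ) := by
      rw [div_le_iff₀ hL]; linarith
    have h3 : (K ^ 3 / L) ^ 2 ≤ K * ∑ c ∈ C, (#(N c) : ℝ) ^ 2 :=
      (pow_le_pow_left₀ (by positivity) h2 2).trans (h1.trans
        (mul_le_mul_of_nonneg_right hC (sum_nonneg fun _ _ => by positivity)))
    have h4 : (K ^ 3 / L) ^ 2 = K * (K ^ 5 / L ^ 2) := by field_simp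
    rw [h4] at h3
    exact le_of_mul_le_mul_left h3 hK
  obtain ⟨c, -, hc⟩ : ∃ c ∈ C, K ^ 4 / (2 * L ^ 2) ≤ (#(N c) : ℝ) ^ 2 - 8 * b c := by
    refine exists_le_of_sum_le hCne ?_
    rw [sum_sub_distrib, ← mul_sum, sum_const, nsmul_eq_mul]
    have h1 : (#C : ℝ) * (K ^ 4 / (2 * L ^ 2)) ≤ K * (K ^ 4 / (2 * L ^ 2)) :=
      mul_le_mul_of_nonneg_right hC (by positivity)
    have h2 : K * (K ^ 4 / (2 * L ^ 2)) = K ^ 5 / L ^ 2 - 8 * (K ^ 4 * τ) := by
      rw [hτ]; field_simp; ring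
    linarith
  set n : ℝ := (#(N c) : ℝ) with hn
  have hn0 : 0 ≤ n := by positivity
  have hb0 : (0 : ℝ) ≤ b c := by positivity
  have hn1 : K ^ 4 ≤ 2 * L ^ 2 * n ^ 2 := by
    have : K ^ 4 / (2 * L ^ 2) ≤ n ^ 2 := by linarith
    rw [div_le_iff₀ (by positivity)] at this
    linarith
  have hn2 : K ^ 2 ≤ 3 / 2 * L * n := by
    refine (pow_le_pow_iff_left₀ (by positivity) (by positivity) two_ne_zero).1 ?_
    have : 0 ≤ L ^ 2 * n ^ 2 := by positivity
    nlinarith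
  have hbn : 8 * (b c : ℝ) ≤ n ^ 2 := by
    have : 0 ≤ K ^ 4 / (2 * L ^ 2) := by positivity
    linarith
  let bp : ι → ℕ := fun u => #{u' ∈ N c | bad (u, u')}
  have hbp : ∑ u ∈ N c, bp u = b c := by
    simp only [bp, b, card_filter, sum_product]
  let U' := {u ∈ N c | 4 * (bp u : ℝ) ≤ n}
  have hU' : n ≤ 2 * #U' := by
    have h1 : (#U' : ℝ) + #{u ∈ N c | ¬ 4 * (bp u : ℝ) ≤ n} = n := by
      rw [← Nat.cast_add, card_filter_add_card_filter_not]
    have h2 : #{u ∈ N c | ¬ 4 * (bp u : ℝ) ≤ n} * n ≤ 4 * (b c : ℝ) := by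
      rw [← hbp]
      push_cast
      calc (#{u ∈ N c | ¬ 4 * (bp u : ℝ) ≤ n} : ℝ) * n
          = ∑ u ∈ {u ∈ N c | ¬ 4 * (bp u : ℝ) ≤ n}, n := by simp
        _ ≤ ∑ u ∈ {u ∈ N c | ¬ 4 * (bp u : ℝ) ≤ n}, 4 * (bp u : ℝ) :=
          sum_le_sum fun u hu => (not_le.1 (mem_filter.1 hu).2).le
        _ ≤ ∑ u ∈ N c, 4 * (bp u : ℝ) :=
          sum_le_sum_of_subset_of_nonneg (filter_subset _ _) fun _ _ _ => by positivity
        _ = _ := by rw [mul_sum]
    have hnpos : 0 < n := by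
      rcases hn0.eq_or_lt with h | h
      · rw [← h] at hn2; nlinarith [pow_pos hK 2]
      · exact h
    have h3 : (#{u ∈ N c | ¬ 4 * (bp u : ℝ) ≤ n} : ℝ) * n ≤ n / 2 * n := by nlinarith
    have h4 := le_of_mul_le_mul_right h3 hnpos
    linarith
  have hNU : N c ⊆ U := filter_subset _ _
  refine ⟨U', (filter_subset _ _).trans hNU, by nlinarith, ?_⟩
  have key := card_sub_le_of_reps C D (U'.image φ) ((N c).image φ) (s := n / (2 * K)) hD hτ0.le (by
    intro w hw w' hw'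
    obtain ⟨u, hu, rfl⟩ := mem_image.1 hw
    obtain ⟨u', hu', rfl⟩ := mem_image.1 hw'
    let Y := {x ∈ N c | ¬ bad (u, x) ∧ ¬ bad (u', x)}
    have hY : n ≤ 2 * #Y := by
      have h1 : #(N c) ≤ #Y + bp u + bp u' := by
        calc #(N c) ≤ #(Y ∪ {x ∈ N c | bad (u, x)} ∪ {x ∈ N c | bad (u', x)}) := by
              refine card_le_card fun x hx => ?_
              simp only [Y, mem_union, mem_filter]
              tauto
          _ ≤ _ := (card_union_le _ _).trans (Nat.add_le_add_right (card_union_le _ _) _)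
      have h2 := (mem_filter.1 hu).2
      have h3 := (mem_filter.1 hu').2
      have h4 : n ≤ #Y + bp u + bp u' := by rw [hn]; exact_mod_cast h1
      linarith
    have h5 := card_image_ge U φ hfib (U' := Y) ((filter_subset _ _).trans hNU)
    have h6 : #(Y.image φ) ≤ #{x ∈ (N c).image φ | τ ≤ cod C D (φ u) x ∧ τ ≤ cod C D (φ u') x} := by
      refine card_le_card fun x hx => ?_
      obtain ⟨y, hy, rfl⟩ := mem_image.1 hx
      obtain ⟨h7, h8, h9⟩ := mem_filter.1 hy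
      exact mem_filter.2 ⟨mem_image_of_mem _ h7, not_lt.1 h8, not_lt.1 h9⟩
    have h7 := (Nat.cast_le (α := ℝ)).2 h6
    rw [div_le_iff₀ (by positivity)]
    nlinarith)
  set m : ℝ := (#(U'.image φ - U'.image φ) : ℝ) with hm
  have hm0 : 0 ≤ m := by positivity
  have h1 : m * (n / (2 * K) * τ ^ 2) = m * n * K / (512 * L ^ 4) := by
    rw [hτ]; field_simp; ring
  rw [h1, div_le_iff₀ (by positivity)] at key
  have h2 : m * K ^ 2 * K ≤ m * (3 / 2 * L * n) * K := by gcongr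
  have h3 : m * K ^ 3 ≤ 1024 * L ^ 5 * K * K ^ 3 := by
    have : 0 ≤ L ^ 5 * K ^ 4 := by positivity
    nlinarith
  exact le_of_mul_le_mul_right h3 (by positivity)

end Drc

end Pool.Agent.Lib.MP_4d0379_lc
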