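import Pool.Agent.Lib.MP_4d0379_lc.Four

/-! The conflict graph of the test and its covering by honest proofs. -/

set_option linter.unusedSectionVars false

namespace Pool.Agent.Lib.MP_4d0379_lc

open Finset
open scoped BigOperators

theorem expect_eval {X Y : Type} [Fintype X] [DecidableEq X] [Fintype Y] [Nonempty Y] (x : X)
    (φ : Y → ℝ) : 𝔼 f : X → Y, φ (f x) = 𝔼 y, φ y := by
  rw [expect_swap (fun f y => Function.update f x y) (fun f => f x) (by simp) (by simp)]
  simp

theorem expect_ite_eq_card {X : Type} [Fintype X] (p : X → Prop) [DecidablePred p] :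
    𝔼 x, (if p x then (1 : ℝ) else 0) = #{x | p x} / Fintype.card X := by
  rw [Fintype.expect_eq_sum_div_card]
  simp

section Bal

open Classical

variable {L : Type} [Fintype L] [Nonempty L] {R : ℕ}

/-- every value is taken about as often as expected -/
def Bal (l : Fin R → L) : Prop := ∀ y, R ≤ 2 * Fintype.card L * #{r | l r = y}

noncomputable instance : DecidablePred (Bal : (Fin R → L) → Prop) := Classical.decPred _

theorem expect_var (y : L) :
    𝔼 l : Fin R → L, ((#{r | l r = y} : ℝ) - R / Fintype.card L) ^ 2 ≤ R / Fintype.card L := by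
  set c : ℝ := (Fintype.card L : ℝ) with hc
  have hc0 : 0 < c := by rw [hc]; exact_mod_cast Fintype.card_pos
  let z : L → ℝ := fun y' => (if y' = y then 1 else 0) - 1 / c
  have h0 : 𝔼 y', (if y' = y then (1 : ℝ) else 0) = 1 / c := by
    rw [Fintype.expect_eq_sum_div_card]; simp [hc]
  have h1 : 𝔼 y', z y' = 0 := by
    simp only [z, expect_sub_distrib, h0, Fintype.expect_const, sub_self]
  have h2 : 𝔼 y', z y' * z y' ≤ 1 / c := by
    have : ∀ y', z y' * z y' = (if y' = y then 1 else 0) - 1 / c * z y'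
        - 1 / c * (if y' = y then 1 else 0) := fun y' => by
      simp only [z]
      split_ifs <;> ring
    simp only [this, expect_sub_distrib, ← mul_expect, h0, h1]
    nlinarith [sq_nonneg (1 / c)]
  have e : ∀ l : Fin R → L, ((#{r | l r = y} : ℝ) - R / c) ^ 2
      = ∑ r, ∑ r', z (l r) * z (l r') := by
    intro l
    rw [← sum_mul_sum, ← sq]
    congr 1
    simp [z, sum_sub_distrib, div_eq_mul_inv]
  simp only [e, expect_sum_comm]
  calc _ ≤ ∑ _r : Fin R, 1 / c := by
        refine sum_le_sum fun r _ => ?_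
        rw [sum_eq_single r]
        · rw [expect_eval r fun y' => z y' * z y']; exact h2
        · intro r' _ hr
          rw [expect_swap (fun f y => Function.update f r y) (fun f => f r) (by simp) (by simp)]
          simp only [Function.update_self, Function.update_of_ne hr, ← expect_mul, h1, zero_mul,
            expect_const_zero]
        · simp
    _ = _ := by simp [div_eq_mul_inv]

theorem card_bal (hR : 8 * Fintype.card L ^ 2 ≤ R) :
    Fintype.card (Fin R → L) ≤ 2 * Fintype.card {l : Fin R → L // Bal l} := by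
  set c : ℝ := (Fintype.card L : ℝ) with hc
  have hc0 : 0 < c := by rw [hc]; exact_mod_cast Fintype.card_pos
  have hR' : 8 * c ^ 2 ≤ R := by rw [hc]; exact_mod_cast hR
  have hR0 : (0 : ℝ) < R := lt_of_lt_of_le (by positivity) hR'
  have h1 : 𝔼 l : Fin R → L, (if ¬ Bal l then (1 : ℝ) else 0) ≤ 1 / 2 := by
    calc _ ≤ 𝔼 l : Fin R → L, ∑ y, (2 * c / R) ^ 2 * ((#{r | l r = y} : ℝ) - R / c) ^ 2 := by
          refine expect_le_expect fun l _ => ?_
          split_ifs with h
          · exact sum_nonneg fun _ _ => by positivity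
          · obtain ⟨y, hy⟩ := not_forall.1 h
            refine le_trans ?_ (single_le_sum
              (f := fun y => (2 * c / R) ^ 2 * ((#{r | l r = y} : ℝ) - R / c) ^ 2)
              (fun _ _ => by positivity) (mem_univ y))
            have h2 : 2 * c * (#{r | l r = y} : ℝ) ≤ R := by
              rw [hc]; exact_mod_cast (not_le.1 hy).le
            have h3 : 2 * c / R * ((#{r | l r = y} : ℝ) - R / c)
                = 2 * c * (#{r | l r = y} : ℝ) / R - 2 := by field_simp
            have h4 : 2 * c * (#{r | l r = y} : ℝ) / R ≤ 1 := by rwa [div_le_one hR0]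
            simp only [← mul_pow, h3]
            nlinarith
      _ ≤ ∑ _y : L, (2 * c / R) ^ 2 * (R / c) := by
          simp only [expect_sum_comm, ← mul_expect]
          exact sum_le_sum fun y _ => mul_le_mul_of_nonneg_left (expect_var y) (by positivity)
      _ = 4 * c ^ 2 / R := by
          simp only [sum_const, card_univ, nsmul_eq_mul, ← hc]; field_simp; norm_num
      _ ≤ _ := by rw [div_le_iff₀ hR0]; linarith
  rw [expect_ite_eq_card, div_le_iff₀ (by exact_mod_cast Fintype.card_pos)] at h1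
  have h2 : #{l : Fin R → L | Bal l} + #{l : Fin R → L | ¬ Bal l} = Fintype.card (Fin R → L) :=
    card_filter_add_card_filter_not (s := univ) (Bal : (Fin R → L) → Prop)
  rw [Fintype.card_subtype]
  have h3 : (2 : ℝ) * #{l : Fin R → L | ¬ Bal l} ≤ Fintype.card (Fin R → L) := by linarith
  have h4 : 2 * #{l : Fin R → L | ¬ Bal l} ≤ Fintype.card (Fin R → L) := by exact_mod_cast h3
  omega

theorem Bal.card_mem {l : Fin R → L} (h : Bal l) (G : Finset L) :
    R * #G ≤ 2 * Fintype.card L * #{r | l r ∈ G} := by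
  rw [card_eq_sum_card_fiberwise (f := l) (s := {r | l r ∈ G}) (t := G)
    fun r hr => (mem_filter.1 hr).2, mul_sum, mul_comm R, ← smul_eq_mul, ← sum_const]
  refine sum_le_sum fun y hy => (h y).trans (Nat.mul_le_mul_left _ (card_le_card fun r hr => ?_))
  simp only [mem_filter, mem_univ, true_and] at hr ⊢
  exact ⟨hr ▸ hy, hr⟩

end Bal

section Graph

variable {Ω I V A B : Type} [Fintype Ω] [Fintype I] [Fintype A] [Fintype B] [DecidableEq A]
  [DecidableEq B] [Nonempty Ω] [Nonempty I] [Nonempty B] {v : Ω → I → V} {π : Ω → I → B → A}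
  {k n R : ℕ} [NeZero n]

theorem Sound.dummy {δ : ℝ} (h : Sound v π δ) :
    Sound v (fun ω i => Prod.map (π ω i) (id : Fin R → Fin R)) δ := by
  intro p q hp hq
  refine le_trans (expect_le_expect fun ω _ => expect_le_expect fun i _ => ?_)
    (h (fun x b => ∑ r, p x (b, r)) (fun ω a => ∑ r, q ω (a, r))
      ⟨fun _ _ => sum_nonneg fun _ _ => hp.1 _ _, fun x => by
        simpa only [Fintype.sum_prod_type] using hp.2 x⟩
      ⟨fun _ _ => sum_nonneg fun _ _ => hq.1 _ _, fun x => by
        simpa only [Fintype.sum_prod_type] using hq.2 x⟩)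
  rw [Fintype.sum_prod_type]
  refine sum_le_sum fun b _ => ?_
  rw [sum_mul]
  exact sum_le_sum fun r _ => mul_le_mul_of_nonneg_left
    (single_le_sum (f := fun r => q ω (π ω i b, r)) (fun _ _ => hq.1 _ _) (mem_univ r)) (hp.1 _ _)

/-- the queried position in the table with an extra label -/
def qq (θ : B → A) (l : Fin R → Rnd k n A B) (x : Fin k × Fin k) (b : B × Fin R) : Bool :=
  qry θ (l b.2) x b.1

def rndEquiv : (Fin R → Rnd k n A B) ≃ Rnd k n (A × Fin R) (B × Fin R) where
  toFun l := (fun s a => (l a.2).1 s a.1, fun j b => (l b.2).2.1 j b.1, fun x b => (l b.2).2.2 x b.1)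
  invFun y r := (fun s a => y.1 s (a, r), fun j b => y.2.1 j (b, r), fun x b => y.2.2 x (b, r))
  left_inv _ := rfl
  right_inv _ := rfl

/-- vertices of the conflict graph -/
abbrev Vx (Ω I A B : Type) [Fintype A] [Fintype B] [DecidableEq A] [DecidableEq B] (k n R : ℕ) :=
  Ω × (Fin k → I) × {l : Fin R → Rnd k n A B // Bal l}

/-- two complementary positions of one table -/
def Conf (v : Ω → I → V) (π : Ω → I → B → A) (w w' : Vx Ω I A B k n R) : Prop :=
  ∃ x x' : Fin k × Fin k, v w.1 (w.2.1 x.2) = v w'.1 (w'.2.1 x'.2) ∧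
    qq (π w.1 (w.2.1 x.2)) w.2.2.1 x = fun b => !qq (π w'.1 (w'.2.1 x'.2)) w'.2.2.1 x' b

theorem not_conf_self (hn : 2 ≤ n) (hR : 0 < R) (w : Vx Ω I A B k n R) : ¬ Conf v π w w := by
  rintro ⟨x, x', -, h⟩
  have h1 := w.2.2.2 (fun _ _ => false, fun _ _ => false, fun _ _ => ⟨1, hn⟩)
  obtain ⟨r, hr⟩ := card_pos.1 (Nat.pos_of_mul_pos_left (lt_of_lt_of_le hR h1))
  have h2 := congrFun h (Classical.arbitrary B, r)
  simp only [mem_filter] at hr
  simp [qq, qry, hr.2, Fin.ext_iff] at h2

theorem Sound.indep_le {δ η : ℝ} (h : Sound v π δ) (hn : 2 ≤ n) (hη : 0 ≤ η)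
    (hδ : n * δ ≤ η ^ 2) (hR : 8 * Fintype.card (Rnd k n A B) ^ 2 ≤ R)
    (X : Finset (Vx Ω I A B k n R)) (hX : ∀ w ∈ X, ∀ w' ∈ X, w ≠ w' → ¬ Conf v π w w') :
    (#X : ℝ) ≤ 2 * (1 / 2 ^ (k * k) + η) * Fintype.card (Vx Ω I A B k n R) := by
  classical
  have hR0 : 0 < R := lt_of_lt_of_le (by have := Fintype.card_pos (α := Rnd k n A B); positivity) hR
  have hX' : ∀ w ∈ X, ∀ w' ∈ X, ¬ Conf v π w w' := fun w hw w' hw' => by
    by_cases e : w = w'
    · subst e; exact not_conf_self hn hR0 w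
    · exact hX w hw w' hw' e
  let Q : V → (B × Fin R → Bool) → Prop := fun u g =>
    ∃ w ∈ X, ∃ x : Fin k × Fin k, v w.1 (w.2.1 x.2) = u ∧ qq (π w.1 (w.2.1 x.2)) w.2.2.1 x = g
  have hQ : ∀ u g, Q u g → ¬ Q u (fun b => !g b) := by
    rintro u g ⟨w, hw, x, h1, h2⟩ ⟨w', hw', x', h3, h4⟩
    exact hX' w' hw' w hw ⟨x', x, h3.trans h1.symm, by rw [h4, h2]⟩
  let T : V → (B × Fin R → Bool) → Bool := fun u g =>
    if Q u g then false else if Q u (fun b => !g b) then true else g (Classical.arbitrary B, ⟨0, hR0⟩)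
  have hT : ∀ u g, T u (fun b => !g b) = !T u g := by
    intro u g
    simp only [T, Bool.not_not]
    by_cases h1 : Q u g
    · simp [h1, hQ u g h1]
    · by_cases h2 : Q u (fun b => !g b) <;> simp [h1, h2]
  have h1 := (h.dummy (R := R)).test (k := k) hn hη hδ T hT
  let acc : Ω × (Fin k → I) × (Fin R → Rnd k n A B) → Prop := fun w =>
    ∀ x : Fin k × Fin k, T (v w.1 (w.2.1 x.2)) (qq (π w.1 (w.2.1 x.2)) w.2.2 x) = false
  have h2 : 𝔼 w, (if acc w then (1 : ℝ) else 0) ≤ 1 / 2 ^ (k * k) + η := by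
    refine le_trans (le_of_eq ?_) h1
    simp only [expect_prod (ι := Ω), expect_prod (ι := Fin k → I)]
    exact expect_congr rfl fun ω _ => expect_congr rfl fun i _ =>
      Fintype.expect_equiv rndEquiv _ _ fun _ => rfl
  rw [expect_ite_eq_card, div_le_iff₀ (by exact_mod_cast Fintype.card_pos)] at h2
  have h3 : #X ≤ #{w | acc w} := by
    refine card_le_card_of_injOn (fun w => (w.1, w.2.1, w.2.2.1)) ?_ ?_
    · intro w hw
      simp only [coe_filter, mem_univ, true_and, Set.mem_ofPred_eq]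
      intro x
      exact if_pos ⟨w, hw, x, rfl, rfl⟩
    · rintro ⟨a, b, c⟩ _ ⟨a', b', c'⟩ _ e
      simp only [Prod.mk.injEq] at e
      rw [e.1, e.2.1, Subtype.ext e.2.2]
  have h4 : Fintype.card (Ω × (Fin k → I) × (Fin R → Rnd k n A B))
      ≤ 2 * Fintype.card (Vx Ω I A B k n R) := by
    simp only [Fintype.card_prod (α := Ω), Fintype.card_prod (α := Fin k → I)]
    have := Nat.mul_le_mul_left (Fintype.card Ω * Fintype.card (Fin k → I)) (card_bal hR)
    linarith
  have h5 := (Nat.cast_le (α := ℝ)).2 h4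
  push_cast at h5
  have h6 : 0 ≤ 1 / 2 ^ (k * k) + η := by positivity
  calc (#X : ℝ) ≤ _ := Nat.cast_le.2 h3
    _ ≤ _ := h2
    _ ≤ _ := mul_le_mul_of_nonneg_left h5 h6
    _ = _ := by ring

theorem card_good (hn : 2 * (k * k) ≤ n) (θ : Fin k → B → A) (b : Fin k → B) (a : A)
    (h : ∀ j, θ j (b j) = a) : Fintype.card (Rnd k n A B)
      ≤ 2 * 4 ^ k * #{y : Rnd k n A B | ∀ x, qry (θ x.2) y x (b x.2) = false} := by
  have hn0 : (0 : ℝ) < n := by exact_mod_cast Nat.pos_of_ne_zero (NeZero.ne n)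
  have e1 : 𝔼 y : Bool, (if y = false then (1 : ℝ) else 0) = 1 / 2 := by
    rw [Fintype.expect_eq_sum_div_card]
    simp
  have e2 : 𝔼 y : Fin n, (if y ≠ 0 then (1 : ℝ) else 0) = 1 - 1 / n := by
    have : ∀ y : Fin n, (if y ≠ 0 then (1 : ℝ) else 0) = 1 - if y = 0 then 1 else 0 := fun y => by
      by_cases h : y = 0 <;> simp [h]
    simp only [this, expect_sub_distrib, Fintype.expect_const]
    rw [Fintype.expect_eq_sum_div_card]
    simp
  have h1 : (1 / 2 : ℝ) ^ k * ((1 / 2) ^ k * (1 - 1 / n) ^ (k * k))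
      ≤ 𝔼 y : Rnd k n A B, if ∀ x, qry (θ x.2) y x (b x.2) = false then (1 : ℝ) else 0 := by
    calc _ = 𝔼 y : Rnd k n A B, (∏ s, if y.1 s a = false then (1 : ℝ) else 0) *
          ((∏ j, if y.2.1 j (b j) = false then (1 : ℝ) else 0) *
            ∏ x : Fin k × Fin k, if y.2.2 x (b x.2) ≠ 0 then (1 : ℝ) else 0) := by
          simp only [expect_prod]
          change _ = 𝔼 f : Fin k → A → Bool, 𝔼 g : Fin k → B → Bool,
            𝔼 μ : Fin k × Fin k → B → Fin n, (∏ s, if f s a = false then (1 : ℝ) else 0) *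
            ((∏ j, if g j (b j) = false then (1 : ℝ) else 0) *
            ∏ x : Fin k × Fin k, if μ x (b x.2) ≠ 0 then (1 : ℝ) else 0)
          simp only [← mul_expect, ← expect_mul]
          rw [expect_pi_prod fun (_ : Fin k) (f : A → Bool) => if f a = false then (1 : ℝ) else 0,
            expect_pi_prod fun (j : Fin k) (g : B → Bool) => if g (b j) = false then (1 : ℝ) else 0,
            expect_pi_prod fun (x : Fin k × Fin k) (μ : B → Fin n) =>
              if μ (b x.2) ≠ 0 then (1 : ℝ) else 0]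
          simp only [expect_eval _ fun y : Bool => if y = false then (1 : ℝ) else 0,
            expect_eval _ fun y : Fin n => if y ≠ 0 then (1 : ℝ) else 0, e1, e2, prod_const,
            card_univ, Fintype.card_fin, Fintype.card_prod]
      _ ≤ _ := by
          refine expect_le_expect fun y _ => ?_
          simp only [prod_ite_zero, prod_const_one, mem_univ, forall_const]
          split_ifs with h2 h3 h4 h5 <;> simp_all [qry]
  rw [expect_ite_eq_card, le_div_iff₀ (by exact_mod_cast Fintype.card_pos)] at h1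
  have h2 : (1 / 2 : ℝ) ≤ (1 - 1 / n) ^ (k * k) := by
    have h3 := one_add_mul_le_pow (a := -(1 / n : ℝ)) (by
      have : (1 / n : ℝ) ≤ 1 := by
        rw [div_le_one hn0]; exact_mod_cast Nat.pos_of_ne_zero (NeZero.ne n)
      linarith) (k * k)
    have h4 : ((k * k : ℕ) : ℝ) * (1 / n) ≤ 1 / 2 := by
      rw [mul_one_div, div_le_div_iff₀ hn0 (by norm_num)]
      have : ((2 * (k * k) : ℕ) : ℝ) ≤ n := by exact_mod_cast hn
      push_cast at this ⊢
      linarith
    rw [← sub_eq_add_neg] at h3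
    linarith
  have h3 : (1 / 2 : ℝ) ^ k * ((1 / 2) ^ k * (1 / 2)) * Fintype.card (Rnd k n A B) ≤ _ :=
    le_trans (by gcongr) h1
  have h4 : (2 * 4 ^ k : ℝ) * ((1 / 2 : ℝ) ^ k * ((1 / 2) ^ k * (1 / 2))) = 1 := by
    rw [← mul_assoc ((1 / 2 : ℝ) ^ k), ← mul_pow]
    have : (4 : ℝ) ^ k * (1 / 2 * (1 / 2)) ^ k = 1 := by rw [← mul_pow]; norm_num
    linarith
  have h5 := mul_le_mul_of_nonneg_left h3 (by positivity : (0 : ℝ) ≤ 2 * 4 ^ k)
  rw [← mul_assoc, h4, one_mul] at h5
  exact_mod_cast h5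

/-- vertices consistent with the honest proof with extra label `r` -/
def Hon (v : Ω → I → V) (π : Ω → I → B → A) (σ : V → B) (r : Fin R) (w : Vx Ω I A B k n R) : Prop :=
  ∀ x : Fin k × Fin k, qq (π w.1 (w.2.1 x.2)) w.2.2.1 x (σ (v w.1 (w.2.1 x.2)), r) = false

theorem Hon.not_conf {σ : V → B} {r : Fin R} {w w' : Vx Ω I A B k n R} (h : Hon v π σ r w)
    (h' : Hon v π σ r w') : ¬ Conf v π w w' := by
  rintro ⟨x, x', h1, h2⟩
  have h3 := h x
  have h4 := h' x'
  rw [h2, h1] at h3
  simp [h4] at h3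

open Classical in
theorem card_hon (hn : 2 * (k * k) ≤ n) {σ : V → B} {τ : Ω → A}
    (h : ∀ ω i, π ω i (σ (v ω i)) = τ ω) (w : Vx Ω I A B k n R) :
    R ≤ 2 ^ (2 * k + 2) * #{r | Hon v π σ r w} := by
  have h1 := card_good hn (fun j => π w.1 (w.2.1 j)) (fun j => σ (v w.1 (w.2.1 j))) (τ w.1)
    fun j => h _ _
  have h2 := (w.2.2.2.card_mem
    {y : Rnd k n A B | ∀ x, qry (π w.1 (w.2.1 x.2)) y x (σ (v w.1 (w.2.1 x.2))) = false}).trans
    (Nat.mul_le_mul_left _ (card_le_card (t := {r | Hon v π σ r w}) fun r hr => by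
      simpa [Hon, qq] using hr))
  have h4 : 0 < Fintype.card (Rnd k n A B) := Fintype.card_pos
  refine Nat.le_of_mul_le_mul_left ?_ h4
  have h5 := Nat.mul_le_mul_left R h1
  have h6 := Nat.mul_le_mul_left (2 * 4 ^ k) h2
  have h7 : 2 ^ (2 * k + 2) = 4 * 4 ^ k := by rw [pow_add, pow_mul]; ring
  rw [h7]
  nlinarith

end Graph

end Pool.Agent.Lib.MP_4d0379_lc
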