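import Pool.Agent.Lib.MP_4d0379_lc.Defs

/-! The chromatic number is at most three times the half-chromatic number. -/

set_option linter.unusedSectionVars false

namespace Pool.Agent.Lib.MP_4d0379_lc

open Finset

variable {V : Type} [DecidableEq V] {G : SimpleGraph V}

theorem edgePt_apply (u v : V) (a : ℝ) (w : V) :
    edgePt u v a w = (if w = u then 1 - a else 0) + (if w = v then a else 0) := by
  simp [edgePt, Pi.single_apply]

theorem edgePt_symm (u v : V) (a : ℝ) : edgePt u v a = edgePt v u (1 - a) := by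
  simp [edgePt, add_comm]

theorem edgePt_zero (u v : V) : edgePt u v 0 = Pi.single u 1 := by simp [edgePt]

theorem edgePt_one (u v : V) : edgePt u v 1 = Pi.single v 1 := by simp [edgePt]

def vPt (G : SimpleGraph V) (v : V) : Pt G := ⟨Pi.single v 1, Or.inl ⟨v, rfl⟩⟩

theorem exists_pt {u v : V} (h : G.Adj u v) {a : ℝ} (h0 : 0 ≤ a) (h1 : a ≤ 1) :
    ∃ q : Pt G, q.1 = edgePt u v a := by
  rcases h0.eq_or_lt with rfl | h0
  · exact ⟨vPt G u, (edgePt_zero u v).symm⟩
  rcases h1.eq_or_lt with rfl | h1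
  · exact ⟨vPt G v, (edgePt_one u v).symm⟩
  exact ⟨⟨_, Or.inr ⟨u, v, a, h, h0, h1, rfl⟩⟩, rfl⟩

theorem route_lip (f : (V → ℝ) → ℝ)
    (hf : ∀ u v a b, G.Adj u v → a ∈ Set.Icc (0 : ℝ) 1 → b ∈ Set.Icc (0 : ℝ) 1 →
      f (edgePt u v b) - f (edgePt u v a) ≤ |a - b|) {p q : Pt G} {ℓ : ℝ} (h : Route G p q ℓ) :
    f q.1 - f p.1 ≤ ℓ := by
  induction h with
  | refl => simp
  | step u v a b _ hadj ha hb hq hr ih =>
    have := hf u v a b hadj ha hb
    rw [← hq, ← hr] at this
    linarith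

theorem ball_lip (f : (V → ℝ) → ℝ)
    (hf : ∀ u v a b, G.Adj u v → a ∈ Set.Icc (0 : ℝ) 1 → b ∈ Set.Icc (0 : ℝ) 1 →
      f (edgePt u v b) - f (edgePt u v a) ≤ |a - b|) {p q : Pt G}
    (h : q ∈ gball G p) : f q.1 - f p.1 ≤ 1 / 2 := by
  have h1 : ENNReal.ofReal (f q.1 - f p.1) ≤ gdist G p q :=
    le_iInf₂ fun ℓ hℓ => ENNReal.ofReal_le_ofReal (route_lip f hf hℓ)
  exact (ENNReal.ofReal_le_ofReal_iff (by norm_num)).mp (h1.trans h)

theorem mem_ball_of_route {p q : Pt G} {ℓ : ℝ} (h : Route G p q ℓ) (hr : ℓ ≤ 1 / 2) :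
    q ∈ gball G p :=
  (iInf₂_le (f := fun (ℓ : ℝ) (_ : Route G p q ℓ) => ENNReal.ofReal ℓ) ℓ h).trans
    (ENNReal.ofReal_le_ofReal hr)

theorem mem_ball_edge {u v : V} (h : G.Adj u v) {p q : Pt G} {a b : ℝ}
    (ha : a ∈ Set.Icc (0 : ℝ) 1) (hb : b ∈ Set.Icc (0 : ℝ) 1) (hp : p.1 = edgePt u v a)
    (hq : q.1 = edgePt u v b) (hab : |a - b| ≤ 1 / 2) : q ∈ gball G p :=
  mem_ball_of_route (Route.step u v a b (Route.refl p) h ha hb hp hq) (by linarith)

theorem coord_lip {x y : V} (h : x ≠ y) (w : V) (a b : ℝ) :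
    |edgePt x y b w - edgePt x y a w| ≤ |a - b| := by
  simp only [edgePt_apply]
  split_ifs with h1 h2 h2
  · exact (h (h1.symm.trans h2)).elim
  · exact le_of_eq (by congr 1; ring)
  · rw [abs_sub_comm a b]; exact le_of_eq (by congr 1; ring)
  · simp

theorem ball_coord {p q : Pt G} (h : q ∈ gball G p) (w : V) : |q.1 w - p.1 w| ≤ 1 / 2 := by
  have h1 := ball_lip (fun x => x w) (fun x y a b hadj _ _ =>
    (le_abs_self _).trans (coord_lip hadj.ne w a b)) h
  have h2 := ball_lip (fun x => -x w) (fun x y a b hadj _ _ => by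
    have := (neg_abs_le _).trans' (neg_le_neg (coord_lip hadj.ne w a b))
    linarith) h
  rw [abs_le]
  constructor <;> linarith

theorem min_zero {u v x y : V} (huv : u ≠ v) (hxy : x ≠ y) (h : s(x, y) ≠ s(u, v)) {a : ℝ}
    (ha : a ∈ Set.Icc (0 : ℝ) 1) : min (edgePt x y a u) (edgePt x y a v) = 0 := by
  have h0 : ∀ w, 0 ≤ edgePt x y a w := fun w => by
    rw [edgePt_apply]
    have := ha.1
    have := ha.2
    split_ifs <;> linarith
  have hz : ∀ w, w ≠ x → w ≠ y → edgePt x y a w = 0 := fun w h1 h2 => by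
    simp [edgePt_apply, h1, h2]
  by_cases h1 : u ≠ x ∧ u ≠ y
  · rw [hz u h1.1 h1.2, min_eq_left (h0 v)]
  · have h2 : v ≠ x ∧ v ≠ y := by
      constructor <;> rintro rfl <;> apply h1 <;> constructor
      · exact huv
      · rintro rfl; exact h Sym2.eq_swap
      · rintro rfl; exact h rfl
      · exact huv
    rw [hz v h2.1 h2.2, min_eq_right (h0 u)]

theorem min_lip {x y : V} (h : x ≠ y) (u v : V) (a b : ℝ) :
    |min (edgePt x y b u) (edgePt x y b v) - min (edgePt x y a u) (edgePt x y a v)| ≤ |a - b| :=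
  (abs_min_sub_min_le_max _ _ _ _).trans (max_le (coord_lip h u a b) (coord_lip h v a b))

/-- A ball centred inside an edge contains the midpoint of no other edge. -/
theorem mid_not_mem {u v x y : V} (huv : G.Adj u v) (hxy : G.Adj x y) (h : s(x, y) ≠ s(u, v))
    {p q : Pt G} {t : ℝ} (h0 : 0 < t) (h1 : t < 1) (hp : p.1 = edgePt x y t)
    (hq : q.1 = edgePt u v (1 / 2)) : q ∉ gball G p := by
  intro hm
  have := ball_lip (fun z => min (z u) (z v) - min (z x) (z y)) (fun a b α β hab hα hβ => by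
    by_cases h2 : s(a, b) = s(u, v)
    · have h3 : s(a, b) ≠ s(x, y) := fun h3 => h (h3.symm.trans h2)
      rw [min_zero hxy.ne hab.ne h3 hα, min_zero hxy.ne hab.ne h3 hβ]
      have := (le_abs_self _).trans (min_lip hab.ne u v α β)
      linarith
    · rw [min_zero huv.ne hab.ne h2 hα, min_zero huv.ne hab.ne h2 hβ]
      have := (neg_abs_le _).trans' (neg_le_neg (min_lip hab.ne x y α β))
      linarith) hm
  rw [hp, hq, min_zero hxy.ne huv.ne h.symm (by norm_num),
    min_zero huv.ne hxy.ne h ⟨h0.le, h1.le⟩] at this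
  simp only [edgePt_apply, if_true, if_neg huv.ne, if_neg huv.ne', if_neg hxy.ne,
    if_neg hxy.ne'] at this
  norm_num at this
  rcases this with h | h <;> linarith

theorem colour_of_degenerate [Fintype V] (G : SimpleGraph V) [DecidableRel G.Adj] {m : ℕ}
    (hm : 0 < m) (D : Finset V)
    (h : ∀ S ⊆ D, S.Nonempty → ∃ v ∈ S, (S.filter (G.Adj v)).card < m) :
    ∃ g : V → Fin m, ∀ u ∈ D, ∀ v ∈ D, G.Adj u v → g u ≠ g v := by
  induction D using Finset.strongInduction with
  | H D ih =>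
    rcases D.eq_empty_or_nonempty with rfl | hD
    · exact ⟨fun _ => ⟨0, hm⟩, by simp⟩
    obtain ⟨v, hv, hlt⟩ := h D subset_rfl hD
    obtain ⟨g, hg⟩ := ih (D.erase v) (erase_ssubset hv) fun S hS =>
      h S (hS.trans (erase_subset v D))
    obtain ⟨k, -, hk⟩ := exists_mem_notMem_of_card_lt_card
      (s := (D.filter (G.Adj v)).image g) (t := univ) (card_image_le.trans_lt (by simpa using hlt))
    refine ⟨Function.update g v k, fun a ha b hb hab => ?_⟩
    by_cases h1 : a = v
    · subst h1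
      rw [Function.update_self, Function.update_of_ne hab.ne']
      exact fun e => hk (mem_image.2 ⟨b, mem_filter.2 ⟨hb, hab⟩, e.symm⟩)
    by_cases h2 : b = v
    · subst h2
      rw [Function.update_self, Function.update_of_ne h1]
      exact fun e => hk (mem_image.2 ⟨a, mem_filter.2 ⟨ha, hab.symm⟩, e⟩)
    rw [Function.update_of_ne h1, Function.update_of_ne h2]
    exact hg a (mem_erase.2 ⟨h1, ha⟩) b (mem_erase.2 ⟨h2, hb⟩) hab

theorem colorable_of_half [Fintype V] (G : SimpleGraph V) {c : ℕ} (h : HalfColourable G c) :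
    G.Colorable (3 * c) := by
  classical
  obtain ⟨𝓑, f, hball, hcov, hf⟩ := h
  have hmem : ∀ q : Pt G, ∃ B : 𝓑, q ∈ B.1 := fun q => by
    obtain ⟨B, hB, hq⟩ := Set.mem_sUnion.1 (hcov ▸ Set.mem_univ q)
    exact ⟨⟨B, hB⟩, hq⟩
  rcases isEmpty_or_nonempty V with hV | ⟨⟨v₀⟩⟩
  · exact SimpleGraph.Colorable.of_isEmpty _
  have hc : 0 < c := (f (hmem (vPt G v₀)).choose).pos
  let r := Fintype.equivFin V
  let In : V → V → Fin c → ℝ → Prop := fun u v k t => G.Adj u v ∧ 0 < t ∧ t ≤ 1 / 2 ∧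
    (t = 1 / 2 → r u < r v) ∧ ∃ (p : Pt G) (B : 𝓑), p.1 = edgePt u v t ∧ B.1 = gball G p ∧ f B = k
  let D : Finset V := univ.filter fun v => gball G (vPt G v) ∉ 𝓑
  have ha : ∀ u ∈ D, ∀ v ∈ D, G.Adj u v → ∃ k t, In u v k t ∨ In v u k t := by
    intro u hu v hv huv
    obtain ⟨q, hq⟩ := exists_pt huv (a := 1 / 2) (by norm_num) (by norm_num)
    obtain ⟨B, hB⟩ := hmem q
    obtain ⟨p, hp⟩ := hball B.1 B.2
    rw [hp] at hB
    have key : ∀ t, 0 < t → t < 1 → p.1 = edgePt u v t → ∃ k t, In u v k t ∨ In v u k t := by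
      intro t h0 h1 hpt
      have hpt' := hpt.trans (edgePt_symm u v t)
      rcases lt_trichotomy t (1 / 2) with h | h | h
      · exact ⟨f B, t, Or.inl ⟨huv, h0, h.le, fun e => absurd e h.ne, p, B, hpt, hp, rfl⟩⟩
      · rcases lt_or_gt_of_ne (r.injective.ne huv.ne) with h' | h'
        · exact ⟨f B, t, Or.inl ⟨huv, h0, h.le, fun _ => h', p, B, hpt, hp, rfl⟩⟩
        · exact ⟨f B, 1 - t, Or.inr ⟨huv.symm, by linarith, by linarith, fun _ => h', p, B, hpt',
            hp, rfl⟩⟩
      · exact ⟨f B, 1 - t, Or.inr ⟨huv.symm, by linarith, by linarith,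
          fun e => by linarith, p, B, hpt', hp, rfl⟩⟩
    rcases p.2 with ⟨w, hw⟩ | ⟨x, y, t, hxy, h0, h1, hpt⟩
    · exfalso
      have h2 := ball_coord hB w
      have h3 : gball G (vPt G w) ∈ 𝓑 := by
        rw [show vPt G w = p from Subtype.ext hw.symm, ← hp]; exact B.2
      have h4 : w ≠ u := fun e => (mem_filter.1 hu).2 (e ▸ h3)
      have h5 : w ≠ v := fun e => (mem_filter.1 hv).2 (e ▸ h3)
      rw [hq, hw, edgePt_apply, if_neg h4, if_neg h5, Pi.single_eq_same] at h2
      norm_num at h2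
    · by_cases he : s(x, y) = s(u, v)
      · rcases Sym2.eq_iff.1 he with ⟨rfl, rfl⟩ | ⟨rfl, rfl⟩
        · exact key t h0 h1 hpt
        · exact key (1 - t) (by linarith) (by linarith) (hpt.trans (edgePt_symm _ _ t))
      · exact absurd hB (mid_not_mem huv hxy he h0 h1 hpt hq)
  have hne : ∀ {u v x y k t t'}, In u v k t → In x y k t' → s(x, y) ≠ s(u, v) →
      ∀ p p' q : Pt G, p.1 = edgePt u v t → p'.1 = edgePt x y t' → q ∈ gball G p →
        q ∉ gball G p' := by
    rintro u v x y k t t' ⟨huv, h0, h1, -, p, B, hp, hB, hk⟩ ⟨hxy, h0', h1', -, p', B', hp', hB', hk'⟩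
      he p₁ p₁' q e e' hq hq'
    obtain rfl : p = p₁ := Subtype.ext (hp.trans e.symm)
    obtain rfl : p' = p₁' := Subtype.ext (hp'.trans e'.symm)
    obtain ⟨z, hz⟩ := exists_pt huv (a := 1 / 2) (by norm_num) (by norm_num)
    refine hf B B' (fun e => ?_) ⟨q, hB ▸ hq, hB' ▸ hq'⟩ (hk.trans hk'.symm)
    refine mid_not_mem huv hxy he h0' (by linarith) hp' hz ?_
    rw [← hB', ← e, hB]
    exact mem_ball_edge huv ⟨h0.le, by linarith⟩ (by norm_num) hp hz
      (abs_le.2 ⟨by linarith, by linarith⟩)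
  have hb : ∀ {u v v' k t t'}, In u v k t → In u v' k t' → v = v' := by
    intro u v v' k t t' h h'
    by_contra hv
    obtain ⟨huv, h0, h1, -, p, -, hp, -⟩ := id h
    obtain ⟨huv', h0', h1', -, p', -, hp', -⟩ := id h'
    refine hne h h' (fun e => hv (Sym2.congr_right.1 e).symm) p p' (vPt G u) hp hp' ?_ ?_
    · exact mem_ball_edge huv ⟨h0.le, by linarith⟩ (by norm_num) hp (edgePt_zero u v).symm
        (abs_le.2 ⟨by linarith, by linarith⟩)
    · exact mem_ball_edge huv' ⟨h0'.le, by linarith⟩ (by norm_num) hp' (edgePt_zero u v').symm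
        (abs_le.2 ⟨by linarith, by linarith⟩)
  have hcc : ∀ {u v w k t t'}, In u v k t → In v w k t' → t < t' := by
    intro u v w k t t' h h'
    obtain ⟨huv, h0, h1, h2, p, B, hp, hB, hk⟩ := id h
    obtain ⟨hvw, h0', h1', h2', p', B', hp', hB', hk'⟩ := id h'
    by_cases hw : w = u
    · exfalso
      subst hw
      obtain ⟨z, hz⟩ := exists_pt huv (a := 1 / 2) (by norm_num) (by norm_num)
      have hBB : B = B' := by
        by_contra hBB
        refine hf B B' hBB ⟨z, ?_, ?_⟩ (hk.trans hk'.symm)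
        · rw [hB]
          exact mem_ball_edge huv ⟨h0.le, by linarith⟩ (by norm_num) hp hz
            (abs_le.2 ⟨by linarith, by linarith⟩)
        · rw [hB']
          exact mem_ball_edge hvw ⟨h0'.le, by linarith⟩ (b := 1 - 1 / 2) (by norm_num) hp'
            (hz.trans (edgePt_symm _ _ _)) (abs_le.2 ⟨by linarith, by linarith⟩)
      have e1 : vPt G w ∈ gball G p' := by
        rw [← hB', ← hBB, hB]
        exact mem_ball_edge huv ⟨h0.le, by linarith⟩ (by norm_num) hp (edgePt_zero w v).symm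
          (abs_le.2 ⟨by linarith, by linarith⟩)
      have e2 : vPt G v ∈ gball G p := by
        rw [← hB, hBB, hB']
        exact mem_ball_edge hvw ⟨h0'.le, by linarith⟩ (by norm_num) hp' (edgePt_zero v w).symm
          (abs_le.2 ⟨by linarith, by linarith⟩)
      have e3 := (abs_le.1 (ball_coord e1 w)).2
      have e4 := (abs_le.1 (ball_coord e2 v)).2
      rw [hp', edgePt_apply, if_neg huv.ne, if_pos rfl] at e3
      rw [hp, edgePt_apply, if_neg huv.ne', if_pos rfl] at e4
      simp only [vPt, Pi.single_eq_same] at e3 e4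
      exact lt_asymm (h2 (by linarith)) (h2' (by linarith))
    · by_contra hlt
      rw [not_lt] at hlt
      obtain ⟨q, hq⟩ := exists_pt huv (a := t + 1 / 2) (by linarith) (by linarith)
      refine hne h h' (fun e => ?_) p p' q hp hp' ?_ ?_
      · rcases Sym2.eq_iff.1 e with ⟨e, -⟩ | ⟨-, e⟩
        · exact huv.ne' e
        · exact hw e
      · exact mem_ball_edge huv ⟨h0.le, by linarith⟩ ⟨by linarith, by linarith⟩ hp hq
          (abs_le.2 ⟨by linarith, by linarith⟩)
      · refine mem_ball_of_route (Route.step u v 1 (t + 1 / 2) (Route.step (r := vPt G v) v w t' 0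
          (Route.refl p') hvw ⟨h0'.le, by linarith⟩ (by norm_num) hp' (edgePt_zero v w).symm)
          huv (by norm_num) ⟨by linarith, by linarith⟩ (edgePt_one u v).symm hq) ?_
        rw [sub_zero, abs_of_pos h0', abs_of_nonneg (by linarith)]
        linarith
  obtain ⟨g, hg⟩ := colour_of_degenerate G (m := 2 * c) (by omega) D fun S hS hne => by
    by_contra hcon
    push Not at hcon
    let P : Fin c → Finset (V × V) := fun k => (S ×ˢ S).filter fun e => ∃ t, In e.1 e.2 k t
    have hP : ∀ k, (P k).card < S.card := fun k => by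
      have h1 : (P k).card = ((P k).image Prod.fst).card := by
        refine (card_image_of_injOn fun e he e' he' h => Prod.ext h ?_).symm
        obtain ⟨-, t, ht⟩ := mem_filter.1 (mem_coe.1 he)
        obtain ⟨-, t', ht'⟩ := mem_filter.1 (mem_coe.1 he')
        exact hb ht (h ▸ ht')
      rw [h1]
      refine card_lt_card ⟨fun u hu => ?_, fun hsub => ?_⟩
      · obtain ⟨e, he, rfl⟩ := mem_image.1 hu
        exact (mem_product.1 (mem_filter.1 he).1).1
      · have h2 : ∀ u ∈ S, ∃ v ∈ S, ∃ t, In u v k t := fun u hu => by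
          obtain ⟨e, he, rfl⟩ := mem_image.1 (hsub hu)
          exact ⟨e.2, (mem_product.1 (mem_filter.1 he).1).2, (mem_filter.1 he).2⟩
        choose! nx hnx τ hτ using h2
        obtain ⟨u, hu, hmax⟩ := exists_max_image S τ hne
        exact absurd (hcc (hτ u hu) (hτ _ (hnx u hu))) (not_lt.2 (hmax _ (hnx u hu)))
    have h1 : ((S ×ˢ S).filter fun e => G.Adj e.1 e.2) ⊆
        univ.biUnion fun k => P k ∪ (P k).image Prod.swap := by
      intro e he
      obtain ⟨h1, h2⟩ := mem_filter.1 he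
      obtain ⟨h3, h4⟩ := mem_product.1 h1
      obtain ⟨k, t, h | h⟩ := ha e.1 (hS h3) e.2 (hS h4) h2
      · exact mem_biUnion.2 ⟨k, mem_univ _, mem_union_left _ (mem_filter.2 ⟨h1, t, h⟩)⟩
      · exact mem_biUnion.2 ⟨k, mem_univ _, mem_union_right _ (mem_image.2
          ⟨e.swap, mem_filter.2 ⟨mem_product.2 ⟨h4, h3⟩, t, h⟩, rfl⟩)⟩
    have h2 := (card_le_card h1).trans (card_biUnion_le.trans (sum_le_card_nsmul _ _
      (2 * (S.card - 1)) fun k _ => (card_union_le _ _).trans (by
        have := hP k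
        have := card_image_le (s := P k) (f := Prod.swap)
        omega)))
    have h3 : S.card * (2 * c) ≤ ((S ×ˢ S).filter fun e => G.Adj e.1 e.2).card := by
      rw [card_filter, sum_product]
      simp only [← card_filter]
      exact card_nsmul_le_sum _ _ _ hcon
    have h4 := hne.card_pos
    simp only [card_univ, Fintype.card_fin, smul_eq_mul] at h2
    obtain ⟨n, hn⟩ : ∃ n, S.card = n + 1 := ⟨S.card - 1, by omega⟩
    rw [hn] at h2 h3
    simp only [Nat.add_sub_cancel] at h2
    nlinarith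
  let col : V → Fin c ⊕ Fin (2 * c) := fun v =>
    if h : gball G (vPt G v) ∈ 𝓑 then Sum.inl (f ⟨_, h⟩) else Sum.inr (g v)
  have hcol : G.Coloring (Fin c ⊕ Fin (2 * c)) := SimpleGraph.Coloring.mk col fun {u v} huv => by
    by_cases hu : gball G (vPt G u) ∈ 𝓑 <;> by_cases hv : gball G (vPt G v) ∈ 𝓑 <;>
      simp only [col, hu, hv, dif_pos, dif_neg, not_false_iff, ne_eq, Sum.inl.injEq,
        Sum.inr.injEq, reduceCtorEq]
    · obtain ⟨z, hz⟩ := exists_pt huv (a := 1 / 2) (by norm_num) (by norm_num)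
      refine hf _ _ (fun e => ?_) ⟨z, ?_, ?_⟩
      · have e1 : vPt G u ∈ gball G (vPt G v) := by
          rw [← show gball G (vPt G u) = gball G (vPt G v) from congrArg Subtype.val e]
          exact mem_ball_of_route (Route.refl _) (by norm_num)
        have := (abs_le.1 (ball_coord e1 u)).2
        simp only [vPt, Pi.single_eq_same, Pi.single_eq_of_ne huv.ne] at this
        norm_num at this
      · exact mem_ball_edge huv (a := 0) (by norm_num) (by norm_num) (edgePt_zero u v).symm hz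
          (by norm_num [abs_le])
      · exact mem_ball_edge huv (a := 1) (by norm_num) (by norm_num) (edgePt_one u v).symm hz
          (by norm_num [abs_le])
    · exact hg u (mem_filter.2 ⟨mem_univ _, hu⟩) v (mem_filter.2 ⟨mem_univ _, hv⟩) huv
  have := hcol.colorable
  rwa [Fintype.card_sum, Fintype.card_fin, Fintype.card_fin, show c + 2 * c = 3 * c by ring] at this

end Pool.Agent.Lib.MP_4d0379_lc
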