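import Pool.Agent.Lib.MP_4d0379_lc.Defs
import Pool.Prelude.Def_H_3587d628

/-! Approximating the half-chromatic number: the notions in the statement. -/

namespace Pool.Agent.Lib.MP_4d0379_lc

/-- The simple graph given by a Boolean matrix: one vertex per row, distinct `u`, `v` adjacent iff
the entry in row `u`, column `v` or the entry in row `v`, column `u` is true. -/
def graphOf (M : List (List Bool)) : SimpleGraph (Fin M.length) :=
  SimpleGraph.fromRel fun u v => (M.get u).getD v false = true

/-- The half-chromatic number: the least positive `c` such that the continuous graph is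
half-colourable with `c` colours. -/
noncomputable def halfChi {V : Type} [DecidableEq V] (G : SimpleGraph V) : ℕ :=
  sInf {c | 0 < c ∧ HalfColourable G c}

/-- `A` approximates the half-chromatic number of the graph of `M` within the factor
`n ^ (1 - ε)`. -/
def Approx (ε : ℝ) (M : List (List Bool)) (A : ℝ) : Prop :=
  halfChi (graphOf M) ≤ A ∧ A ≤ (M.length : ℝ) ^ (1 - ε) * halfChi (graphOf M)

end Pool.Agent.Lib.MP_4d0379_lc
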