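import Pool.Agent.Lib.MP_4d0379_lc.Red
import Pool.Agent.Lib.MP_4d0379_lc.Main
import Pool.Agent.Lib.MP_4d0379_lc.Stmt

/-! From the colouring gap to the hardness of approximating the half-chromatic number. -/

set_option linter.unusedSectionVars false

namespace Pool.Agent.Lib.MP_4d0379_lc

open Finset Pool.Agent.Lib.Complexity N68a2faeb

theorem half_of_colorable {V : Type} [DecidableEq V] (G : SimpleGraph V) {c : ℕ}
    (h : G.Colorable c) : HalfColourable G c := by
  obtain ⟨col⟩ := h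
  refine ⟨Set.range fun v => gball G (vPt G v), fun B => col B.2.choose, ?_, ?_, ?_⟩
  · rintro _ ⟨v, rfl⟩
    exact ⟨_, rfl⟩
  · refine Set.eq_univ_of_forall fun q => ?_
    obtain ⟨v, hv⟩ | ⟨u, v, a, huv, h0, h1, hq⟩ := q.2
    · refine ⟨_, ⟨v, rfl⟩, ?_⟩
      obtain rfl : q = vPt G v := Subtype.ext hv
      exact mem_ball_of_route (Route.refl _) (by norm_num)
    · rcases le_total a (1 / 2) with ha | ha
      · exact ⟨_, ⟨u, rfl⟩, mem_ball_edge huv (a := 0) (by simp) ⟨h0.le, h1.le⟩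
          (edgePt_zero u v).symm hq (by rw [abs_le]; constructor <;> linarith)⟩
      · exact ⟨_, ⟨v, rfl⟩, mem_ball_edge huv (a := 1) (by simp) ⟨h0.le, h1.le⟩
          (edgePt_one u v).symm hq (by rw [abs_le]; constructor <;> linarith)⟩
  · rintro B B' hne ⟨q, hq, hq'⟩
    have e := B.2.choose_spec
    have e' := B'.2.choose_spec
    simp only at e e' ⊢
    generalize B.2.choose = u at e ⊢
    generalize B'.2.choose = v at e' ⊢
    have huv : u ≠ v := by
      rintro rfl
      exact hne (Subtype.ext (e.symm.trans e'))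
    rw [← e] at hq
    rw [← e'] at hq'
    have h1 := (abs_le.1 (ball_coord hq u)).1
    have h2 := (abs_le.1 (ball_coord hq' v)).1
    simp only [vPt, Pi.single_eq_same] at h1 h2
    refine col.valid ?_
    obtain ⟨w, hw⟩ | ⟨x, y, a, hxy, h0, h3, hw⟩ := q.2
    · rw [hw, Pi.single_apply] at h1 h2
      split_ifs at h1 h2 with h4 h5
      · exact absurd (h4.trans h5.symm) huv
      all_goals linarith
    · rw [hw, edgePt_apply] at h1 h2
      by_cases h4 : u = x
      · by_cases h5 : v = y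
        · rw [h4, h5]; exact hxy
        · rw [if_neg (fun h => huv (h4.trans h.symm)), if_neg h5] at h2
          linarith
      · by_cases h5 : u = y
        · by_cases h6 : v = x
          · rw [h5, h6]; exact hxy.symm
          · rw [if_neg h6, if_neg (fun h => huv (h5.trans h.symm))] at h2
            linarith
        · rw [if_neg h4, if_neg h5] at h1
          linarith

def mat (n : ℕ) (adj : ℕ → ℕ → Bool) : List (List Bool) :=
  (List.range n).map fun u => (List.range n).map fun v => adj u v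

theorem mat_length (n : ℕ) (adj : ℕ → ℕ → Bool) : (mat n adj).length = n := by simp [mat]

theorem mat_adj {n : ℕ} {adj : ℕ → ℕ → Bool} (u v : Fin (mat n adj).length) :
    (graphOf (mat n adj)).Adj u v ↔ u ≠ v ∧ (adj u v = true ∨ adj v u = true) := by
  have hu : (u : ℕ) < n := u.2.trans_eq (mat_length _ _)
  have hv : (v : ℕ) < n := v.2.trans_eq (mat_length _ _)
  simp [graphOf, SimpleGraph.fromRel_adj, mat, hu, hv]

/-- the threshold -/
def thr (m n : ℕ) : ℕ := n / (3 * (List.range n).countP fun i => decide (i ^ m < n))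

theorem countP_range (n : ℕ) (P : ℕ → Prop) [DecidablePred P] :
    (List.range n).countP (fun i => decide (P i)) = #{i ∈ range n | P i} := by
  rw [List.countP_eq_length_filter, ← List.toFinset_card_of_nodup (List.nodup_range.filter _)]
  congr 1
  ext i
  simp

theorem thr_lt {m n : ℕ} (hm : 0 < m) (hn : 0 < n) {adj : ℕ → ℕ → Bool}
    (h : ∀ X : Finset ℕ, X ⊆ range n → (∀ x ∈ X, ∀ y ∈ X, x ≠ y → adj x y = false) → #X ^ m < n) :
    thr m n < halfChi (graphOf (mat n adj)) := by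
  classical
  obtain ⟨h0, h1⟩ : halfChi (graphOf (mat n adj)) ∈ {c | 0 < c ∧ HalfColourable _ c} :=
    Nat.sInf_mem ⟨_, by simpa [mat_length] using hn,
      half_of_colorable _ (graphOf (mat n adj)).colorable_of_fintype⟩
  generalize halfChi (graphOf (mat n adj)) = c at h0 h1
  obtain ⟨col⟩ := colorable_of_half _ h1
  unfold thr
  rw [countP_range]
  set r := #{i ∈ range n | i ^ m < n} with hr
  have h2 : ∀ j, #{u | col u = j} + 1 ≤ r := by
    intro j
    have h3 := h (({u | col u = j} : Finset _).map Fin.valEmbedding) (by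
      intro x hx
      obtain ⟨u, -, rfl⟩ := mem_map.1 hx
      exact mem_range.2 (u.2.trans_eq (mat_length _ _))) (by
      intro x hx y hy hxy
      obtain ⟨u, hu, rfl⟩ := mem_map.1 hx
      obtain ⟨v, hv, rfl⟩ := mem_map.1 hy
      by_contra h4
      exact col.valid ((mat_adj u v).2 ⟨fun e => hxy (by rw [e]), Or.inl (by simpa using h4)⟩)
        ((mem_filter.1 hu).2.trans (mem_filter.1 hv).2.symm))
    rw [card_map] at h3
    rw [← card_range (_ + 1)]
    refine card_le_card fun i hi => ?_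
    have h4 : i ^ m < n := (Nat.pow_le_pow_left (Nat.lt_succ_iff.1 (mem_range.1 hi)) m).trans_lt h3
    exact mem_filter.2 ⟨mem_range.2 ((Nat.le_self_pow hm.ne' i).trans_lt h4), h4⟩
  have h3 := card_eq_sum_card_fiberwise (f := col) (s := univ) (t := univ) fun _ _ => mem_univ _
  have h4 := sum_le_sum fun j (_ : j ∈ univ) => h2 j
  rw [sum_add_distrib, ← h3] at h4
  simp only [card_univ, Fintype.card_fin, mat_length, sum_const, smul_eq_mul, mul_one] at h4
  exact Nat.div_lt_of_lt_mul (by nlinarith)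

theorem le_thr {ε : ℝ} {m n T : ℕ} (hm : 2 ≤ m) (hε : 4 ≤ m * ε) (hn : 12 ^ m ≤ n)
    (hT : T ^ m ≤ n) : (n : ℝ) ^ (1 - ε) * T ≤ thr m n := by
  have hm0 : (0 : ℝ) < m := by exact_mod_cast (by omega : 0 < m)
  have hn1 : 1 ≤ n := le_trans (Nat.one_le_pow _ _ (by norm_num)) hn
  have hn1' : (1 : ℝ) ≤ n := by exact_mod_cast hn1
  set x : ℝ := (n : ℝ) ^ (m : ℝ)⁻¹ with hx
  have hx0 : 0 ≤ x := by positivity
  have hxm : x ^ m = n := Real.rpow_inv_natCast_pow (by positivity) (by omega)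
  have hle : ∀ y : ℕ, y ^ m ≤ n → (y : ℝ) ≤ x := fun y hy =>
    (pow_le_pow_iff_left₀ (by positivity) hx0 (by omega : m ≠ 0)).1 (by
      rw [hxm]; exact_mod_cast hy)
  have h12 : (12 : ℝ) ≤ x := by exact_mod_cast hle 12 hn
  have h1 : (n : ℝ) ^ (1 - ε) ≤ n / x ^ 4 := by
    rw [hx, ← Real.rpow_natCast, ← Real.rpow_mul (by positivity), div_eq_mul_inv,
      ← Real.rpow_neg (by positivity)]
    nth_rw 2 [← Real.rpow_one n]
    rw [← Real.rpow_add (by positivity)]
    refine Real.rpow_le_rpow_of_exponent_le hn1' ?_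
    have : (m : ℝ)⁻¹ * (4 : ℕ) ≤ ε := by
      rw [inv_mul_le_iff₀ hm0]; exact_mod_cast hε
    linarith
  unfold thr
  rw [countP_range]
  set r := #{i ∈ range n | i ^ m < n} with hr
  have hr0 : 0 < r := card_pos.2 ⟨0, by simp [zero_pow (by omega : m ≠ 0)]; omega⟩
  have hr1 : (r : ℝ) ≤ 2 * x := by
    have h2 : r ≤ #(range (⌊x⌋₊ + 1)) := card_le_card fun i hi =>
      mem_range.2 (Nat.lt_succ_of_le (Nat.le_floor (hle i (mem_filter.1 hi).2.le)))
    rw [card_range] at h2
    have h3 : (r : ℝ) ≤ ⌊x⌋₊ + 1 := by exact_mod_cast h2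
    linarith [Nat.floor_le hx0]
  have h2 : (n : ℝ) < ((n / (3 * r) : ℕ) + 1) * (3 * r) := by
    have := Nat.lt_mul_div_succ n (by omega : 0 < 3 * r)
    rw [mul_comm]
    exact_mod_cast this
  set t : ℝ := ((n / (3 * r) : ℕ) : ℝ)
  have ht : 0 ≤ t := by positivity
  have h3 : (n : ℝ) ≤ (t + 1) * (6 * x) := h2.le.trans
    (mul_le_mul_of_nonneg_left (by linarith) (by positivity))
  have h4 : x ^ 2 ≤ n := by rw [← hxm]; exact pow_le_pow_right₀ (by linarith) hm
  calc (n : ℝ) ^ (1 - ε) * T ≤ n / x ^ 4 * x := mul_le_mul h1 (hle T hT) (by positivity)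
        (by positivity)
    _ = n / x ^ 3 := by field_simp
    _ ≤ t := by
      rw [div_le_iff₀ (by positivity)]
      have h5 : (n : ℝ) ≤ t * (12 * x) := by nlinarith
      refine h5.trans (mul_le_mul_of_nonneg_left ?_ ht)
      nlinarith [mul_le_mul h12 h12 (by norm_num) hx0]

theorem hard_of_colGap {Yes No : Str → Prop} (h : ∀ m n0, ColGap Yes No m n0) {ε : ℝ}
    (hε : 0 < ε) : ∃ f : Str → List (List Bool) × ℕ, PT f ∧ ∀ x, (f x).1 ≠ [] ∧
      ∀ A : ℝ, Approx ε (f x).1 A → (Yes x → A ≤ (f x).2) ∧ (No x → (f x).2 < A) := by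
  obtain ⟨m, hm, hmε⟩ : ∃ m : ℕ, 2 ≤ m ∧ 4 ≤ m * ε := by
    refine ⟨⌈4 / ε⌉₊ + 2, by omega, ?_⟩
    have := Nat.le_ceil (4 / ε)
    rw [div_le_iff₀ hε] at this
    push_cast
    nlinarith
  obtain ⟨n, adj, p1, p2, h1⟩ := h m (12 ^ m)
  refine ⟨fun x => (mat (n x) (adj x), thr m (n x)), by unfold mat thr; fun_prop, fun x => ?_⟩
  obtain ⟨h2, h3, h4⟩ := h1 x
  have hn : 0 < n x := lt_of_lt_of_le (by positivity) h2
  refine ⟨List.length_pos_iff.1 (by rwa [mat_length]), fun A hA => ⟨fun hx => ?_, fun hx => ?_⟩⟩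
  · obtain ⟨T, c, h5, h6, h7⟩ := h3 hx
    have hlt : ∀ u : Fin (mat (n x) (adj x)).length, (u : ℕ) < n x := fun u =>
      u.2.trans_eq (mat_length _ _)
    have h8 : halfChi (graphOf (mat (n x) (adj x))) ≤ T := by
      refine Nat.sInf_le ⟨lt_of_le_of_lt (Nat.zero_le _) (h6 0 hn), half_of_colorable _
        ⟨SimpleGraph.Coloring.mk (fun u => ⟨c u, h6 u (hlt u)⟩) fun {u v} huv e => ?_⟩⟩
      have e' : c u = c v := congrArg Fin.val e
      rcases ((mat_adj u v).1 huv).2 with h9 | h9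
      · simp [h7 u (hlt u) v (hlt v) e'] at h9
      · simp [h7 v (hlt v) u (hlt u) e'.symm] at h9
    refine hA.2.trans (le_trans ?_ (le_thr hm hmε h2 h5))
    simp only [mat_length]
    exact mul_le_mul_of_nonneg_left (Nat.cast_le.2 h8) (by positivity)
  · exact lt_of_lt_of_le (Nat.cast_lt.2 (thr_lt (by omega) hn (h4 hx))) hA.1

theorem final (h : ∀ L ∈ NP, ∀ m n0, ColGap (fun x => L x = true) (fun x => ¬ L x = true) m n0)
    (ε : ℝ) (hε : 0 < ε) :
    (∀ L ∈ NP, ∃ f : List Bool → List (List Bool) × ℕ, IsPolyTime f ∧ ∀ x : List Bool,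
      (f x).1 ≠ [] ∧ ∀ A : ℝ, Approx ε (f x).1 A → (L x = true ↔ A ≤ (f x).2)) ∧
    ∀ alg : List (List Bool) → ℚ, IsPolyTime alg → (∀ M, M ≠ [] → Approx ε M (alg M)) →
      NP ⊆ P := by
  have e : ∀ M : List (List Bool), (Rep.down M : List (List Bool)) = M := fun M => by
    rw [down_list, List.map_congr_left fun l _ => down_str l, List.map_id']
  constructor
  · intro L hL
    obtain ⟨f, p1, h1⟩ := hard_of_colGap (h L hL) hε
    refine ⟨f, isPolyTime_of_rep (f' := fun x => ((f x).1, ((f x).2 : ℤ))) (by fun_prop)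
      fun a => by rw [up_str, down_prod, e]; rfl,
      fun x => ⟨(h1 x).1, fun A hA => ⟨((h1 x).2 A hA).1, fun h2 => ?_⟩⟩⟩
    by_contra h3
    exact absurd (((h1 x).2 A hA).2 h3) (not_lt.2 h2)
  · intro alg halg hA L hL
    obtain ⟨f, p1, h1⟩ := hard_of_colGap (h L hL) hε
    have p2 := pt_of_isPolyTime (f := fun M => ((alg M).num, (alg M).den))
      (halg.elim fun t => ⟨⟨t.toTM2ComputableAux, t.time, t.outputsFun⟩⟩)
    simp only [e, up_prod, up_int, up_nat] at p2
    have p3 := p2.comp p1.fst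
    refine PT.mem_P ((PT.int_le p3.fst ((PT.natCast p1.snd).int_mul p3.snd)).of_eq fun x => ?_)
    have h2 := (h1 x).2 _ (hA _ (h1 x).1)
    have h3 : (alg (f x).1).num ≤ ((f x).2 : ℤ) * ((alg (f x).1).den : ℤ)
        ↔ ((alg (f x).1 : ℚ) : ℝ) ≤ (f x).2 := by
      rw [Rat.cast_def, div_le_iff₀ (by exact_mod_cast (alg (f x).1).den_pos)]
      norm_cast
    rw [Bool.eq_iff_iff, decide_eq_true_eq, h3]
    refine ⟨fun h4 => ?_, h2.1⟩
    by_contra h5
    exact absurd (h2.2 h5) (not_lt.2 h4)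

end Pool.Agent.Lib.MP_4d0379_lc
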