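import Pool.Agent.Lib.MP_4d0379_lc.Rep

/-! Fourier analysis of the long code test with few free bits. -/

set_option linter.unusedSectionVars false

namespace Pool.Agent.Lib.MP_4d0379_lc

open Finset
open scoped BigOperators

def sg (b : Bool) : ℝ := if b then -1 else 1

theorem sg_xor (a b : Bool) : sg (a ^^ b) = sg a * sg b := by
  cases a <;> cases b <;> simp [sg]

theorem sg_sq (a : Bool) : sg a ^ 2 = 1 := by cases a <;> simp [sg]

theorem sg_not (a : Bool) : sg (!a) = -sg a := by cases a <;> simp [sg]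

theorem expect_pi_prod {X Y : Type} [Fintype X] [DecidableEq X] [Fintype Y] (φ : X → Y → ℝ) :
    𝔼 f : X → Y, ∏ x, φ x (f x) = ∏ x, 𝔼 y, φ x y := by
  simp only [Fintype.expect_eq_sum_div_card, prod_div_distrib, prod_univ_sum, prod_const,
    Fintype.piFinset_univ, Fintype.card_fun, card_univ, Nat.cast_pow]

section Fourier

variable {X : Type} [Fintype X] [DecidableEq X]

def chi (S : Finset X) (f : X → Bool) : ℝ := ∏ x ∈ S, sg (f x)

noncomputable def fc (F : (X → Bool) → ℝ) (S : Finset X) : ℝ := 𝔼 f, F f * chi S f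

theorem sum_chi_mul (f g : X → Bool) :
    ∑ S, chi S f * chi S g = if f = g then (Fintype.card (X → Bool) : ℝ) else 0 := by
  have : ∑ S, chi S f * chi S g = ∏ x, (1 + sg (f x) * sg (g x)) := by
    rw [prod_one_add, powerset_univ]
    simp only [chi, prod_mul_distrib]
  rw [this]
  split_ifs with h
  · subst h
    simp only [← sq, sg_sq]
    norm_num
  · obtain ⟨x, hx⟩ := Function.ne_iff.1 h
    refine prod_eq_zero (mem_univ x) ?_
    revert hx
    cases f x <;> cases g x <;> simp [sg]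

theorem fourier_inv (F : (X → Bool) → ℝ) (f : X → Bool) : F f = ∑ S, fc F S * chi S f := by
  simp only [fc, expect_mul, ← expect_sum_comm, mul_assoc, ← mul_sum, sum_chi_mul]
  simp only [mul_comm (F _)]
  rw [expect_boole_mul']

theorem parseval (F : (X → Bool) → ℝ) : ∑ S, fc F S ^ 2 = 𝔼 f, F f ^ 2 := by
  symm
  calc 𝔼 f, F f ^ 2 = 𝔼 f, ∑ S, fc F S * (F f * chi S f) := by
        refine expect_congr rfl fun f _ => ?_
        rw [sq]
        nth_rw 2 [fourier_inv F f]
        rw [mul_sum]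
        exact sum_congr rfl fun S _ => by ring
    _ = _ := by
        simp only [expect_sum_comm, ← mul_expect, sq]
        rfl

theorem parseval_le {F : (X → Bool) → ℝ} (h : ∀ f, F f ^ 2 ≤ 1) : ∑ S, fc F S ^ 2 ≤ 1 := by
  rw [parseval]
  exact expect_le univ_nonempty fun f _ => h f

theorem fc_odd {F : (X → Bool) → ℝ} (h : ∀ f, F (fun x => !f x) = -F f) {S : Finset X}
    (hS : Even #S) : fc F S = 0 := by
  have : fc F S = -fc F S := by
    unfold fc
    rw [← expect_neg_distrib]
    refine Fintype.expect_bijective (fun f x => !f x)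
      (Function.Involutive.bijective fun f => by simp) _ _ fun f => ?_
    rw [h]
    simp only [chi, sg_not, prod_neg, hS.neg_one_pow]
    ring
  linarith

/-- the randomised decoding of a table -/
noncomputable def dec (F : (X → Bool) → ℝ) (x : X) : ℝ :=
  ∑ S, if x ∈ S then fc F S ^ 2 / #S else 0

theorem dec_nonneg (F : (X → Bool) → ℝ) (x : X) : 0 ≤ dec F x :=
  sum_nonneg fun _ _ => by positivity

theorem sum_dec_le {F : (X → Bool) → ℝ} (h : ∀ f, F f ^ 2 ≤ 1) : ∑ x, dec F x ≤ 1 := by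
  refine le_trans ?_ (parseval_le h)
  simp only [dec]
  rw [sum_comm]
  refine sum_le_sum fun S _ => ?_
  rw [sum_ite_mem, univ_inter, sum_const, nsmul_eq_mul]
  rcases Nat.eq_zero_or_pos #S with h0 | h0
  · rw [h0]; simp [sq_nonneg]
  · exact le_of_eq (by field_simp)

end Fourier

section Core

variable {A B : Type} [Fintype A] [DecidableEq A] [Fintype B] [DecidableEq B]

/-- the parity image of a set -/
def par (π : B → A) (S : Finset B) : Finset A := {a | Odd #{b ∈ S | π b = a}}

theorem chi_comp (π : B → A) (S : Finset B) (f : A → Bool) :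
    chi S (fun b => f (π b)) = chi (par π S) f := by
  unfold chi par
  rw [← prod_fiberwise (s := S) (g := π), prod_filter]
  refine prod_congr rfl fun a _ => ?_
  rw [prod_congr rfl (g := fun _ => sg (f a)) fun b hb => by simp only [(mem_filter.1 hb).2],
    prod_const]
  split_ifs with h
  · obtain ⟨m, hm⟩ := h
    rw [hm, pow_succ, pow_mul, sg_sq, one_pow, one_mul]
  · obtain ⟨m, hm⟩ := Nat.not_odd_iff_even.1 h
    rw [hm, ← two_mul, pow_mul, sg_sq, one_pow]

theorem even_of_par_eq_empty {π : B → A} {S : Finset B} (h : par π S = ∅) : Even #S := by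
  rw [card_eq_sum_card_fiberwise (f := π) (t := univ) fun _ _ => mem_univ _]
  refine even_sum _ fun a _ => Nat.not_odd_iff_even.1 fun ha => ?_
  have : a ∈ par π S := mem_filter.2 ⟨mem_univ _, ha⟩
  simp [h] at this

theorem expect_noise {n : ℕ} [NeZero n] (S : Finset B) :
    𝔼 μ : B → Fin n, chi S (fun b => decide (μ b = 0)) = (1 - 2 / n) ^ #S := by
  have e : ∀ μ : B → Fin n, chi S (fun b => decide (μ b = 0))
      = ∏ b, if b ∈ S then sg (decide (μ b = 0)) else 1 := fun μ => by
    rw [prod_ite_mem, univ_inter]; rfl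
  simp only [e]
  rw [expect_pi_prod fun b (y : Fin n) => if b ∈ S then sg (decide (y = 0)) else 1]
  have e2 : 𝔼 y : Fin n, sg (decide (y = 0)) = 1 - 2 / n := by
    have : ∀ y : Fin n, sg (decide (y = 0)) = 1 - if y = 0 then 2 else 0 := fun y => by
      by_cases h : y = 0 <;> simp [sg, h]; norm_num
    simp only [this, expect_sub_distrib, Fintype.expect_const]
    rw [Fintype.expect_eq_sum_div_card]
    simp
  rw [prod_congr rfl (g := fun b => if b ∈ S then 1 - 2 / (n : ℝ) else 1) fun b _ => by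
    split_ifs
    · exact e2
    · exact Fintype.expect_const _]
  rw [prod_ite_mem, univ_inter, prod_const]

theorem noise_le {n : ℕ} (hn : 2 ≤ n) {s : ℕ} (hs : 0 < s) :
    ((1 - 2 / n : ℝ) ^ s) ^ 2 ≤ n / s := by
  have hn' : (2 : ℝ) ≤ n := by exact_mod_cast hn
  have hs' : (0 : ℝ) < s := by exact_mod_cast hs
  set x : ℝ := 2 / n with hx
  have hx0 : 0 < x := by positivity
  have hx1 : x ≤ 1 := by rw [hx, div_le_one (by linarith)]; exact hn'
  have h1 : 1 + s * x ≤ (1 + x) ^ s := one_add_mul_le_pow (by linarith) s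
  have h2 : (1 - x) ^ s * (1 + x) ^ s ≤ 1 := by
    rw [← mul_pow]
    exact pow_le_one₀ (by nlinarith) (by nlinarith)
  have h3 : 0 ≤ (1 - x) ^ s := pow_nonneg (by linarith) s
  have h4 : (1 - x) ^ s ≤ 1 := pow_le_one₀ (by linarith) (by linarith)
  have h5 : (1 - x) ^ s * (s * x) ≤ 1 := by nlinarith
  have h6 : x * n = 2 := by rw [hx]; field_simp
  rw [le_div_iff₀ hs']
  have h7 : (1 - x) ^ s * s * 2 ≤ n := by
    rw [← h6]
    nlinarith
  nlinarith [mul_nonneg h3 hs'.le]

/-- the basic estimate -/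
theorem core {n : ℕ} [NeZero n] (hn : 2 ≤ n) (π : B → A) {T Gm : (B → Bool) → ℝ}
    (F : (A → Bool) → ℝ) (hT : ∀ f, T (fun x => !f x) = -T f) (hG : ∀ g, Gm g ^ 2 ≤ 1) :
    (𝔼 f : A → Bool, 𝔼 g : B → Bool, 𝔼 μ : B → Fin n,
      F f * Gm g * T (fun b => (f (π b) ^^ g b) ^^ decide (μ b = 0))) ^ 2
      ≤ n * ∑ b, dec T b * dec F (π b) := by
  have e : 𝔼 f : A → Bool, 𝔼 g : B → Bool, 𝔼 μ : B → Fin n,
      F f * Gm g * T (fun b => (f (π b) ^^ g b) ^^ decide (μ b = 0))
      = ∑ S, fc Gm S * (fc T S * fc F (par π S) * (1 - 2 / n) ^ #S) := by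
    have e1 : ∀ (f : A → Bool) (g : B → Bool) (μ : B → Fin n),
        F f * Gm g * T (fun b => (f (π b) ^^ g b) ^^ decide (μ b = 0))
        = ∑ S, fc T S * (F f * chi (par π S) f) * (Gm g * chi S g)
          * chi S (fun b => decide (μ b = 0)) := by
      intro f g μ
      rw [fourier_inv T, mul_sum]
      refine sum_congr rfl fun S _ => ?_
      rw [← chi_comp]
      simp only [chi, sg_xor, prod_mul_distrib]
      ring
    simp only [e1, expect_sum_comm, ← mul_expect, ← expect_mul, expect_noise]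
    refine sum_congr rfl fun S _ => ?_
    unfold fc
    ring
  rw [e]
  refine (sum_mul_sq_le_sq_mul_sq _ _ _).trans ((mul_le_of_le_one_left
    (sum_nonneg fun _ _ => sq_nonneg _) (parseval_le hG)).trans ?_)
  simp only [dec.eq_1 T, sum_mul]
  rw [sum_comm, mul_sum]
  refine sum_le_sum fun S _ => ?_
  have h0 : 0 ≤ ∑ b, (if b ∈ S then fc T S ^ 2 / #S else 0) * dec F (π b) :=
    sum_nonneg fun b _ => mul_nonneg (by positivity) (dec_nonneg _ _)
  rcases (par π S).eq_empty_or_nonempty with h | h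
  · rw [fc_odd hT (even_of_par_eq_empty h)] at h0 ⊢
    simp
  have hpre : ∀ a ∈ par π S, ∃ b ∈ S, π b = a := fun a ha => by
    obtain ⟨b, hb⟩ := card_pos.1 (mem_filter.1 ha).2.pos
    exact ⟨b, mem_filter.1 hb⟩
  have hS : 0 < #S := by
    obtain ⟨a, ha⟩ := h
    obtain ⟨b, hb, -⟩ := hpre a ha
    exact card_pos.2 ⟨b, hb⟩
  have h1 : fc F (par π S) ^ 2 ≤ ∑ b ∈ S, dec F (π b) := by
    have hP : (0 : ℝ) < #(par π S) := by exact_mod_cast h.card_pos
    calc fc F (par π S) ^ 2 = ∑ a ∈ par π S, fc F (par π S) ^ 2 / #(par π S) := by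
          rw [sum_const, nsmul_eq_mul]; field_simp
      _ ≤ ∑ a ∈ par π S, dec F a := sum_le_sum fun a ha => by
          refine le_trans (le_of_eq ?_) (single_le_sum
            (f := fun S' : Finset A => if a ∈ S' then fc F S' ^ 2 / #S' else 0)
            (fun _ _ => by positivity) (mem_univ (par π S)))
          simp [ha]
      _ ≤ ∑ a ∈ S.image π, dec F a := sum_le_sum_of_subset_of_nonneg
          (fun a ha => mem_image.2 (hpre a ha)) fun _ _ _ => dec_nonneg _ _
      _ ≤ _ := sum_image_le_of_nonneg fun _ _ => dec_nonneg _ _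
  simp only [ite_mul, zero_mul, sum_ite_mem, univ_inter, ← mul_sum]
  calc (fc T S * fc F (par π S) * (1 - 2 / n) ^ #S) ^ 2
      = fc T S ^ 2 * (fc F (par π S) ^ 2 * ((1 - 2 / n) ^ #S) ^ 2) := by ring
    _ ≤ fc T S ^ 2 * ((∑ b ∈ S, dec F (π b)) * (n / #S)) :=
      mul_le_mul_of_nonneg_left (mul_le_mul h1 (noise_le hn hS) (sq_nonneg _)
        ((sq_nonneg _).trans h1)) (sq_nonneg _)
    _ = _ := by ring

end Core

section Test

variable {Ω I V A B : Type} [Fintype Ω] [Fintype I] [Fintype A] [Fintype B] [DecidableEq A]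
  [DecidableEq B] [Nonempty Ω] [Nonempty I]

/-- the functions chosen by the verifier -/
abbrev Rnd (k n : ℕ) (A B : Type) :=
  (Fin k → A → Bool) × (Fin k → B → Bool) × (Fin k × Fin k → B → Fin n)

/-- the queried position -/
def qry {k n : ℕ} [NeZero n] (θ : B → A) (r : Rnd k n A B) (x : Fin k × Fin k) (b : B) : Bool :=
  (r.1 x.1 (θ b) ^^ r.2.1 x.2 b) ^^ decide (r.2.2 x b = 0)

theorem expect_swap {R Y : Type} [Fintype R] [Fintype Y] [Nonempty Y] (u : R → Y → R)
    (c : R → Y) (h1 : ∀ r y, u (u r y) (c r) = r) (h2 : ∀ r y, c (u r y) = y) (Φ : R → ℝ) :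
    𝔼 r, Φ r = 𝔼 r, 𝔼 y, Φ (u r y) := by
  have := Fintype.expect_bijective (fun x : R × Y => (u x.1 x.2, c x.1))
    (Function.Involutive.bijective fun x => by simp [h1, h2]) (fun x => Φ (u x.1 x.2))
    (fun x => Φ x.1) fun _ => rfl
  rw [expect_prod, expect_prod] at this
  simpa using this.symm

variable {v : Ω → I → V} {π : Ω → I → B → A} {k n : ℕ} [NeZero n]

theorem Sound.corr {δ η : ℝ} (h : Sound v π δ) (hn : 2 ≤ n) (hη : 0 ≤ η) (hδ : n * δ ≤ η ^ 2)
    (T : V → (B → Bool) → Bool) (hT : ∀ x g, T x (fun b => !g b) = !T x g)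
    (S : Finset (Fin k × Fin k)) (hS : S.Nonempty) :
    𝔼 ω, 𝔼 r : (Fin k → I) × Rnd k n A B,
      ∏ x ∈ S, sg (T (v ω (r.1 x.2)) (qry (π ω (r.1 x.2)) r.2 x)) ≤ η := by
  obtain ⟨⟨s0, j0⟩, h0⟩ := hS
  rw [expect_comm, expect_swap (Y := I × (A → Bool) × (B → Bool) × (B → Fin n))
    (fun r y => (Function.update r.1 j0 y.1, Function.update r.2.1 s0 y.2.1,
      Function.update r.2.2.1 j0 y.2.2.1, Function.update r.2.2.2 (s0, j0) y.2.2.2))
    (fun r => (r.1 j0, r.2.1 s0, r.2.2.1 j0, r.2.2.2 (s0, j0))) (by simp) (by simp)]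
  refine expect_le univ_nonempty fun r _ => ?_
  let F : Ω → (A → Bool) → ℝ := fun ω f => ∏ x ∈ S with x.2 ≠ j0,
    sg (T (v ω (r.1 x.2)) (qry (π ω (r.1 x.2)) (Function.update r.2.1 s0 f, r.2.2) x))
  let Gm : Ω → I → (B → Bool) → ℝ := fun ω i g => ∏ x ∈ (S.filter (·.2 = j0)).erase (s0, j0),
    sg (T (v ω i) (qry (π ω i) (r.2.1, Function.update r.2.2.1 j0 g, r.2.2.2) x))
  have hsq : ∀ (S' : Finset (Fin k × Fin k)) (φ : Fin k × Fin k → Bool),
      (∏ x ∈ S', sg (φ x)) ^ 2 ≤ 1 := fun S' φ => by simp [← prod_pow, sg_sq]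
  rw [expect_comm]
  calc _ = 𝔼 ω, 𝔼 i, 𝔼 f : A → Bool, 𝔼 g : B → Bool, 𝔼 μ : B → Fin n, F ω f * Gm ω i g *
        sg (T (v ω i) fun b => (f (π ω i b) ^^ g b) ^^ decide (μ b = 0)) := by
        simp only [expect_prod]
        refine expect_congr rfl fun ω _ => expect_congr rfl fun i _ => expect_congr rfl fun f _ =>
          expect_congr rfl fun g _ => expect_congr rfl fun μ _ => ?_
        rw [← prod_filter_not_mul_prod_filter S (·.2 = j0), ← prod_erase_mul (a := (s0, j0))
          (S.filter (·.2 = j0)) _ (mem_filter.2 ⟨h0, rfl⟩), mul_assoc]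
        congr 1
        · refine prod_congr rfl fun x hx => ?_
          have h1 : x.2 ≠ j0 := (mem_filter.1 hx).2
          have h2 : x ≠ (s0, j0) := by rintro rfl; exact h1 rfl
          unfold qry
          simp only [Function.update_of_ne h1, Function.update_of_ne h2]
        congr 1
        · refine prod_congr rfl fun x hx => ?_
          have h2 : x ≠ (s0, j0) := (mem_erase.1 hx).1
          have h1 : x.2 = j0 := (mem_filter.1 (mem_erase.1 hx).2).2
          have h3 : x.1 ≠ s0 := fun e => h2 (Prod.ext e h1)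
          unfold qry
          simp only [h1, Function.update_self, Function.update_of_ne h2, Function.update_of_ne h3]
        · unfold qry
          simp only [Function.update_self]
    _ ≤ η := by
        refine (abs_le_of_sq_le_sq' ?_ hη).2
        refine (sq_expect_le _).trans ((expect_le_expect fun ω _ => (sq_expect_le _).trans
          (expect_le_expect fun i _ => core hn (π ω i) (T := fun g => sg (T (v ω i) g)) (F ω)
            (fun g => by simp only [hT, sg_not]) fun g => hsq _ _)).trans ?_)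
        simp only [← mul_expect]
        refine le_trans (mul_le_mul_of_nonneg_left (h (fun x => dec fun g => sg (T x g))
          (fun ω => dec (F ω)) ⟨fun _ _ => dec_nonneg _ _, fun x => sum_dec_le fun g => ?_⟩
          ⟨fun _ _ => dec_nonneg _ _, fun ω => sum_dec_le fun f => hsq _ _⟩) (by positivity)) hδ
        rw [sg_sq]

/-- soundness of the test -/
theorem Sound.test {δ η : ℝ} (h : Sound v π δ) (hn : 2 ≤ n) (hη : 0 ≤ η) (hδ : n * δ ≤ η ^ 2)
    (T : V → (B → Bool) → Bool) (hT : ∀ x g, T x (fun b => !g b) = !T x g) :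
    𝔼 ω, 𝔼 r : (Fin k → I) × Rnd k n A B,
      (if ∀ x, T (v ω (r.1 x.2)) (qry (π ω (r.1 x.2)) r.2 x) = false then (1 : ℝ) else 0)
      ≤ 1 / 2 ^ (k * k) + η := by
  have e : ∀ φ : Fin k × Fin k → Bool, (if ∀ x, φ x = false then (1 : ℝ) else 0)
      = (∑ S : Finset (Fin k × Fin k), ∏ x ∈ S, sg (φ x)) / 2 ^ (k * k) := by
    intro φ
    rw [← powerset_univ, ← prod_one_add]
    split_ifs with h1
    · simp only [h1, sg]
      norm_num
    · push Not at h1
      obtain ⟨x, hx⟩ := h1
      rw [prod_eq_zero (mem_univ x) (by simp [sg, hx]), zero_div]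
  simp only [e, ← expect_div, expect_sum_comm]
  rw [div_le_iff₀ (by positivity), add_mul, one_div_mul_cancel (by positivity)]
  calc _ ≤ ∑ S : Finset (Fin k × Fin k), ((if S = ∅ then 1 else 0) + η) := by
        refine sum_le_sum fun S _ => ?_
        split_ifs with h1
        · simp [h1, hη]
        · rw [zero_add]
          exact h.corr hn hη hδ T hT S (nonempty_iff_ne_empty.2 h1)
    _ = _ := by simp [sum_add_distrib, mul_comm]

end Test

end Pool.Agent.Lib.MP_4d0379_lc
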