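import Pool.Agent.Lib.MP_4d0379_lc.Disp

/-! Derandomised graph products. -/

set_option linter.unusedSectionVars false

namespace Pool.Agent.Lib.MP_4d0379_lc

open Finset Pool.Agent.Lib.Complexity

/-- a reduction to graphs that are fractionally `K`-colourable or have no independent set of
density `1 / S` -/
def IndGap {α : Type} [Enc α] (Yes No : α → Prop) (K S : ℕ) : Prop :=
  ∃ (N : α → ℕ) (adj : α → ℕ → ℕ → Bool), PT N ∧
    PT (fun x : α × ℕ × ℕ => adj x.1 x.2.1 x.2.2) ∧ ∀ a, 0 < N a ∧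
    (Yes a → ∃ (R : ℕ) (I : Fin R → Finset ℕ), 0 < R ∧
      (∀ r, ∀ x ∈ I r, ∀ y ∈ I r, adj a x y = false) ∧ ∀ x < N a, R ≤ K * #{r | x ∈ I r}) ∧
    (No a → ∀ X : Finset ℕ, X ⊆ range (N a) → (∀ x ∈ X, ∀ y ∈ X, x ≠ y → adj a x y = false) →
      S * #X ≤ N a)

/-- a reduction to graphs with small chromatic number or small independence number -/
def ColGap {α : Type} [Enc α] (Yes No : α → Prop) (m n0 : ℕ) : Prop :=
  ∃ (n : α → ℕ) (adj : α → ℕ → ℕ → Bool), PT n ∧
    PT (fun x : α × ℕ × ℕ => adj x.1 x.2.1 x.2.2) ∧ ∀ a, n0 ≤ n a ∧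
    (Yes a → ∃ (T : ℕ) (c : ℕ → ℕ), T ^ m ≤ n a ∧ (∀ x < n a, c x < T) ∧
      ∀ x < n a, ∀ y < n a, c x = c y → adj a x y = false) ∧
    (No a → ∀ X : Finset ℕ, X ⊆ range (n a) → (∀ x ∈ X, ∀ y ∈ X, x ≠ y → adj a x y = false) →
      #X ^ m < n a)

theorem exists_cover {J : Type} [Fintype J] [DecidableEq J] [Nonempty J] (n K : ℕ) (hK : 0 < K)
    (I : J → ℕ → Prop) [∀ j x, Decidable (I j x)]
    (h : ∀ x < n, Fintype.card J ≤ K * #{j | I j x}) :
    ∃ f : Fin (K * n.size) → J, ∀ x < n, ∃ i, I (f i) x := by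
  by_contra hc
  push Not at hc
  set t := K * n.size with ht
  set c : ℝ := (Fintype.card J : ℝ) with hcJ
  have hc0 : 0 < c := by rw [hcJ]; exact_mod_cast Fintype.card_pos
  have hK' : (0 : ℝ) < K := by exact_mod_cast hK
  have h1 : #(univ : Finset (Fin t → J))
      ≤ ∑ x ∈ range n, #(Fintype.piFinset fun _ : Fin t => ({j | ¬ I j x} : Finset J)) := by
    refine le_trans (card_le_card fun f _ => ?_) card_biUnion_le
    obtain ⟨x, hx, h2⟩ := hc f
    exact mem_biUnion.2 ⟨x, mem_range.2 hx, Fintype.mem_piFinset.2 fun i => by simpa using h2 i⟩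
  have h2 : c ^ t ≤ n * (c * Real.exp (-(1 / K))) ^ t := by
    have h3 := (Nat.cast_le (α := ℝ)).2 h1
    simp only [card_univ, Fintype.card_fun, Fintype.card_fin, Fintype.card_piFinset, prod_const,
      Nat.cast_pow, Nat.cast_sum] at h3
    refine h3.trans (le_trans (sum_le_sum (g := fun _ => (c * Real.exp (-(1 / K))) ^ t)
      fun x hx => pow_le_pow_left₀ (by positivity) ?_ _) (by simp))
    have h4 : (#{j | I j x} : ℝ) + #{j | ¬ I j x} = c := by
      rw [← Nat.cast_add, card_filter_add_card_filter_not, card_univ]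
    have h5 : c ≤ K * (#{j | I j x} : ℝ) := by
      rw [hcJ]; exact_mod_cast h x (mem_range.1 hx)
    have h6 : c / K ≤ (#{j | I j x} : ℝ) := by rw [div_le_iff₀ hK']; linarith
    have h7 := mul_le_mul_of_nonneg_left (Real.add_one_le_exp (-(1 / K))) hc0.le
    have h8 : c * (-(1 / K) + 1) = c - c / K := by ring
    linarith
  have h3 : (n : ℝ) * Real.exp (-(1 / K)) ^ t < 1 := by
    rw [← Real.exp_nat_mul, ht]
    have e : ((K * n.size : ℕ) : ℝ) * (-(1 / K)) = -(n.size : ℝ) := by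
      push_cast; field_simp
    rw [e, Real.exp_neg, ← div_eq_mul_inv, div_lt_one (Real.exp_pos _)]
    calc (n : ℝ) < 2 ^ n.size := by exact_mod_cast Nat.lt_size_self n
      _ ≤ Real.exp 1 ^ n.size := pow_le_pow_left₀ (by norm_num)
          (by linarith [Real.add_one_le_exp 1]) _
      _ = _ := by rw [← Real.exp_nat_mul, mul_one]
  rw [mul_pow] at h2
  have := mul_lt_mul_of_pos_left h3 (pow_pos hc0 t)
  linarith

theorem size_pow_le (m : ℕ) : ∃ n0 : ℕ, ∀ n, n0 ≤ n → n.size ^ m ≤ n := by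
  have h := (isLittleO_pow_const_const_pow_of_one_lt (R := ℝ) m (by norm_num : (1 : ℝ) < 2)).bound
    (by norm_num : (0 : ℝ) < 1 / 4)
  obtain ⟨s0, hs⟩ := Filter.eventually_atTop.1 h
  refine ⟨2 ^ s0, fun n hn => ?_⟩
  have h1 := hs n.size (Nat.lt_size.2 hn).le
  have h2 := two_pow_size_le n
  have h3 : 1 ≤ n := le_trans Nat.one_le_two_pow hn
  rw [Real.norm_of_nonneg (by positivity), Real.norm_of_nonneg (by positivity)] at h1
  have h4 : ((2 : ℝ) ^ n.size) ≤ 2 * n + 1 := by exact_mod_cast h2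
  have h5 : (1 : ℝ) ≤ n := by exact_mod_cast h3
  have : ((n.size : ℝ)) ^ m ≤ n := by linarith
  exact_mod_cast this

theorem colGap_of_indGap {α : Type} [Enc α] {Yes No : α → Prop} {d : ℕ} (hd : 2 ≤ d)
    (hE : ExpFam d (1 / 4))
    (h : ∀ c : ℕ, ∃ κ, 1 ≤ κ ∧ IndGap Yes No (2 ^ κ) (4 * 2 ^ (c * κ))) (m n0 : ℕ) :
    ColGap Yes No m n0 := by
  classical
  obtain ⟨C, hC⟩ := disperser hd hE m
  obtain ⟨κ, hκ, N, adj, p1, p2, h1⟩ := h (2 * (m + 1) * (C + 1))
  obtain ⟨n1, hn1⟩ := size_pow_le (2 * m)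
  obtain ⟨n, D, Γ, p3, p4, p5, h2⟩ := hC (2 * (m + 1) * (C + 1) * κ)
    (Nat.mul_pos (by positivity) hκ) (n0 + n1 + 1)
  refine ⟨fun a => n (N a), fun a u v =>
    (List.range (D (N a))).any fun c => adj a (Γ (N a) u c) (Γ (N a) v c), by fun_prop,
    by fun_prop, fun a => ?_⟩
  obtain ⟨h3, hy, hn⟩ := h1 a
  obtain ⟨h4, h5, h6, h7⟩ := h2 (N a) h3
  refine ⟨by simp only; omega, fun ha => ?_, fun ha X hX hI => h7 X hX fun c hc => ?_⟩
  · obtain ⟨R, I, hR, h8, h9⟩ := hy ha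
    have : Nonempty (Fin R) := ⟨⟨0, hR⟩⟩
    obtain ⟨f, hf⟩ := exists_cover (J := Fin (D (N a)) → Fin R) (n (N a)) ((2 ^ κ) ^ D (N a))
      (by positivity) (fun r u => ∀ c, Γ (N a) u c.1 ∈ I (r c)) (by
        intro u _
        have e : ({r | ∀ c, Γ (N a) u c.1 ∈ I (r c)} : Finset (Fin (D (N a)) → Fin R))
            = Fintype.piFinset fun c => {r | Γ (N a) u c.1 ∈ I r} := by
          ext r; simp
        rw [e, Fintype.card_piFinset]
        calc _ = ∏ _c : Fin (D (N a)), R := by simp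
          _ ≤ ∏ c : Fin (D (N a)), 2 ^ κ * #{r | Γ (N a) u c.1 ∈ I r} :=
            prod_le_prod' fun c _ => h9 _ (h6 _ _)
          _ = _ := by rw [prod_mul_distrib]; simp)
    choose g hg using hf
    refine ⟨(2 ^ κ) ^ D (N a) * (n (N a)).size, fun u => if hu : u < n (N a) then (g u hu).1 else 0,
      ?_, fun u hu => by simp only [dif_pos hu]; exact (g u hu).2, fun u hu v hv e => ?_⟩
    · have h10 : ((2 ^ κ) ^ D (N a)) ^ (2 * m) ≤ n (N a) := by
        refine (Nat.pow_le_pow_iff_left (by omega : C + 1 ≠ 0)).1 ?_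
        calc _ ≤ 2 ^ (D (N a) * (2 * (m + 1) * (C + 1) * κ)) := by
              rw [← pow_mul, ← pow_mul, ← pow_mul]
              refine Nat.pow_le_pow_right (by norm_num) ?_
              have : 0 ≤ D (N a) * (2 * (C + 1) * κ) := by positivity
              nlinarith
          _ ≤ n (N a) ^ C := h5
          _ ≤ _ := Nat.pow_le_pow_right (by omega) (by omega)
      have h11 := hn1 (n (N a)) (by omega)
      refine (Nat.pow_le_pow_iff_left two_ne_zero).1 ?_
      rw [← pow_mul, mul_comm m, mul_pow, sq]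
      exact Nat.mul_le_mul h10 h11
    · simp only [dif_pos hu, dif_pos hv] at e
      have e' : g u hu = g v hv := Fin.ext e
      simp only [List.any_eq_false, List.mem_range, Bool.not_eq_true]
      intro c hc
      exact h8 _ _ (hg u hu ⟨c, hc⟩) _ (e' ▸ hg v hv ⟨c, hc⟩)
  · refine hn ha _ (fun x hx => ?_) fun x hx y hy hxy => ?_
    · obtain ⟨u, -, rfl⟩ := mem_image.1 hx
      exact mem_range.2 (h6 _ _)
    · obtain ⟨u, hu, rfl⟩ := mem_image.1 hx
      obtain ⟨v, hv, rfl⟩ := mem_image.1 hy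
      have := hI u hu v hv (by rintro rfl; exact hxy rfl)
      simp only [List.any_eq_false, List.mem_range, Bool.not_eq_true] at this
      exact this c hc

end Pool.Agent.Lib.MP_4d0379_lc
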