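import Pool.Agent.Lib.MP_4d0379_lc.Base
import Pool.Agent.Lib.MP_4d0379_lc.Fglss
import Pool.Agent.Lib.MP_4d0379_lc.Prod

/-! Polynomial time families of label cover instances. -/

set_option linter.unusedSectionVars false

namespace Pool.Agent.Lib.MP_4d0379_lc

open Finset Pool.Agent.Lib.Complexity
open scoped BigOperators

/-- a code for a finite type -/
@[instance_reducible]
noncomputable def encFin (X : Type) [Fintype X] : Enc X :=
  Enc.ofInj (Fintype.equivFin X) (Equiv.injective _)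

structure LC (α : Type) [Enc α] where
  A : Type
  B : Type
  V : Type
  [fA : Fintype A]
  [dA : DecidableEq A]
  [nA : Nonempty A]
  [fB : Fintype B]
  [dB : DecidableEq B]
  [nB : Nonempty B]
  [eV : Enc V]
  [dV : DecidableEq V]
  [eP : Enc (B → A)]
  M : α → ℕ
  D : α → ℕ
  v : α → ℕ → ℕ → V
  π : α → ℕ → ℕ → B → A
  pM : PT M
  pD : PT D
  pv : PT fun x : α × ℕ × ℕ => v x.1 x.2.1 x.2.2
  pπ : PT fun x : α × ℕ × ℕ => π x.1 x.2.1 x.2.2
  hM : ∀ a, 0 < M a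
  hD : ∀ a, 0 < D a

attribute [instance] LC.fA LC.dA LC.nA LC.fB LC.dB LC.nB LC.eV LC.dV LC.eP

namespace LC

variable {α : Type} [Enc α] (G H : LC α)

instance (a : α) : Nonempty (Fin (G.M a)) := ⟨⟨0, G.hM a⟩⟩
instance (a : α) : Nonempty (Fin (G.D a)) := ⟨⟨0, G.hD a⟩⟩

def vv (a : α) (ω : Fin (G.M a)) (i : Fin (G.D a)) : G.V := G.v a ω i
def ππ (a : α) (ω : Fin (G.M a)) (i : Fin (G.D a)) : G.B → G.A := G.π a ω i

def Compl (a : α) : Prop :=
  ∃ (σ : G.V → G.B) (τ : Fin (G.M a) → G.A), ∀ ω i, G.ππ a ω i (σ (G.vv a ω i)) = τ ω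

noncomputable def mix : LC α where
  A := G.A
  B := G.B
  V := G.V
  M a := G.M a * 2
  D a := G.M a * G.D a
  v a ω i := if ω % 2 = 0 then G.v a (ω / 2) (i % G.D a) else G.v a (i / G.D a) (i % G.D a)
  π a ω i := if ω % 2 = 0 then G.π a (ω / 2) (i % G.D a) else fun _ => Classical.arbitrary _
  pM := by have := G.pM; fun_prop
  pD := by have := G.pM; have := G.pD; fun_prop
  pv := by have := G.pv; have := G.pD; fun_prop
  pπ := by
    have := G.pπ; have := G.pD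
    exact PT.ite (by fun_prop) (by fun_prop) (PT.const _)
  hM a := by have := G.hM a; omega
  hD a := Nat.mul_pos (G.hM a) (G.hD a)

theorem mix_vv (a : α) : G.mix.vv a
    = fun ω i => mixv (G.vv a) (finProdFinEquiv.symm ω) (finProdFinEquiv.symm i) := by
  funext ω i
  simp [vv, mix, mixv, Fin.ext_iff]

theorem mix_ππ (a : α) : G.mix.ππ a = fun ω i => mixπ (G.ππ a) (Classical.arbitrary _)
    (finProdFinEquiv.symm ω) (finProdFinEquiv.symm i) := by
  funext ω i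
  simp [ππ, mix, mixπ, Fin.ext_iff]

theorem Compl.mix {G : LC α} {a : α} (h : G.Compl a) : G.mix.Compl a := by
  obtain ⟨σ, τ, h⟩ := h
  refine ⟨σ, fun ω => if (finProdFinEquiv.symm ω).2 = 0 then τ (finProdFinEquiv.symm ω).1
    else Classical.arbitrary _, fun ω i => ?_⟩
  rw [mix_vv, mix_ππ]
  simp only [mixv, mixπ]
  split_ifs
  · exact h _ _
  · rfl

theorem ratio_mix {G : LC α} {a : α} {ε : ℝ} (h : Sound (G.vv a) (G.ππ a) (1 - ε)) (h0 : 0 < ε)
    (h1 : ε ≤ 1) : Ratio (G.mix.vv a) (G.mix.ππ a) (1 - ε ^ 2 / 24) := by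
  rw [mix_vv, mix_ππ]
  exact (h.coll.ratio_mix h0 h1 _).reindex _ _

noncomputable def prod : LC α where
  A := G.A × H.A
  B := G.B × H.B
  V := G.V × H.V
  eP := encFin _
  M a := G.M a * H.M a
  D a := G.D a * H.D a
  v a ω i := (G.v a (ω / H.M a) (i / H.D a), H.v a (ω % H.M a) (i % H.D a))
  π a ω i := Prod.map (G.π a (ω / H.M a) (i / H.D a)) (H.π a (ω % H.M a) (i % H.D a))
  pM := G.pM.mul H.pM
  pD := G.pD.mul H.pD
  pv := by have := G.pv; have := H.pv; have := H.pM; have := H.pD; fun_prop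
  pπ := by
    let : Enc (G.B × H.B → G.A × H.A) := encFin _
    have := G.pπ; have := H.pπ; have := H.pM; have := H.pD
    exact (PT.of_fintype fun p : (G.B → G.A) × (H.B → H.A) => Prod.map p.1 p.2).comp
      (f := fun x : α × ℕ × ℕ => (G.π x.1 (x.2.1 / H.M x.1) (x.2.2 / H.D x.1),
        H.π x.1 (x.2.1 % H.M x.1) (x.2.2 % H.D x.1))) (by fun_prop)
  hM a := Nat.mul_pos (G.hM a) (H.hM a)
  hD a := Nat.mul_pos (G.hD a) (H.hD a)

theorem Compl.prod {G H : LC α} {a : α} (h : G.Compl a) (h' : H.Compl a) : (G.prod H).Compl a := by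
  obtain ⟨σ, τ, h⟩ := h
  obtain ⟨σ', τ', h'⟩ := h'
  exact ⟨Prod.map σ σ', fun ω => (τ (finProdFinEquiv.symm ω).1, τ' (finProdFinEquiv.symm ω).2),
    fun ω i => Prod.ext (h (finProdFinEquiv.symm ω).1 (finProdFinEquiv.symm i).1)
      (h' (finProdFinEquiv.symm ω).2 (finProdFinEquiv.symm i).2)⟩

theorem coll_prod {G H : LC α} {a : α} {lam c : ℝ} (h : Ratio (G.vv a) (G.ππ a) lam)
    (hl : 0 ≤ lam) (h' : Coll (H.vv a) (H.ππ a) c) :
    Coll ((G.prod H).vv a) ((G.prod H).ππ a) (lam * c) :=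
  (h.coll_prod hl h').reindex (Ω' := Fin ((G.prod H).M a)) (I' := Fin ((G.prod H).D a))
    finProdFinEquiv.symm finProdFinEquiv.symm

noncomputable def pow : ℕ → LC α
  | 0 => G
  | k + 1 => G.prod (pow k)

theorem Compl.pow {G : LC α} {a : α} (h : G.Compl a) (k : ℕ) : (G.pow k).Compl a := by
  induction k with
  | zero => exact h
  | succ k ih => exact h.prod ih

theorem coll_pow {G : LC α} {a : α} {lam : ℝ} (h : Ratio (G.vv a) (G.ππ a) lam) (hl : 0 ≤ lam)
    (k : ℕ) : Coll ((G.pow k).vv a) ((G.pow k).ππ a) (lam ^ k) := by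
  induction k with
  | zero => exact coll_one
  | succ k ih => rw [pow_succ']; exact coll_prod h hl ih

end LC

/-- label cover with soundness `δ` -/
def LCGap {α : Type} [Enc α] (Yes No : α → Prop) (δ : ℝ) : Prop :=
  ∃ G : LC α, ∀ a, (Yes a → G.Compl a) ∧ (No a → Sound (G.vv a) (G.ππ a) δ)

/-- parallel repetition -/
theorem LCGap.rep {α : Type} [Enc α] {Yes No : α → Prop} {ε δ : ℝ} (h : LCGap Yes No (1 - ε))
    (h0 : 0 < ε) (h1 : ε ≤ 1) (hδ : 0 < δ) : LCGap Yes No δ := by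
  obtain ⟨G, hG⟩ := h
  have h2 : ε ^ 2 ≤ 1 := pow_le_one₀ h0.le h1
  obtain ⟨k, hk⟩ := exists_pow_lt_of_lt_one (pow_pos hδ 2)
    (by have := pow_pos h0 2; linarith : 1 - ε ^ 2 / 24 < 1)
  exact ⟨G.mix.pow k, fun a => ⟨fun ha => ((hG a).1 ha).mix.pow k, fun ha =>
    (LC.coll_pow (LC.ratio_mix ((hG a).2 ha) h0 h1) (by linarith) k).sound hδ.le hk.le⟩⟩

/-- gap satisfiability -/
def SatGap {α : Type} [Enc α] (Yes No : α → Prop) (q : ℕ) (ε : ℝ) : Prop :=
  ∃ ψ : α → CNF, PT ψ ∧ ∀ a, ψ a ≠ [] ∧ (∀ c ∈ ψ a, c ≠ [] ∧ c.length ≤ q) ∧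
    (Yes a → ∃ s, (ψ a).Sat s) ∧
    (No a → ∀ s : ℕ → Bool, ε * (ψ a).length ≤ (ψ a).countP fun c => c.all fun l => s l.1 != l.2)

@[fun_prop] theorem pt_lit {α : Type} [Enc α] (q : ℕ) {φ : α → CNF} {o : α → ℕ} (h : PT φ)
    (ho : PT o) : PT fun a => lit q (φ a) (o a) := by
  unfold lit; fun_prop

@[fun_prop] theorem pt_occs {α : Type} [Enc α] (q : ℕ) {φ : α → CNF} {o : α → ℕ} (h : PT φ)
    (ho : PT o) : PT fun a => occs q (φ a) (o a) :=
  PT.filter (by fun_prop) (PT.dec_eq (PT.fst (pt_lit q (by fun_prop) (by fun_prop))) (by fun_prop))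

@[fun_prop] theorem pt_onb {α : Type} [Enc α] (q : ℕ) {φ : α → CNF} {o i : α → ℕ} (h : PT φ)
    (ho : PT o) (hi : PT i) : PT fun a => onb q (φ a) (o a) (i a) := by
  unfold onb; fun_prop

theorem pt_slot {α : Type} [Enc α] {q : ℕ} (hq : 0 < q) {φ : α → CNF} {o : α → ℕ} (h : PT φ)
    (ho : PT o) : PT fun a => slot hq (φ a) (o a) :=
  PT.prodMk (PT.out (f := fun a => o a % q) (by fun_prop) fun _ => rfl) (pt_lit q h ho).snd

theorem SatGap.lc {α : Type} [Enc α] {Yes No : α → Prop} {q : ℕ} {ε : ℝ} (hq : 0 < q)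
    (h : SatGap Yes No q ε) : LCGap Yes No (1 - ε / (2 * q)) := by
  obtain ⟨ψ, p1, h⟩ := h
  let : Enc ((Fin q → Bool) → Bool) := encFin _
  have p2 : PT fun x : α × ℕ × ℕ => onb q (ψ x.1) (lit q (ψ x.1) x.2.1).1 x.2.2 :=
    pt_onb q (by fun_prop) (pt_lit q (by fun_prop) (by fun_prop)).fst (by fun_prop)
  have hM : ∀ a, 0 < (ψ a).length * q := fun a =>
    Nat.mul_pos (List.length_pos_iff.2 (h a).1) hq
  refine ⟨{ A := Bool, B := Fin q → Bool, V := ℕ, M := fun a => (ψ a).length * q,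
            D := fun a => (ψ a).length * q,
            v := fun a ω i => onb q (ψ a) (lit q (ψ a) ω).1 i / q,
            π := fun a ω i => proj (slot hq (ψ a) (onb q (ψ a) (lit q (ψ a) ω).1 i)),
            pM := by fun_prop, pD := by fun_prop, pv := p2.div (PT.const _),
            pπ := (PT.of_fintype proj).comp (pt_slot hq (by fun_prop) p2), hM := hM, hD := hM },
    fun a => ⟨fun ha => ?_, fun ha =>
      base_sound hq (h a).1 (fun c hc => ((h a).2.1 c hc).1) ((h a).2.2.2 ha)⟩⟩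
  obtain ⟨s, hs⟩ := (h a).2.2.1 ha
  exact ⟨fun c p => decide (s (lit q (ψ a) (q * c + p)).1 = (lit q (ψ a) (q * c + p)).2),
    fun ω => s (lit q (ψ a) ω).1,
    fun ω i => base_complete hq (fun c hc => ((h a).2.1 c hc).2) hs ω.2 i⟩

end Pool.Agent.Lib.MP_4d0379_lc
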