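import Pool.Agent.Lib.MP_4d0379_lc.LC

/-! From label cover to the colouring gap. -/

set_option linter.unusedSectionVars false

namespace Pool.Agent.Lib.MP_4d0379_lc

open Finset Pool.Agent.Lib.Complexity
open scoped BigOperators

theorem pt_dec_exists {α β : Type} [Enc α] [Fintype β] {P : α → β → Prop}
    [∀ a b, Decidable (P a b)] [∀ a, Decidable (∃ b, P a b)]
    (h : ∀ b, PT fun a => decide (P a b)) : PT fun a => decide (∃ b, P a b) := by
  classical
  have key : ∀ l : List β, PT fun a => decide (∃ b ∈ l, P a b) := by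
    intro l
    induction l with
    | nil => exact (PT.const false).of_eq fun a => by simp
    | cons b l ih => exact ((h b).or ih).of_eq fun a => by simp
  exact (key univ.toList).of_eq fun a => by simp

section

variable {α : Type} [Enc α] (G : LC α) (k n R : ℕ) [NeZero n]

abbrev Loc := {l : Fin R → Rnd k n G.A G.B // Bal l}

noncomputable def vxEquiv (a : α) : Fin (G.M a * (G.D a ^ k * Fintype.card (Loc G k n R)))
    ≃ Vx (Fin (G.M a)) (Fin (G.D a)) G.A G.B k n R :=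
  finProdFinEquiv.symm.trans (Equiv.prodCongr (Equiv.refl _) (finProdFinEquiv.symm.trans
    (Equiv.prodCongr finFunctionFinEquiv.symm (Fintype.equivFin _).symm)))

def dω (D k c x : ℕ) : ℕ := x / (D ^ k * c)

def di (D k c x j : ℕ) : ℕ := x % (D ^ k * c) / c / D ^ j % D

def dl (D k : ℕ) {c : ℕ} (h : 0 < c) (x : ℕ) : Fin c := ⟨x % (D ^ k * c) % c, Nat.mod_lt _ h⟩

/-- complementary positions, as a property of the local data -/
def Cf (z z' : Fin k × Fin k) (u : ((G.B → G.A) × Fin (Fintype.card (Loc G k n R))) ×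
    ((G.B → G.A) × Fin (Fintype.card (Loc G k n R)))) : Prop :=
  qq u.1.1 ((Fintype.equivFin _).symm u.1.2).1 z = fun b =>
    !qq u.2.1 ((Fintype.equivFin _).symm u.2.2).1 z' b

def lv (c : ℕ) (a : α) (x j : ℕ) : G.V := G.v a (dω (G.D a) k c x) (di (G.D a) k c x j)

def lπ {c : ℕ} (h : 0 < c) (a : α) (x j : ℕ) : (G.B → G.A) × Fin c :=
  (G.π a (dω (G.D a) k c x) (di (G.D a) k c x j), dl (G.D a) k h x)

open Classical in
noncomputable def fadj (h : 0 < Fintype.card (Loc G k n R)) (a : α) (x y : ℕ) : Bool :=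
  decide (∃ z z' : Fin k × Fin k,
    lv G k (Fintype.card (Loc G k n R)) a x z.2 = lv G k (Fintype.card (Loc G k n R)) a y z'.2 ∧
    Cf G k n R z z' (lπ G k h a x z.2, lπ G k h a y z'.2))

theorem fadj_iff (h : 0 < Fintype.card (Loc G k n R)) (a : α)
    (x y : Fin (G.M a * (G.D a ^ k * Fintype.card (Loc G k n R)))) :
    fadj G k n R h a x y = false
      ↔ ¬ Conf (G.vv a) (G.ππ a) (vxEquiv G k n R a x) (vxEquiv G k n R a y) := by
  unfold fadj
  rw [decide_eq_false_iff_not]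
  rfl

theorem pt_dec_fin {α β : Type} [Enc α] [Enc β] [Fintype β] (P : β → Prop) {f : α → β}
    (hf : PT f) [∀ a, Decidable (P (f a))] : PT fun a => decide (P (f a)) := by
  classical
  exact ((PT.of_fintype fun b => decide (P b)).comp hf).of_eq fun a => by simp

theorem pt_lv (c j : ℕ) {f : α × ℕ × ℕ → ℕ} (hf : PT f) :
    PT fun x : α × ℕ × ℕ => lv G k c x.1 (f x) j := by
  have pD := G.pD
  have pv := G.pv
  unfold lv dω di
  fun_prop

theorem pt_lπ {c : ℕ} (h : 0 < c) (j : ℕ) {f : α × ℕ × ℕ → ℕ} (hf : PT f) :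
    PT fun x : α × ℕ × ℕ => lπ G k h x.1 (f x) j := by
  have pD := G.pD
  refine PT.prodMk (G.pπ.comp (f := fun x : α × ℕ × ℕ =>
    (x.1, dω (G.D x.1) k c (f x), di (G.D x.1) k c (f x) j)) ?_)
    (PT.out (f := fun x : α × ℕ × ℕ => f x % (G.D x.1 ^ k * c) % c) (by fun_prop) fun _ => rfl)
  unfold dω di
  fun_prop

theorem pt_fadj (h : 0 < Fintype.card (Loc G k n R)) :
    PT fun x : α × ℕ × ℕ => fadj G k n R h x.1 x.2.1 x.2.2 := by
  classical
  have q1 : PT fun x : α × ℕ × ℕ => x.2.1 := by fun_prop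
  have q2 : PT fun x : α × ℕ × ℕ => x.2.2 := by fun_prop
  unfold fadj
  refine pt_dec_exists fun z => pt_dec_exists fun z' => ?_
  have q3 := pt_dec_fin (Cf G k n R z z') ((pt_lπ G k h z.2 q1).prodMk (pt_lπ G k h z'.2 q2))
  refine ((PT.dec_eq (pt_lv G k (Fintype.card (Loc G k n R)) z.2 q1)
    (pt_lv G k (Fintype.card (Loc G k n R)) z'.2 q2)).and q3).of_eq fun a => ?_
  rw [Bool.eq_iff_iff]
  simp only [Bool.and_eq_true, decide_eq_true_eq]

end

theorem indGap_of_lc {α : Type} [Enc α] {Yes No : α → Prop} (h : ∀ δ > 0, LCGap Yes No δ)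
    (c : ℕ) : ∃ κ, 1 ≤ κ ∧ IndGap Yes No (2 ^ κ) (4 * 2 ^ (c * κ)) := by
  classical
  obtain ⟨k, hk1, hk⟩ : ∃ k, 1 ≤ k ∧ c * (2 * k + 2) + 4 ≤ k * k :=
    ⟨2 * c + 4, by omega, by nlinarith⟩
  obtain ⟨n, hn⟩ : ∃ n, n = 2 * (k * k) := ⟨_, rfl⟩
  have hn2 : 2 ≤ n := by nlinarith
  have : NeZero n := ⟨by omega⟩
  have hn0 : (0 : ℝ) < n := by exact_mod_cast (by omega : 0 < n)
  obtain ⟨G, hG⟩ := h ((1 / 2 ^ (k * k)) ^ 2 / n) (by positivity)
  obtain ⟨R, hR⟩ : ∃ R, 8 * Fintype.card (Rnd k n G.A G.B) ^ 2 ≤ R := ⟨_, le_rfl⟩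
  have hR0 : 0 < R :=
    lt_of_lt_of_le (by have := Fintype.card_pos (α := Rnd k n G.A G.B); positivity) hR
  have hL : 0 < Fintype.card (Loc G k n R) := by
    have h1 := card_bal hR
    have h2 := Fintype.card_pos (α := Fin R → Rnd k n G.A G.B)
    exact Nat.pos_of_mul_pos_left (h2.trans_le h1)
  refine ⟨2 * k + 2, by omega, fun a => G.M a * (G.D a ^ k * Fintype.card (Loc G k n R)),
    fadj G k n R hL, by have := G.pM; have := G.pD; fun_prop, pt_fadj G k n R hL, fun a =>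
    ⟨Nat.mul_pos (G.hM a) (Nat.mul_pos (pow_pos (G.hD a) _) hL), fun ha => ?_,
      fun ha X hX hI => ?_⟩⟩
  · obtain ⟨σ, τ, h1⟩ := (hG a).1 ha
    refine ⟨R, fun r => ({x | Hon (G.vv a) (G.ππ a) σ r (vxEquiv G k n R a x)} : Finset _).map
      Fin.valEmbedding, hR0, fun r x hx y hy => ?_, fun x hx => ?_⟩
    · obtain ⟨x, hx', rfl⟩ := mem_map.1 hx
      obtain ⟨y, hy', rfl⟩ := mem_map.1 hy
      exact (fadj_iff G k n R hL a x y).2 ((mem_filter.1 hx').2.not_conf (mem_filter.1 hy').2)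
    · refine (card_hon hn.ge h1 (vxEquiv G k n R a ⟨x, hx⟩)).trans
        (Nat.mul_le_mul_left _ (card_le_card fun r hr => ?_))
      simp only [mem_filter, mem_univ, true_and] at hr ⊢
      exact mem_map.2 ⟨⟨x, hx⟩, mem_filter.2 ⟨mem_univ _, hr⟩, rfl⟩
  · have h1 := ((hG a).2 ha).indep_le (k := k) hn2 (by positivity : (0 : ℝ) ≤ 1 / 2 ^ (k * k))
      (le_of_eq (by field_simp)) hR
      ((X.attachFin fun x hx => mem_range.1 (hX hx)).map (vxEquiv G k n R a).toEmbedding) (by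
        intro w hw w' hw' hne
        obtain ⟨x, hx, rfl⟩ := mem_map.1 hw
        obtain ⟨y, hy, rfl⟩ := mem_map.1 hw'
        refine (fadj_iff G k n R hL a x y).1 (hI _ ((mem_attachFin _).1 hx) _
          ((mem_attachFin _).1 hy) fun e => hne ?_)
        rw [Fin.ext e])
    rw [card_map, card_attachFin, ← Fintype.card_congr (vxEquiv G k n R a), Fintype.card_fin] at h1
    have h2 : (2 : ℝ) ^ (c * (2 * k + 2) + 4) ≤ 2 ^ (k * k) := pow_le_pow_right₀ (by norm_num) hk
    rw [pow_add] at h2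
    set N : ℝ := ((G.M a * (G.D a ^ k * Fintype.card (Loc G k n R)) : ℕ) : ℝ) with hN
    have h3 : (#X : ℝ) * 2 ^ (k * k) ≤ 4 * N := by
      rw [← le_div_iff₀ (by positivity)]
      exact h1.trans (le_of_eq (by ring))
    have h4 : (4 * 2 ^ (c * (2 * k + 2)) * #X : ℝ) ≤ N := by
      have := mul_le_mul_of_nonneg_left h2 (by positivity : (0 : ℝ) ≤ #X)
      nlinarith
    rw [hN] at h4
    exact_mod_cast h4

/-- the colouring gap from gap satisfiability and explicit expanders -/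
theorem colGap_of_satGap {α : Type} [Enc α] {Yes No : α → Prop} {q : ℕ} {ε : ℝ} (hq : 0 < q)
    (h0 : 0 < ε) (h1 : ε ≤ 1) (h : SatGap Yes No q ε) {d : ℕ} {lam : ℝ} (hE : ExpFam d lam)
    (hd : 2 ≤ d) (hl0 : 0 ≤ lam) (hl1 : lam < 1) (m n0 : ℕ) : ColGap Yes No m n0 := by
  obtain ⟨d', hd', hE'⟩ := hE.boost hd hl0 hl1
  have hq' : (1 : ℝ) ≤ q := by exact_mod_cast hq
  exact colGap_of_indGap hd' hE' (indGap_of_lc fun δ hδ => (h.lc hq).rep (by positivity)
    (by rw [div_le_one (by positivity)]; linarith) hδ) m n0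

end Pool.Agent.Lib.MP_4d0379_lc
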