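import Mathlib

/-! Parallel repetition of projection games, analytically. -/

set_option linter.unusedSectionVars false

namespace Pool.Agent.Lib.MP_4d0379_lc

open Finset
open scoped BigOperators

theorem sq_expect_le {ι : Type} [Fintype ι] [Nonempty ι] (f : ι → ℝ) :
    (𝔼 i, f i) ^ 2 ≤ 𝔼 i, f i ^ 2 := by
  simpa using expect_mul_sq_le_sq_mul_sq univ f (fun _ => (1 : ℝ))

theorem expect_prod {ι κ : Type} [Fintype ι] [Fintype κ] (f : ι × κ → ℝ) :
    𝔼 x, f x = 𝔼 i, 𝔼 j, f (i, j) := by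
  rw [← expect_product, univ_product_univ]

section Game

variable {Ω I V A B : Type} [Fintype Ω] [Fintype I] [Fintype A] [Fintype B] [DecidableEq A]
  [Nonempty Ω] [Nonempty I]

/-- the linear operator of a projection game -/
noncomputable def gop (v : Ω → I → V) (π : Ω → I → B → A) (h : V → B → ℝ) (ω : Ω) (a : A) : ℝ :=
  𝔼 i, ∑ b, if π ω i b = a then h (v ω i) b else 0

noncomputable def gnorm (v : Ω → I → V) (π : Ω → I → B → A) (h : V → B → ℝ) : ℝ :=
  𝔼 ω, ∑ a, gop v π h ω a ^ 2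

noncomputable def tnorm (v : Ω → I → V) (w : V → ℝ) : ℝ := 𝔼 ω, 𝔼 i, w (v ω i) ^ 2

/-- a fractional strategy -/
def Frac {X Y : Type} [Fintype Y] (p : X → Y → ℝ) : Prop :=
  (∀ x y, 0 ≤ p x y) ∧ ∀ x, ∑ y, p x y ≤ 1

/-- the value of the game is at most `δ` -/
def Sound (v : Ω → I → V) (π : Ω → I → B → A) (δ : ℝ) : Prop :=
  ∀ (p : V → B → ℝ) (q : Ω → A → ℝ), Frac p → Frac q →
    𝔼 ω, 𝔼 i, ∑ b, p (v ω i) b * q ω (π ω i b) ≤ δ

/-- the collision value of the game is at most `c` -/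
def Coll (v : Ω → I → V) (π : Ω → I → B → A) (c : ℝ) : Prop :=
  ∀ p : V → B → ℝ, Frac p → gnorm v π p ≤ c

def Ratio (v : Ω → I → V) (π : Ω → I → B → A) (lam : ℝ) : Prop :=
  ∀ h : V → B → ℝ, (∀ x b, 0 ≤ h x b) → gnorm v π h ≤ lam * tnorm v fun x => ∑ b, h x b

variable {v : Ω → I → V} {π : Ω → I → B → A}

theorem sum_gop_mul (h : V → B → ℝ) (ω : Ω) (q : A → ℝ) :
    ∑ a, gop v π h ω a * q a = 𝔼 i, ∑ b, h (v ω i) b * q (π ω i b) := by
  simp only [gop, expect_mul, ← expect_sum_comm, sum_mul]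
  refine expect_congr rfl fun i _ => ?_
  rw [sum_comm]
  refine sum_congr rfl fun b _ => ?_
  simp

theorem gop_nonneg {h : V → B → ℝ} (h0 : ∀ x b, 0 ≤ h x b) (ω : Ω) (a : A) :
    0 ≤ gop v π h ω a :=
  expect_nonneg fun _ _ => sum_nonneg fun _ _ => by split_ifs; exacts [h0 _ _, le_rfl]

theorem Sound.coll {δ : ℝ} (h : Sound v π δ) : Coll v π δ := by
  intro p hp
  refine le_trans (le_of_eq ?_) (h p (gop v π p) hp ⟨gop_nonneg hp.1, fun ω => ?_⟩)
  · simp only [gnorm, sq, sum_gop_mul]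
  · have := sum_gop_mul (v := v) (π := π) p ω fun _ => 1
    simp only [mul_one] at this
    rw [this]
    exact expect_le univ_nonempty fun i _ => hp.2 _

theorem Frac.sum_sq_le {X Y : Type} [Fintype Y] {p : X → Y → ℝ} (hp : Frac p) (x : X) :
    ∑ y, p x y ^ 2 ≤ 1 :=
  (sum_sq_le_sq_sum_of_nonneg fun y _ => hp.1 x y).trans
    (pow_le_one₀ (sum_nonneg fun y _ => hp.1 x y) (hp.2 x))

theorem Coll.sound {c δ : ℝ} (h : Coll v π c) (hδ : 0 ≤ δ) (hc : c ≤ δ ^ 2) : Sound v π δ := by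
  intro p q hp hq
  simp only [← sum_gop_mul]
  refine abs_le_of_sq_le_sq' ?_ hδ |>.2
  refine (sq_expect_le _).trans (le_trans ?_ ((h p hp).trans hc))
  refine expect_le_expect fun ω _ => (sum_mul_sq_le_sq_mul_sq _ _ _).trans ?_
  exact mul_le_of_le_one_right (sum_nonneg fun _ _ => sq_nonneg _) (hq.sum_sq_le ω)

theorem gnorm_le_tnorm (h : V → B → ℝ) : gnorm v π h ≤ tnorm v fun x => ∑ b, |h x b| := by
  refine expect_le_expect fun ω _ => ?_
  refine (sum_le_sum fun a _ => sq_expect_le _).trans ?_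
  rw [← expect_sum_comm]
  refine expect_le_expect fun i _ => ?_
  calc _ ≤ ∑ a, (∑ b, if π ω i b = a then |h (v ω i) b| else 0) ^ 2 := by
        refine sum_le_sum fun a _ => sq_le_sq.2 ((abs_sum_le_sum_abs _ _).trans
          (le_trans (sum_le_sum fun b _ => ?_) (le_abs_self _)))
        split_ifs <;> simp
    _ ≤ (∑ a, ∑ b, if π ω i b = a then |h (v ω i) b| else 0) ^ 2 :=
        sum_sq_le_sq_sum_of_nonneg fun a _ => sum_nonneg fun b _ => by positivity
    _ = _ := by rw [sum_comm]; simp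

theorem Coll.gnorm_le {ε : ℝ} (hc : Coll v π (1 - ε)) (hε : 0 < ε) (hε1 : ε ≤ 1)
    {h : V → B → ℝ} (h0 : ∀ x b, 0 ≤ h x b) :
    gnorm v π h + (𝔼 ω, 𝔼 i, ∑ b, h (v ω i) b) ^ 2
      ≤ 2 * (1 - ε ^ 2 / 24) * tnorm v fun x => ∑ b, h x b := by
  set w : V → ℝ := fun x => ∑ b, h x b with hw
  set c : ℝ := 𝔼 ω, 𝔼 i, w (v ω i) with hcdef
  set t := tnorm v w with ht
  have hw0 : ∀ x, 0 ≤ w x := fun x => sum_nonneg fun b _ => h0 x b
  let p : V → B → ℝ := fun x b => h x b / w x
  have hp : Frac p := ⟨fun x b => div_nonneg (h0 x b) (hw0 x), fun x => by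
    simp only [p, ← sum_div]
    exact div_self_le_one _⟩
  have hh : ∀ x b, h x b = c * p x b + (w x - c) * p x b := by
    intro x b
    have : h x b = w x * p x b := by
      rcases (hw0 x).eq_or_lt with e | e
      · have := single_le_sum (f := h x) (fun b _ => h0 x b) (mem_univ b)
        have h1 : h x b = 0 := le_antisymm (this.trans e.ge) (h0 x b)
        simp [p, h1]
      · simp only [p]; field_simp
    rw [this]; ring
  have hvar : tnorm v (fun x => w x - c) = t - c ^ 2 := by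
    simp only [tnorm, sub_sq, expect_add_distrib, expect_sub_distrib, ← expect_mul, ← mul_expect,
      Fintype.expect_const, ht, ← hcdef]
    ring
  have h1 : c ^ 2 ≤ t :=
    (sq_expect_le _).trans (expect_le_expect fun ω _ => sq_expect_le _)
  have h2 : gnorm v π h ≤ t := (gnorm_le_tnorm h).trans (le_of_eq (by
    simp only [abs_of_nonneg (h0 _ _)]; rfl))
  have h3 : gnorm v π (fun x b => (w x - c) * p x b) ≤ t - c ^ 2 := by
    rw [← hvar]
    refine (gnorm_le_tnorm _).trans (expect_le_expect fun ω _ => expect_le_expect fun i _ => ?_)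
    simp only [abs_mul, abs_of_nonneg (hp.1 _ _), ← mul_sum, mul_pow, sq_abs]
    exact mul_le_of_le_one_right (sq_nonneg _)
      (pow_le_one₀ (sum_nonneg fun b _ => hp.1 _ b) (hp.2 _))
  have h4 : gnorm v π h ≤ (1 + ε / 2) * c ^ 2 * gnorm v π p
      + (1 + 2 / ε) * gnorm v π (fun x b => (w x - c) * p x b) := by
    simp only [gnorm, mul_expect, ← expect_add_distrib, mul_sum, ← sum_add_distrib]
    refine expect_le_expect fun ω _ => sum_le_sum fun a _ => ?_
    have e : gop v π h ω a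
        = c * gop v π p ω a + gop v π (fun x b => (w x - c) * p x b) ω a := by
      simp only [gop, mul_expect, ← expect_add_distrib, mul_sum, ← sum_add_distrib]
      refine expect_congr rfl fun i _ => sum_congr rfl fun b _ => ?_
      split_ifs
      · exact hh _ _
      · simp
    rw [e]
    set x := c * gop v π p ω a
    set y := gop v π (fun x b => (w x - c) * p x b) ω a
    have e2 : (1 + ε / 2) * c ^ 2 * gop v π p ω a ^ 2 = (1 + ε / 2) * x ^ 2 := by ring
    have e3 : (1 + ε / 2) * x ^ 2 + (1 + 2 / ε) * y ^ 2 - (x + y) ^ 2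
        = (ε * x - 2 * y) ^ 2 / (2 * ε) := by field_simp; ring
    have : 0 ≤ (ε * x - 2 * y) ^ 2 / (2 * ε) := by positivity
    linarith
  have ht0 : 0 ≤ t := (sq_nonneg c).trans h1
  rcases le_total (ε ^ 2 / 12 * t) (t - c ^ 2) with h5 | h5
  · linarith
  · have h6 : (1 + ε / 2) * c ^ 2 * gnorm v π p ≤ (1 + ε / 2) * t * (1 - ε) :=
      mul_le_mul (mul_le_mul_of_nonneg_left h1 (by positivity)) (hc p hp)
        (expect_nonneg fun _ _ => sum_nonneg fun _ _ => sq_nonneg _) (by positivity)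
    have h7 : (1 + 2 / ε) * gnorm v π (fun x b => (w x - c) * p x b)
        ≤ (1 + 2 / ε) * (ε ^ 2 / 12 * t) :=
      mul_le_mul_of_nonneg_left (h3.trans h5) (by positivity)
    have h8 : (1 + 2 / ε) * (ε ^ 2 / 12 * t) = (ε ^ 2 / 12 + ε / 6) * t := by field_simp; ring
    have h9 : ε ^ 2 * t ≤ ε * t := mul_le_mul_of_nonneg_right (by nlinarith) ht0
    have h10 : 0 ≤ ε ^ 2 * t := by positivity
    nlinarith

/-- questions of the mixture of a game with the trivial game -/
def mixv (v : Ω → I → V) (ω : Ω × Fin 2) (i : Ω × I) : V :=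
  if ω.2 = 0 then v ω.1 i.2 else v i.1 i.2

def mixπ (π : Ω → I → B → A) (a0 : A) (ω : Ω × Fin 2) (i : Ω × I) : B → A :=
  if ω.2 = 0 then π ω.1 i.2 else fun _ => a0

theorem expect_fin_two (f : Fin 2 → ℝ) : 𝔼 s, f s = (f 0 + f 1) / 2 := by
  simp [Fintype.expect_eq_sum_div_card]

theorem Coll.ratio_mix {ε : ℝ} (hc : Coll v π (1 - ε)) (hε : 0 < ε) (hε1 : ε ≤ 1) (a0 : A) :
    Ratio (mixv v) (mixπ π a0) (1 - ε ^ 2 / 24) := by
  intro h h0
  have h1 := hc.gnorm_le hε hε1 h0
  have h2 : tnorm (mixv v) (fun x => ∑ b, h x b) = tnorm v fun x => ∑ b, h x b := by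
    simp only [tnorm, expect_prod, expect_fin_two, mixv, if_true, one_ne_zero, if_false,
      Fintype.expect_const, ← expect_div, expect_add_distrib]
    ring
  have h3 : gnorm (mixv v) (mixπ π a0) h
      = (gnorm v π h + (𝔼 ω, 𝔼 i, ∑ b, h (v ω i) b) ^ 2) / 2 := by
    have e : ∀ ω : Ω, ∑ a, gop (mixv v) (mixπ π a0) h (ω, 1) a ^ 2
        = (𝔼 ω, 𝔼 i, ∑ b, h (v ω i) b) ^ 2 := by
      intro ω
      rw [sum_eq_single a0]
      · simp [gop, expect_prod, mixv, mixπ]
      · intro a _ ha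
        simp [gop, mixπ, ha.symm]
      · simp
    have e' : ∀ (ω : Ω) a, gop (mixv v) (mixπ π a0) h (ω, 0) a = gop v π h ω a := by
      intro ω a
      simp [gop, expect_prod, mixv, mixπ]
    simp only [gnorm, expect_prod, expect_fin_two, e, e', Fintype.expect_const, ← expect_div,
      expect_add_distrib]
  rw [h2, h3]
  linarith

variable {Ω' I' V' A' B' : Type} [Fintype Ω'] [Fintype I'] [Fintype A'] [Fintype B']
  [DecidableEq A'] [Nonempty Ω'] [Nonempty I'] {v' : Ω' → I' → V'} {π' : Ω' → I' → B' → A'}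

theorem Ratio.coll_prod {lam c : ℝ} (h : Ratio v π lam) (hl : 0 ≤ lam) (h' : Coll v' π' c) :
    Coll (fun (ω : Ω × Ω') (i : I × I') => (v ω.1 i.1, v' ω.2 i.2))
      (fun ω i => Prod.map (π ω.1 i.1) (π' ω.2 i.2)) (lam * c) := by
  intro p hp
  let g : Ω' → A' → V → B → ℝ := fun ω' a' x b => gop v' π' (fun x' b' => p (x, x') (b, b')) ω' a'
  have e : ∀ ω ω' a a', gop (fun (ω : Ω × Ω') (i : I × I') => (v ω.1 i.1, v' ω.2 i.2))
      (fun ω i => Prod.map (π ω.1 i.1) (π' ω.2 i.2)) p (ω, ω') (a, a')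
      = gop v π (g ω' a') ω a := by
    intro ω ω' a a'
    simp only [gop, g, expect_prod, Fintype.sum_prod_type, Prod.map, Prod.mk.injEq]
    refine expect_congr rfl fun i _ => ?_
    rw [expect_sum_comm]
    refine sum_congr rfl fun b _ => ?_
    by_cases hb : π ω i b = a <;> simp [hb]
  have e2 : ∀ ω' a' x, ∑ b, g ω' a' x b = gop v' π' (fun x' b' => ∑ b, p (x, x') (b, b')) ω' a' := by
    intro ω' a' x
    simp only [g, gop, ← expect_sum_comm]
    refine expect_congr rfl fun i _ => ?_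
    rw [sum_comm]
    refine sum_congr rfl fun b _ => ?_
    split_ifs <;> simp
  calc _ = 𝔼 ω', ∑ a', gnorm v π (g ω' a') := by
        simp only [gnorm, expect_prod, Fintype.sum_prod_type, e]
        rw [expect_comm]
        refine expect_congr rfl fun ω' _ => ?_
        rw [← expect_sum_comm]
        exact expect_congr rfl fun ω _ => sum_comm
    _ ≤ 𝔼 ω', ∑ a', lam * tnorm v fun x => ∑ b, g ω' a' x b :=
        expect_le_expect fun ω' _ => sum_le_sum fun a' _ =>
          h _ fun x b => gop_nonneg (fun _ _ => hp.1 _ _) _ _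
    _ = lam * 𝔼 ω, 𝔼 i, gnorm v' π' (fun x' b' => ∑ b, p (v ω i, x') (b, b')) := by
        simp only [e2, tnorm, gnorm, ← mul_sum, ← mul_expect, ← expect_sum_comm]
        congr 1
        rw [expect_comm]
        exact expect_congr rfl fun ω _ => expect_comm _ _ _
    _ ≤ _ := by
        refine mul_le_mul_of_nonneg_left (expect_le univ_nonempty fun ω _ =>
          expect_le univ_nonempty fun i _ => h' _ ⟨fun x' b' => sum_nonneg fun b _ => hp.1 _ _,
            fun x' => ?_⟩) hl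
        have := hp.2 (v ω i, x')
        rwa [Fintype.sum_prod_type, sum_comm] at this

theorem gop_reindex (e : Ω' ≃ Ω) (e' : I' ≃ I) (h : V → B → ℝ) (ω : Ω') (a : A) :
    gop (fun ω i => v (e ω) (e' i)) (fun ω i => π (e ω) (e' i)) h ω a = gop v π h (e ω) a :=
  Fintype.expect_equiv e' _ _ fun _ => rfl

theorem gnorm_reindex (e : Ω' ≃ Ω) (e' : I' ≃ I) (h : V → B → ℝ) :
    gnorm (fun ω i => v (e ω) (e' i)) (fun ω i => π (e ω) (e' i)) h = gnorm v π h :=
  Fintype.expect_equiv e _ _ fun _ => by simp only [gop_reindex]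

theorem Coll.reindex {c : ℝ} (h : Coll v π c) (e : Ω' ≃ Ω) (e' : I' ≃ I) :
    Coll (fun ω i => v (e ω) (e' i)) (fun ω i => π (e ω) (e' i)) c := fun p hp => by
  rw [gnorm_reindex]; exact h p hp

theorem Ratio.reindex {c : ℝ} (h : Ratio v π c) (e : Ω' ≃ Ω) (e' : I' ≃ I) :
    Ratio (fun ω i => v (e ω) (e' i)) (fun ω i => π (e ω) (e' i)) c := fun p hp => by
  rw [gnorm_reindex]
  refine (h p hp).trans (le_of_eq ?_)
  congr 1
  exact (Fintype.expect_equiv e _ _ fun ω =>
    Fintype.expect_equiv e' _ (fun i => (∑ b, p (v (e ω) i) b) ^ 2) fun _ => rfl).symm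

theorem coll_one : Coll v π 1 := fun p hp =>
  (gnorm_le_tnorm p).trans (expect_le univ_nonempty fun ω _ => expect_le univ_nonempty fun i _ => by
    simp only [abs_of_nonneg (hp.1 _ _)]
    exact pow_le_one₀ (sum_nonneg fun b _ => hp.1 _ b) (hp.2 _))

end Game

end Pool.Agent.Lib.MP_4d0379_lc
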