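import Pool.Agent.Lib.MP_4d0379_lc.Drc

/-! A sum-product estimate in prime fields. -/

set_option linter.unusedSectionVars false

namespace Pool.Agent.Lib.MP_4d0379_lc

open Finset
open scoped Pointwise

theorem card_sq_le_image {ι κ : Type} [DecidableEq ι] [DecidableEq κ] (s : Finset ι) (f : ι → κ) :
    (#s : ℝ) ^ 2 ≤ #(s.image f) * #{q ∈ s ×ˢ s | f q.1 = f q.2} := by
  have h1 : (#s : ℝ) = ∑ w ∈ s.image f, (#{u ∈ s | f u = w} : ℝ) := by
    rw [card_eq_sum_card_image f s]; push_cast; rfl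
  have h2 : (#{q ∈ s ×ˢ s | f q.1 = f q.2} : ℝ) = ∑ w ∈ s.image f, (#{u ∈ s | f u = w} : ℝ) ^ 2 := by
    rw [card_eq_sum_card_fiberwise (f := fun q : ι × ι => f q.1) (t := s.image f)
      (fun q hq => mem_coe.2 (mem_image_of_mem f (mem_product.1 (mem_filter.1 hq).1).1))]
    push_cast
    refine sum_congr rfl fun w _ => ?_
    rw [sq, ← Nat.cast_mul, ← card_product]
    congr 2
    ext q
    simp only [mem_filter, mem_product]
    constructor
    · rintro ⟨⟨⟨a, b⟩, c⟩, d⟩; exact ⟨⟨a, d⟩, b, c ▸ d⟩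
    · rintro ⟨⟨a, d⟩, b, c⟩; exact ⟨⟨⟨a, b⟩, d.trans c.symm⟩, d⟩
  rw [h1, h2]
  exact sq_sum_le_card_mul_sum_sq

section Field

variable {F : Type} [Field F] [DecidableEq F]

/-- the set `B + ξ B` -/
def dil (ξ : F) (B : Finset F) : Finset F := (B ×ˢ B).image fun q => q.1 + ξ * q.2

theorem exists_dil (G B : Finset F) (hG : G.Nonempty) :
    ∃ ξ ∈ G, min ((#B : ℝ) ^ 2) #G ≤ 2 * #(dil ξ B) := by
  let E : F → ℕ := fun ξ =>
    #{q ∈ (B ×ˢ B) ×ˢ (B ×ˢ B) | q.1.1 + ξ * q.1.2 = q.2.1 + ξ * q.2.2}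
  have h1 : ∑ ξ ∈ G, E ξ ≤ #G * #B ^ 2 + #B ^ 4 := by
    simp only [E, card_filter]
    rw [sum_comm]
    calc _ ≤ ∑ q ∈ (B ×ˢ B) ×ˢ (B ×ˢ B), ((if q.1 = q.2 then #G else 0) + 1) := by
          refine sum_le_sum fun q _ => ?_
          rw [← card_filter]
          split_ifs with h
          · exact (card_filter_le _ _).trans (Nat.le_succ _)
          · rw [zero_add]
            refine card_le_one.2 fun a ha b hb => ?_
            have e1 := (mem_filter.1 ha).2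
            have e2 := (mem_filter.1 hb).2
            by_contra hab
            have : (a - b) * (q.1.2 - q.2.2) = 0 := by linear_combination e1 - e2
            have h3 : q.1.2 = q.2.2 := by
              rcases mul_eq_zero.1 this with h | h
              · exact absurd (sub_eq_zero.1 h) hab
              · exact sub_eq_zero.1 h
            rw [h3] at e1
            exact h (Prod.ext (add_right_cancel e1) h3)
      _ = _ := by
          rw [sum_add_distrib, sum_product]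
          simp only [sum_ite_eq, sum_const, card_product, smul_eq_mul, mul_one]
          rw [sum_congr rfl (g := fun _ => #G) (fun x hx => by simp [hx])]
          simp only [sum_const, card_product, smul_eq_mul]
          ring
  have hg : (0 : ℝ) < #G := by exact_mod_cast hG.card_pos
  obtain ⟨ξ, hξ, h2⟩ : ∃ ξ ∈ G, (E ξ : ℝ) ≤ #B ^ 2 + #B ^ 4 / #G := by
    refine exists_le_of_sum_le hG ?_
    rw [sum_const, nsmul_eq_mul]
    have : (#G : ℝ) * (#B ^ 2 + #B ^ 4 / #G) = #G * #B ^ 2 + #B ^ 4 := by field_simp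
    rw [this]
    exact_mod_cast h1
  refine ⟨ξ, hξ, ?_⟩
  have h3 := card_sq_le_image (B ×ˢ B) fun q => q.1 + ξ * q.2
  rw [card_product] at h3
  push_cast at h3
  change _ ≤ (#(dil ξ B) : ℝ) * E ξ at h3
  set d : ℝ := (#(dil ξ B) : ℝ)
  have hd : 0 ≤ d := by positivity
  set b : ℝ := (#B : ℝ)
  set g : ℝ := (#G : ℝ)
  have hb : 0 ≤ b := by positivity
  rcases hb.eq_or_lt with h | hb
  · rw [← h]; simp only [ne_eq, OfNat.ofNat_ne_zero, not_false_eq_true, zero_pow]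
    exact (min_le_left _ _).trans (by positivity)
  have h4 : (b * b) ^ 2 ≤ d * (b ^ 2 + b ^ 4 / g) := h3.trans (mul_le_mul_of_nonneg_left h2 hd)
  have h5 : b ^ 2 * g ≤ d * (g + b ^ 2) := by
    have e : d * (b ^ 2 + b ^ 4 / g) = b ^ 2 * (d * (g + b ^ 2)) / g := by field_simp
    rw [e, le_div_iff₀ hg] at h4
    have : b ^ 2 * (b ^ 2 * g) ≤ b ^ 2 * (d * (g + b ^ 2)) := by nlinarith
    exact le_of_mul_le_mul_left this (by positivity)
  rcases le_total (b ^ 2) g with h | h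
  · rw [min_eq_left h]
    have : b ^ 2 * g ≤ 2 * d * g := by nlinarith
    exact le_of_mul_le_mul_right this hg
  · rw [min_eq_right h]
    have : g * b ^ 2 ≤ 2 * d * b ^ 2 := by nlinarith
    exact le_of_mul_le_mul_right this (by positivity)

theorem card_dil_eq (A : Finset F) {ξ c : F} (hc : c ≠ 0) :
    #((A ×ˢ A).image fun q => c * q.1 + c * ξ * q.2) = #(dil ξ A) := by
  rw [← card_image_of_injective (dil ξ A) (mul_right_injective₀ hc), dil, image_image]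
  congr 2
  funext q
  simp only [Function.comp]
  ring

end Field

/-- growth of `3AA - 3AA` in a prime field -/
theorem gk_growth {p : ℕ} [Fact p.Prime] (A : Finset (ZMod p)) (hA : 1 < #A)
    (Q : ℕ → ZMod p → Prop) (h1 : ∀ a ∈ A, Q 1 a) (hadd : ∀ i j x y, Q i x → Q j y → Q (i + j + 1) (x + y))
    (hmul : ∀ i j x y, Q i x → Q j y → Q (i + j) (x * y)) (hneg : ∀ i x, Q i x → Q i (-x))
    (hmono : ∀ i x, Q i x → Q (i + 4) x) :
    ∃ Z : Finset (ZMod p), min ((#A : ℝ) ^ 2) p ≤ 2 * #Z ∧ ∀ z ∈ Z, Q 13 z := by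
  classical
  have hsub : ∀ a ∈ A, ∀ b ∈ A, Q 3 (a - b) := fun a ha b hb => by
    rw [sub_eq_add_neg]; exact hadd 1 1 _ _ (h1 a ha) (hneg _ _ (h1 b hb))
  let R : ZMod p → Prop := fun ξ => ∃ a ∈ A, ∃ b ∈ A, ∃ c ∈ A, ∃ d ∈ A, c ≠ d ∧ (c - d) * ξ = a - b
  by_cases hR : ∀ ξ, R ξ → R (ξ + 1)
  · have h0 : R 0 := by
      obtain ⟨c, hc, d, hd, hcd⟩ := one_lt_card.1 hA
      exact ⟨c, hc, c, hc, c, hc, d, hd, hcd, by simp⟩
    have hall : ∀ ξ, R ξ := by
      intro ξ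
      obtain ⟨n, rfl⟩ := ZMod.natCast_zmod_surjective ξ
      induction n with
      | zero => simpa using h0
      | succ n ih => push_cast; exact hR _ ih
    obtain ⟨ξ, -, hξ⟩ := exists_dil univ A univ_nonempty
    obtain ⟨a, ha, b, hb, c, hc, d, hd, hcd, e⟩ := hall ξ
    refine ⟨(A ×ˢ A).image fun q => (c - d) * q.1 + (c - d) * ξ * q.2, ?_, ?_⟩
    · rw [card_dil_eq A (sub_ne_zero.2 hcd)]
      simpa using hξ
    · intro z hz
      obtain ⟨q, hq, rfl⟩ := mem_image.1 hz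
      obtain ⟨h2, h3⟩ := mem_product.1 hq
      rw [e]
      exact hmono 9 _ (hadd 4 4 _ _ (hmul 3 1 _ _ (hsub c hc d hd) (h1 _ h2))
        (hmul 3 1 _ _ (hsub a ha b hb) (h1 _ h3)))
  · push Not at hR
    obtain ⟨ξ, ⟨a, ha, b, hb, c, hc, d, hd, hcd, e⟩, hξ⟩ := hR
    refine ⟨(A ×ˢ A).image fun q => (c - d) * q.1 + (c - d) * (ξ + 1) * q.2, ?_, ?_⟩
    · rw [card_dil_eq A (sub_ne_zero.2 hcd), dil, card_image_of_injOn, card_product]
      · push_cast
        refine (min_le_left _ _).trans ?_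
        nlinarith [sq_nonneg (#A : ℝ)]
      · rintro ⟨x, y⟩ hq ⟨x', y'⟩ hq' e'
        simp only [coe_product, Set.mem_prod, mem_coe] at hq hq' e'
        by_cases hy : y = y'
        · subst hy
          rw [add_right_cancel e']
        · exact absurd ⟨x', hq'.1, x, hq.1, y, hq.2, y', hq'.2, hy, by linear_combination e'⟩ hξ
    · intro z hz
      obtain ⟨q, hq, rfl⟩ := mem_image.1 hz
      obtain ⟨h2, h3⟩ := mem_product.1 hq
      rw [mul_add (c - d), e, mul_one]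
      exact hadd 4 8 _ _ (hmul 3 1 _ _ (hsub c hc d hd) (h1 _ h2))
        (hmul 7 1 _ _ (hadd 3 3 _ _ (hsub a ha b hb) (hsub c hc d hd)) (h1 _ h3))

section Good

variable {F : Type} [Field F] [DecidableEq F]

/-- the dilate of `S` by `ξ` is covered by `M` translates of `S` -/
def Good (S : Finset F) (ξ : F) (M : ℝ) : Prop :=
  ∃ T : Finset F, (#T : ℝ) ≤ M ∧ ∀ s ∈ S, ∃ t ∈ T, ∃ s' ∈ S, ξ * s = t + s'

variable {S : Finset F} {ξ η : F} {M M' M0 : ℝ}

theorem Good.mono (h : Good S ξ M) (hM : M ≤ M') : Good S ξ M' :=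
  let ⟨T, h1, h2⟩ := h; ⟨T, h1.trans hM, h2⟩

theorem Good.neg (hS : ∀ s ∈ S, -s ∈ S) (h : Good S ξ M) : Good S (-ξ) M := by
  obtain ⟨T, h1, h2⟩ := h
  refine ⟨T, h1, fun s hs => ?_⟩
  obtain ⟨t, ht, s', hs', e⟩ := h2 _ (hS s hs)
  exact ⟨t, ht, s', hs', by rw [← e]; ring⟩

theorem card_add_le_real (T T' : Finset F) (h : (#T : ℝ) ≤ M) (h' : (#T' : ℝ) ≤ M') :
    (#(T + T') : ℝ) ≤ M * M' := by
  calc (#(T + T') : ℝ) ≤ #T * #T' := by exact_mod_cast card_add_le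
    _ ≤ _ := mul_le_mul h h' (by positivity) (le_trans (by positivity) h)

theorem Good.mul (h : Good S ξ M) (h' : Good S η M') : Good S (ξ * η) (M * M') := by
  obtain ⟨T, h1, h2⟩ := h
  obtain ⟨T', h3, h4⟩ := h'
  refine ⟨T + T'.image (ξ * ·), card_add_le_real _ _ h1
    (le_trans (by exact_mod_cast card_image_le) h3), fun s hs => ?_⟩
  obtain ⟨t', ht', s', hs', e⟩ := h4 s hs
  obtain ⟨t, ht, s'', hs'', e'⟩ := h2 s' hs'
  exact ⟨t + ξ * t', add_mem_add ht (mem_image_of_mem _ ht'), s'', hs'', by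
    rw [mul_assoc, e, mul_add, e']; ring⟩

theorem Good.add {T0 : Finset F} (hT0 : (#T0 : ℝ) ≤ M0) (h0 : S + S ⊆ T0 + S)
    (h : Good S ξ M) (h' : Good S η M') : Good S (ξ + η) (M * M' * M0) := by
  obtain ⟨T, h1, h2⟩ := h
  obtain ⟨T', h3, h4⟩ := h'
  refine ⟨T + T' + T0, card_add_le_real _ _ (card_add_le_real _ _ h1 h3) hT0, fun s hs => ?_⟩
  obtain ⟨t', ht', s', hs', e'⟩ := h4 s hs
  obtain ⟨t, ht, s'', hs'', e⟩ := h2 s hs
  obtain ⟨t0, ht0, r, hr, e0⟩ := mem_add.1 (h0 (add_mem_add hs' hs''))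
  exact ⟨t + t' + t0, add_mem_add (add_mem_add ht ht') ht0, r, hr, by
    rw [add_mul, e, e', add_assoc _ t0, e0]; ring⟩

theorem Good.card_dil {T0 : Finset F} (hT0 : (#T0 : ℝ) ≤ M0) (h0 : S + S ⊆ T0 + S)
    (h : Good S ξ M) : (#(dil ξ S) : ℝ) ≤ M * M0 * #S := by
  obtain ⟨T, h1, h2⟩ := h
  refine le_trans ?_ (card_add_le_real _ S (card_add_le_real _ _ h1 hT0) le_rfl)
  refine Nat.cast_le.2 (card_le_card fun z hz => ?_)
  obtain ⟨q, hq, rfl⟩ := mem_image.1 hz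
  obtain ⟨h3, h4⟩ := mem_product.1 hq
  obtain ⟨t, ht, s, hs, e⟩ := h2 _ h4
  obtain ⟨t0, ht0, r, hr, e0⟩ := mem_add.1 (h0 (add_mem_add h3 hs))
  rw [e, show q.1 + (t + s) = t + t0 + r by rw [add_assoc, e0]; ring]
  exact add_mem_add (add_mem_add ht ht0) hr

theorem exists_cover_double {W : Finset F} (hW : W.Nonempty) {σ : ℝ}
    (h : (#(W - W) : ℝ) ≤ σ * #W) :
    ∃ T0 : Finset F, (#T0 : ℝ) ≤ σ ^ 5 ∧ (W - W) + (W - W) ⊆ T0 + (W - W) := by
  have h1 := pluennecke_ruzsa_inequality_nsmul_sub_nsmul_sub hW W 3 2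
  have h2 : (W - W) + (W - W) + W = 3 • W - 2 • W := by
    simp only [succ_nsmul, zero_nsmul, zero_add, sub_eq_add_neg, neg_add]
    ac_rfl
  have hw : (0 : ℝ) < #W := by exact_mod_cast hW.card_pos
  have h3 : (#((W - W) + (W - W) + W) : ℝ) ≤ σ ^ 5 * #W := by
    rw [h2]
    have h4 : (#(3 • W - 2 • W) : ℝ) ≤ ((#(W - W) : ℝ) / #W) ^ (3 + 2) * #W := by
      have := (NNRat.cast_le (K := ℝ)).2 h1
      simpa using this
    refine h4.trans (mul_le_mul_of_nonneg_right (pow_le_pow_left₀ (by positivity) ?_ _) hw.le)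
    rwa [div_le_iff₀ hw]
  obtain ⟨T, -, h5, h6⟩ := ruzsa_covering_add hW h3
  exact ⟨T, h5, h6⟩

theorem good_of_inter {W Y T0 : Finset F} (hW : W.Nonempty) (hξ : ξ ≠ 0) (hY : Y ⊆ W)
    (hY' : ∀ y ∈ Y, ξ * y ∈ W) (hT0 : (#T0 : ℝ) ≤ M0)
    (h0 : (W - W) + (W - W) ⊆ T0 + (W - W)) (hYne : Y.Nonempty)
    (h : (#(W - W) : ℝ) ^ 2 ≤ M * #Y * #W) : Good (W - W) ξ (M * M * M0) := by
  let V := W.image (ξ * ·)
  let X := Y.image (-ξ * ·)
  have hy : (0 : ℝ) < #Y := by exact_mod_cast hYne.card_pos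
  have h1 := ruzsa_triangle_inequality_add_add_add V X W
  have hX : #X = #Y := card_image_of_injective _ (mul_right_injective₀ (neg_ne_zero.2 hξ))
  have h2 : #(V + X) ≤ #(W - W) := by
    refine le_trans (card_le_card (t := (W - W).image (ξ * ·)) fun z hz => ?_) card_image_le
    obtain ⟨v, hv, x, hx, rfl⟩ := mem_add.1 hz
    obtain ⟨w, hw, rfl⟩ := mem_image.1 hv
    obtain ⟨y, hy, rfl⟩ := mem_image.1 hx
    exact mem_image.2 ⟨w - y, sub_mem_sub hw (hY hy), by ring⟩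
  have h3 : #(X + W) ≤ #(W - W) := by
    refine card_le_card fun z hz => ?_
    obtain ⟨x, hx, w, hw, rfl⟩ := mem_add.1 hz
    obtain ⟨y, hy, rfl⟩ := mem_image.1 hx
    exact mem_sub.2 ⟨w, hw, ξ * y, hY' y hy, by ring⟩
  have h4 : (#(V + W) : ℝ) ≤ M * #W := by
    have h5 : (#(V + W) : ℝ) * #Y ≤ (#(W - W) : ℝ) ^ 2 := by
      rw [← hX, sq]
      exact_mod_cast h1.trans (Nat.mul_le_mul h2 h3)
    have : (#(V + W) : ℝ) * #Y ≤ M * #W * #Y := by linarith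
    exact le_of_mul_le_mul_right this hy
  obtain ⟨T, -, h5, h6⟩ := ruzsa_covering_add hW h4
  refine ⟨T + -T + T0, card_add_le_real _ _ (card_add_le_real _ _ h5 (by simpa using h5)) hT0,
    fun s hs => ?_⟩
  obtain ⟨w, hw, w', hw', rfl⟩ := mem_sub.1 hs
  obtain ⟨t, ht, r, hr, e⟩ := mem_add.1 (h6 (mem_image_of_mem _ hw))
  obtain ⟨t', ht', r', hr', e'⟩ := mem_add.1 (h6 (mem_image_of_mem _ hw'))
  have hr'' : -r' ∈ W - W := by
    obtain ⟨a, ha, b, hb, rfl⟩ := mem_sub.1 hr'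
    exact mem_sub.2 ⟨b, hb, a, ha, by ring⟩
  obtain ⟨t0, ht0, u, hu, e0⟩ := mem_add.1 (h0 (add_mem_add hr hr''))
  refine ⟨t + -t' + t0, add_mem_add (add_mem_add ht (neg_mem_neg ht')) ht0, u, hu, ?_⟩
  rw [mul_sub, ← e, ← e', add_assoc _ t0, e0]
  ring

end Good

theorem exists_popular {F : Type} [DecidableEq F] (A B : Finset F) (U : Finset (F × F))
    (hU : U ⊆ A ×ˢ B) {K R : ℝ} (hK : 0 < K) (hR : 0 < R) (hA : (#A : ℝ) ≤ K) (hB : (#B : ℝ) ≤ K)
    (h : K ^ 2 ≤ R * #U) : ∃ x0 ∈ A, K ≤ 2 * R ^ 2 *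
      #{x ∈ A | K ≤ 2 * R ^ 2 * #{b ∈ B | (x, b) ∈ U ∧ (x0, b) ∈ U}} := by
  let I : F → F → ℕ := fun x0 x => #{b ∈ B | (x, b) ∈ U ∧ (x0, b) ∈ U}
  have h1 := card_sq_le_image U Prod.snd
  have h2 : (#(U.image Prod.snd) : ℝ) ≤ K := by
    refine le_trans (Nat.cast_le.2 (card_le_card fun b hb => ?_)) hB
    obtain ⟨u, hu, rfl⟩ := mem_image.1 hb
    exact (mem_product.1 (hU hu)).2
  have h3 : #{q ∈ U ×ˢ U | q.1.2 = q.2.2} ≤ ∑ x0 ∈ A, ∑ x ∈ A, I x0 x := by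
    rw [← sum_product' (f := I), ← card_sigma]
    refine card_le_card_of_injOn (fun q => ⟨(q.2.1, q.1.1), q.1.2⟩) ?_ ?_
    · rintro ⟨⟨x, b⟩, x0, b'⟩ hq
      simp only [coe_filter, mem_product, Set.mem_ofPred_eq] at hq
      obtain ⟨⟨h4, h5⟩, rfl⟩ := hq
      have h6 := mem_product.1 (hU h4)
      have h7 := mem_product.1 (hU h5)
      simp only [coe_sigma, Set.mem_sigma_iff, mem_coe, mem_product, mem_filter]
      exact ⟨⟨h7.1, h6.1⟩, h6.2, h4, h5⟩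
    · rintro ⟨⟨x, b⟩, x0, b'⟩ hq ⟨⟨y, c⟩, y0, c'⟩ hq' e
      simp only [coe_filter, mem_product, Set.mem_ofPred_eq] at hq hq'
      simp only [Sigma.mk.injEq, Prod.mk.injEq, heq_eq_eq] at e
      obtain ⟨⟨rfl, rfl⟩, rfl⟩ := e
      obtain ⟨-, rfl⟩ := hq
      obtain ⟨-, rfl⟩ := hq'
      rfl
  have h4 : K ^ 3 ≤ R ^ 2 * ∑ x0 ∈ A, ∑ x ∈ A, (I x0 x : ℝ) := by
    have h5 : (#{q ∈ U ×ˢ U | q.1.2 = q.2.2} : ℝ) ≤ ∑ x0 ∈ A, ∑ x ∈ A, (I x0 x : ℝ) := by
      exact_mod_cast h3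
    have h6 : (#U : ℝ) ^ 2 ≤ K * ∑ x0 ∈ A, ∑ x ∈ A, (I x0 x : ℝ) :=
      h1.trans (mul_le_mul h2 h5 (by positivity) hK.le)
    have h7 : (K ^ 2) ^ 2 ≤ (R * #U) ^ 2 := pow_le_pow_left₀ (by positivity) h 2
    have h8 : K * K ^ 3 ≤ K * (R ^ 2 * ∑ x0 ∈ A, ∑ x ∈ A, (I x0 x : ℝ)) := by
      have := mul_le_mul_of_nonneg_left h6 (sq_nonneg R)
      nlinarith
    exact le_of_mul_le_mul_left h8 hK
  have hAne : A.Nonempty := by
    rcases A.eq_empty_or_nonempty with rfl | h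
    · simp at h4; nlinarith [pow_pos hK 3]
    · exact h
  obtain ⟨x0, hx0, h5⟩ : ∃ x0 ∈ A, K ^ 2 ≤ R ^ 2 * ∑ x ∈ A, (I x0 x : ℝ) := by
    refine exists_le_of_sum_le hAne ?_
    rw [← mul_sum, sum_const, nsmul_eq_mul]
    nlinarith [mul_le_mul_of_nonneg_right hA (sq_nonneg K)]
  refine ⟨x0, hx0, ?_⟩
  set X := {x ∈ A | K ≤ 2 * R ^ 2 * (I x0 x : ℝ)} with hX
  have h6 : ∑ x ∈ A, 2 * R ^ 2 * (I x0 x : ℝ) ≤ 2 * R ^ 2 * #X * K + K * K := by
    rw [← sum_filter_add_sum_filter_not A (fun x => K ≤ 2 * R ^ 2 * (I x0 x : ℝ))]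
    refine add_le_add ?_ ?_
    · calc _ ≤ ∑ x ∈ X, 2 * R ^ 2 * K := sum_le_sum fun x _ => mul_le_mul_of_nonneg_left
            (le_trans (Nat.cast_le.2 (card_filter_le _ _)) hB) (by positivity)
        _ = _ := by rw [sum_const, nsmul_eq_mul]; ring
    · calc _ ≤ ∑ x ∈ A with ¬ K ≤ 2 * R ^ 2 * (I x0 x : ℝ), K :=
            sum_le_sum fun x hx => (not_le.1 (mem_filter.1 hx).2).le
        _ ≤ K * K := by
          rw [sum_const, nsmul_eq_mul]
          exact mul_le_mul_of_nonneg_right (le_trans (Nat.cast_le.2 (card_filter_le _ _)) hA) hK.le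
  rw [← mul_sum] at h6
  have h7 : K * K ≤ 2 * R ^ 2 * #X * K := by nlinarith
  exact le_of_mul_le_mul_right h7 hK

/-- the sum-product estimate -/
theorem sumprod {p : ℕ} [Fact p.Prime] (A B C D : Finset (ZMod p)) {K L : ℝ} (hK : 0 < K)
    (hL : 2 ≤ L) (hA : (#A : ℝ) ≤ K) (hB : (#B : ℝ) ≤ K) (hC : (#C : ℝ) ≤ K) (hD : (#D : ℝ) ≤ K)
    (he : K ^ 3 ≤ L * #{q ∈ (A ×ˢ B) ×ˢ C | q.1.1 * q.1.2 + q.2 ∈ D}) :
    K ≤ L ^ 3100 ∨ (p : ℝ) ≤ L ^ 3100 * K := by
  have hL0 : 0 < L := by linarith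
  have hL1 : 1 ≤ L := by linarith
  have hpow : ∀ a b : ℕ, a ≤ b → L ^ a ≤ L ^ b := fun a b h => pow_le_pow_right₀ hL1 h
  have h2pow : ∀ a : ℕ, (2 : ℝ) ^ a ≤ L ^ a := fun a => pow_le_pow_left₀ (by norm_num) hL a
  by_cases hKL : K ≤ 2 * L
  · exact Or.inl (hKL.trans (le_trans (by nlinarith) (hpow 2 _ (by norm_num))))
  push Not at hKL
  set A' := A.erase 0 with hA'
  have hA'K : (#A' : ℝ) ≤ K := le_trans (Nat.cast_le.2 card_erase_le) hA
  let φ : ZMod p × ZMod p → ZMod p := fun u => u.1 * u.2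
  have he' : K ^ 3 ≤ 2 * L * ∑ c ∈ C, (#{u ∈ A' ×ˢ B | φ u + c ∈ D} : ℝ) := by
    have h1 : #{q ∈ (A ×ˢ B) ×ˢ C | q.1.1 * q.1.2 + q.2 ∈ D}
        ≤ ∑ c ∈ C, #{u ∈ A' ×ˢ B | φ u + c ∈ D} + #B * #C := by
      calc _ ≤ #({q ∈ (A' ×ˢ B) ×ˢ C | q.1.1 * q.1.2 + q.2 ∈ D} ∪ ({0} ×ˢ B) ×ˢ C) := by
            refine card_le_card fun q hq => ?_
            simp only [mem_filter, mem_product, mem_union, hA', mem_erase, mem_singleton] at hq ⊢
            tauto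
        _ ≤ _ := by
            refine (card_union_le _ _).trans (add_le_add (le_of_eq ?_) (by simp))
            simp only [card_filter]
            rw [sum_product, sum_comm]
    have h2 := (Nat.cast_le (α := ℝ)).2 h1
    push_cast at h2
    have h3 : (#B : ℝ) * #C ≤ K * K := mul_le_mul hB hC (by positivity) hK.le
    have h4 : L * (K * K) ≤ K ^ 3 / 2 := by nlinarith [mul_pos hK hK]
    nlinarith
  have hfib : ∀ w, (#{u ∈ A' ×ˢ B | φ u = w} : ℝ) ≤ K := by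
    intro w
    refine le_trans (Nat.cast_le.2 (card_le_card_of_injOn Prod.fst ?_ ?_)) hA'K
    · intro u hu
      exact (mem_product.1 (mem_filter.1 hu).1).1
    · rintro ⟨x, b⟩ hu ⟨x', b'⟩ hu' e
      simp only at e
      subst e
      have h1 := mem_filter.1 hu
      have h2 := mem_filter.1 hu'
      have h3 : x ≠ 0 := (mem_erase.1 (mem_product.1 h1.1).1).1
      exact Prod.ext rfl (mul_left_cancel₀ h3 (h1.2.trans h2.2.symm))
  obtain ⟨U, hU, h1, h2⟩ := drc (A' ×ˢ B) φ C D hK (by positivity : 0 < 2 * L)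
    (by rw [card_product, sq]; push_cast; exact mul_le_mul hA'K hB (by positivity) hK.le)
    hC hD hfib he'
  set W := U.image φ with hW
  set S := W - W with hS
  have h3 : K ^ 2 ≤ L ^ 4 * #U := by
    refine h1.trans (mul_le_mul_of_nonneg_right ?_ (by positivity))
    nlinarith [h2pow 3]
  have h4 : (#S : ℝ) ≤ L ^ 20 * K := by
    refine h2.trans (mul_le_mul_of_nonneg_right ?_ hK.le)
    have := mul_le_mul_of_nonneg_right (h2pow 15) (pow_pos hL0 5).le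
    nlinarith
  have h5 : K ≤ L ^ 4 * #W := by
    have := card_image_ge (A' ×ˢ B) φ hfib hU
    have h6 : K * K ≤ K * (L ^ 4 * #W) := by
      have := mul_le_mul_of_nonneg_left this (pow_pos hL0 4).le
      nlinarith
    exact le_of_mul_le_mul_left h6 hK
  have hWne : W.Nonempty := by
    rcases W.eq_empty_or_nonempty with h | h
    · rw [h] at h5; simp at h5; linarith
    · exact h
  obtain ⟨T0, hT0, h0⟩ := exists_cover_double hWne (σ := L ^ 24) (by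
    have := mul_le_mul_of_nonneg_left h5 (pow_pos hL0 20).le
    calc (#S : ℝ) ≤ _ := h4
      _ ≤ _ := this
      _ = _ := by ring)
  rw [← pow_mul] at hT0
  obtain ⟨x0, hx0, h6⟩ := exists_popular A' B U hU hK (pow_pos hL0 4) hA'K hB h3
  have hx00 : x0 ≠ 0 := (mem_erase.1 hx0).1
  have h29 : 2 * (L ^ 4) ^ 2 ≤ L ^ 9 := by
    have := mul_le_mul_of_nonneg_right hL (pow_pos hL0 8).le
    nlinarith
  set X := {x ∈ A' | K ≤ 2 * (L ^ 4) ^ 2 * #{b ∈ B | (x, b) ∈ U ∧ (x0, b) ∈ U}} with hX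
  let Ξ := X.image (· * x0⁻¹)
  have hΞ : K ≤ L ^ 9 * #Ξ := by
    rw [card_image_of_injective _ (mul_left_injective₀ (inv_ne_zero hx00))]
    exact h6.trans (mul_le_mul_of_nonneg_right h29 (by positivity))
  by_cases hΞ1 : #Ξ ≤ 1
  · refine Or.inl (hΞ.trans (le_trans ?_ (hpow 9 _ (by norm_num))))
    have : (#Ξ : ℝ) ≤ 1 := by exact_mod_cast hΞ1
    nlinarith [pow_pos hL0 9]
  have hSneg : ∀ s ∈ S, -s ∈ S := by
    intro s hs
    obtain ⟨a, ha, b, hb, rfl⟩ := mem_sub.1 hs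
    exact mem_sub.2 ⟨b, hb, a, ha, by ring⟩
  have hM1 : 1 ≤ L ^ 226 := one_le_pow₀ hL1
  obtain ⟨Z, hZ, hZ'⟩ := gk_growth Ξ (not_le.1 hΞ1) (fun i ξ => Good S ξ ((L ^ 226) ^ i))
    (by
      intro ξ hξ
      obtain ⟨x, hx, rfl⟩ := mem_image.1 hξ
      obtain ⟨hx1, hx2⟩ := mem_filter.1 hx
      set Bx := {b ∈ B | (x, b) ∈ U ∧ (x0, b) ∈ U} with hBx
      have hY : K ≤ L ^ 9 * #(Bx.image (x0 * ·)) := by
        rw [card_image_of_injective _ (mul_right_injective₀ hx00)]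
        exact hx2.trans (mul_le_mul_of_nonneg_right h29 (by positivity))
      refine (good_of_inter (Y := Bx.image (x0 * ·)) (M := L ^ 53) hWne
        (mul_ne_zero (mem_erase.1 hx1).1 (inv_ne_zero hx00)) ?_ ?_ hT0 h0 ?_ ?_).mono
        (le_of_eq (by ring))
      · intro y hy
        obtain ⟨b, hb, rfl⟩ := mem_image.1 hy
        exact mem_image.2 ⟨_, (mem_filter.1 hb).2.2, rfl⟩
      · intro y hy
        obtain ⟨b, hb, rfl⟩ := mem_image.1 hy
        exact mem_image.2 ⟨_, (mem_filter.1 hb).2.1, by simp only [φ]; field_simp⟩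
      · rcases (Bx.image (x0 * ·)).eq_empty_or_nonempty with h | h
        · rw [h] at hY; simp at hY; linarith
        · exact h
      · calc (#S : ℝ) ^ 2 ≤ (L ^ 20 * K) ^ 2 := pow_le_pow_left₀ (by positivity) h4 2
          _ = L ^ 40 * (K * K) := by ring
          _ ≤ L ^ 40 * (L ^ 9 * #(Bx.image (x0 * ·)) * (L ^ 4 * #W)) :=
            mul_le_mul_of_nonneg_left (mul_le_mul hY h5 hK.le (by positivity)) (by positivity)
          _ = _ := by ring)
    (fun i j x y hx hy => (hx.add (hT0.trans (hpow _ 226 (by norm_num))) h0 hy).mono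
      (le_of_eq (by rw [pow_add, pow_add, pow_one])))
    (fun i j x y hx hy => (hx.mul hy).mono (le_of_eq (by rw [pow_add])))
    (fun i x hx => hx.neg hSneg)
    (fun i x hx => hx.mono (pow_le_pow_right₀ hM1 (by omega)))
  have hp0 : (0 : ℝ) < p := by exact_mod_cast (Fact.out : p.Prime).pos
  have hΞ0 : (0 : ℝ) < #Ξ := by exact_mod_cast (by omega : 0 < #Ξ)
  have hZne : Z.Nonempty := by
    rcases Z.eq_empty_or_nonempty with h | h
    · rw [h] at hZ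
      have : 0 < min ((#Ξ : ℝ) ^ 2) p := lt_min (by positivity) hp0
      simp only [card_empty, Nat.cast_zero, mul_zero] at hZ
      linarith
    · exact h
  obtain ⟨ξ, hξ, h7⟩ := exists_dil Z S hZne
  have h8 := (hZ' ξ hξ).card_dil hT0 h0
  have hWS : (#W : ℝ) ≤ #S := Nat.cast_le.2 (card_le_card_sub_right hWne)
  have hS0 : (0 : ℝ) < #S := lt_of_lt_of_le (by exact_mod_cast hWne.card_pos) hWS
  have h9 : 2 * (#(dil ξ S) : ℝ) ≤ L ^ 3059 * #S := by
    calc 2 * (#(dil ξ S) : ℝ) ≤ L * ((L ^ 226) ^ 13 * L ^ (24 * 5) * #S) :=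
          mul_le_mul hL h8 (by positivity) hL0.le
      _ = _ := by ring
  rcases min_le_iff.1 (h7.trans h9) with h | h
  · left
    have : (#S : ℝ) ≤ L ^ 3059 := le_of_mul_le_mul_right (by rwa [← sq]) hS0
    calc K ≤ L ^ 4 * #W := h5
      _ ≤ L ^ 4 * L ^ 3059 := mul_le_mul_of_nonneg_left (hWS.trans this) (by positivity)
      _ ≤ _ := by rw [← pow_add]; exact hpow _ _ (by norm_num)
  · have h10 : 2 * (#Z : ℝ) ≤ L ^ 3080 * K := by
      calc 2 * (#Z : ℝ) ≤ L * (L ^ 3059 * (L ^ 20 * K)) :=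
            mul_le_mul hL (h.trans (mul_le_mul_of_nonneg_left h4 (by positivity))) (by positivity)
              hL0.le
        _ = _ := by ring
    rcases min_le_iff.1 (hZ.trans h10) with h | h
    · left
      have h11 : K * K ≤ L ^ 3098 * K := by
        calc K * K ≤ (L ^ 9 * #Ξ) * (L ^ 9 * #Ξ) := mul_le_mul hΞ hΞ hK.le (by positivity)
          _ = L ^ 18 * (#Ξ : ℝ) ^ 2 := by ring
          _ ≤ L ^ 18 * (L ^ 3080 * K) := mul_le_mul_of_nonneg_left h (by positivity)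
          _ = _ := by ring
      exact (le_of_mul_le_mul_right h11 hK).trans (hpow _ _ (by norm_num))
    · exact Or.inr (h.trans (mul_le_mul_of_nonneg_right (hpow _ _ (by norm_num)) hK.le))

end Pool.Agent.Lib.MP_4d0379_lc
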