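import Pool.Agent.Lib.MP_4d0379_lc.Final
import Pool.Agent.Lib.MP_67c02a_lc.Pcp

/-! Putting everything together. -/

namespace Pool.Agent.Lib.MP_4d0379_lc

open Finset Pool.Agent.Lib.Complexity N68a2faeb
open Pool.Agent.Lib.MP_67c02a_lc (rotE rotE_lt rotE_rotE poincare pt_rotE pcp)

noncomputable def ptE : Fin 32 ≃ MP_67c02a_lc.Pt := (Fintype.equivFinOfCardEq (by simp)).symm

noncomputable def nbE (n v i : ℕ) : ℕ :=
  if i < 32 then (rotE n (v, ptE (Fin.ofNat 32 i))).1 else v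

theorem sum_nbE (n v : ℕ) (f : ℕ → ℝ) : ∑ i ∈ range 64, f (nbE n v i)
    = ∑ κ : MP_67c02a_lc.Pt, (f (rotE n (v, κ)).1 + f v) := by
  rw [show 64 = 32 + 32 from rfl, sum_range_add, sum_add_distrib, ← Equiv.sum_comp ptE,
    ← Fin.sum_univ_eq_sum_range fun i => f (nbE n v i)]
  refine congrArg₂ _ (sum_congr rfl fun i _ => ?_) ?_
  · simp [nbE]
  · simp [nbE]

theorem sum_rotE (n : ℕ) (g : ℕ → ℝ) :
    ∑ v ∈ range n, ∑ κ : MP_67c02a_lc.Pt, g (rotE n (v, κ)).1 = 32 * ∑ v ∈ range n, g v := by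
  rw [← sum_product' (f := fun v κ => g (rotE n (v, κ)).1),
    sum_nbij' (t := range n ×ˢ univ) (g := fun x => g x.1) (rotE n) (rotE n)]
  · rw [sum_product, mul_sum]; simp
  · intro x hx
    exact mem_product.2 ⟨mem_range.2 (rotE_lt (mem_range.1 (mem_product.1 hx).1)), mem_univ _⟩
  · intro x hx
    exact mem_product.2 ⟨mem_range.2 (rotE_lt (mem_range.1 (mem_product.1 hx).1)), mem_univ _⟩
  · intro x hx
    exact rotE_rotE (mem_range.1 (mem_product.1 hx).1)
  · intro x hx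
    exact rotE_rotE (mem_range.1 (mem_product.1 hx).1)
  · intro x _
    rfl

theorem isExp_nbE {n : ℕ} (hn : 0 < n) : IsExp n 64 (nbE n) (1 - 1 / 20000) := by
  refine ⟨fun v hv i _ => ?_, fun f => ?_, fun f hf => ?_⟩
  · unfold nbE
    split_ifs
    · exact rotE_lt hv
    · exact hv
  · simp only [sum_nbE, sum_add_distrib, sum_rotE]
    simp [← mul_sum]
    ring
  · have h1 := poincare n f
    have hn' : (0 : ℝ) < n := by exact_mod_cast hn
    set F := ∑ v ∈ range n, f v ^ 2 with hF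
    have hF0 : 0 ≤ F := sum_nonneg fun _ _ => sq_nonneg _
    have h2 : ∑ u ∈ range n, ∑ v ∈ range n, (f u - f v) ^ 2 = n * (2 * F) := by
      simp only [sub_sq, sum_add_distrib, sum_sub_distrib, ← mul_sum, hf, sum_const, card_range,
        nsmul_eq_mul, mul_zero, ← hF]
      ring
    set D := ∑ u ∈ range n, ∑ κ : MP_67c02a_lc.Pt, (f u - f (rotE n (u, κ)).1) ^ 2 with hD
    have h3 : 2 * F ≤ 128 * D := le_of_mul_le_mul_left (by rw [← h2]; linarith) hn'
    have h4 := sum_rotE n fun v => f v ^ 2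
    calc _ ≤ ∑ v ∈ range n, 32 * ∑ κ : MP_67c02a_lc.Pt, (2 * f (rotE n (v, κ)).1 ^ 2 + 2 * f v ^ 2
          - (f v - f (rotE n (v, κ)).1) ^ 2) := by
          refine sum_le_sum fun v _ => ?_
          rw [sum_nbE]
          refine sq_sum_le_card_mul_sum_sq.trans (le_of_eq ?_)
          exact congrArg₂ _ (by simp) (sum_congr rfl fun κ _ => by ring)
      _ = 32 * (128 * F - D) := by
          simp only [← mul_sum, sum_sub_distrib, sum_add_distrib, h4, ← hD, ← hF, sum_const,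
            card_univ, nsmul_eq_mul]
          simp
          ring
      _ ≤ _ := by
          push_cast
          nlinarith

theorem expFam : ExpFam 64 (1 - 1 / 20000) := by
  refine ⟨fun N => N + 1, fun N => nbE (N + 1), by fun_prop, ?_,
    fun N => ⟨Nat.lt_succ_self _, isExp_nbE (Nat.succ_pos _)⟩⟩
  unfold nbE
  refine PT.ite (by fun_prop) (pt_rotE (by fun_prop) (PT.prodMk (by fun_prop)
    ((PT.of_fintype ptE).comp (PT.out (f := fun x : ℕ × ℕ × ℕ => x.2.2 % 32) (by fun_prop)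
      fun _ => rfl)))).fst (by fun_prop)

theorem satGap : ∃ ε : ℝ, 0 < ε ∧ ε ≤ 1 ∧
    ∀ L ∈ NP, SatGap (fun x => L x = true) (fun x => ¬ L x = true) 4 ε := by
  obtain ⟨ε, h0, h⟩ := pcp
  refine ⟨min ε 1, lt_min h0 one_pos, min_le_right _ _, fun L hL => ?_⟩
  obtain ⟨f, p1, h1⟩ := h L hL
  refine ⟨fun x => if f x = [] then [[(0, true)]] else f x, by fun_prop, fun x => ?_⟩
  obtain ⟨h2, h3, h4⟩ := h1 x
  by_cases hx : f x = []
  · simp only [if_pos hx]
    refine ⟨by simp, by simp, fun _ => ⟨fun _ => true, by simp [CNF.Sat]⟩,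
      fun h5 => absurd hx (h4 h5).1⟩
  · simp only [if_neg hx]
    refine ⟨hx, fun c hc => ⟨List.length_pos_iff.1 (by rw [h2 c hc]; norm_num), (h2 c hc).le⟩, h3,
      fun h5 s => ?_⟩
    refine le_trans (mul_le_mul_of_nonneg_right (min_le_left _ _) (by positivity))
      (((h4 h5).2 s).trans (le_of_eq ?_))
    unfold MP_67c02a_lc.viol
    congr 2
    funext c
    rw [Bool.eq_iff_iff]
    simp

/-- the colouring gap of Zuckerman -/
theorem colGap (L : DecisionProblem) (hL : L ∈ NP) (m n0 : ℕ) :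
    ColGap (fun x => L x = true) (fun x => ¬ L x = true) m n0 := by
  obtain ⟨ε, h0, h1, h⟩ := satGap
  exact colGap_of_satGap (by norm_num) h0 h1 (h L hL) expFam (by norm_num) (by norm_num)
    (by norm_num) m n0

end Pool.Agent.Lib.MP_4d0379_lc
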